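import Mathlib
import Pool.Agent.Lib.MP_44a246_ntV.VSetup
import Pool.Agent.Lib.MP_44a246_ntU.U20

/-!
Derivations of a function field which kill a subfield of finite transcendence degree, dual to given
elements.
-/

namespace Pool.Agent.Lib.MP_44a246_ntMS

open Pool.Agent.Lib.MP_44a246_nt
open Pool.Agent.Lib.MP_44a246_ntL
open Pool.Agent.Lib.MP_44a246_ntV
open Pool.Agent.Lib.MP_44a246_ntS
open Pool.Agent.Lib.MP_e52354_nt
open WithZero

universe u v

theorem exists_ders {κ : Type u} {K : Type v} [Field κ] [IsAlgClosed κ] [CharZero κ] [Field K]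
    [CharZero K] [Algebra κ K] (hK : IsFF κ K) {k : Type*} [Field k] [CharZero k] [Algebra k K]
    (hk : Algebra.trdeg ℚ k < Cardinal.aleph0) {T : Type*} [Fintype T] [DecidableEq T] {a : T → K}
    (ha : AlgebraicIndependent k a) :
    ∃ (D : T → Derivation ℤ K K) (B : Place κ K → ℕ), (Function.support B).Finite ∧
      (∀ I, PoleBound κ (D I) B) ∧ (∀ I J, D I (a J) = if I = J then 1 else 0) ∧
      ∀ I, ∀ c : k, D I (algebraMap k K c) = 0 := by
  classical
  obtain ⟨t, ht, hfin⟩ := hK
  have hsct : IsScalarTower ℚ κ K := inferInstance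
  have hsct' : IsScalarTower ℚ k K := inferInstance
  -- a finite transcendence basis of `k`
  obtain ⟨ι, c, hc⟩ := exists_isTranscendenceBasis' ℚ k
  have hι : Finite ι := by
    rw [← Cardinal.lt_aleph0_iff_finite]
    have h1 := hc.lift_cardinalMk_eq_trdeg
    rw [Cardinal.lift_id, Cardinal.lift_id] at h1
    rw [h1]
    exact hk
  have : Fintype ι := Fintype.ofFinite ι
  have hind : AlgebraicIndependent ℚ (Sum.elim a (algebraMap k K ∘ c)) := hc.1.sumElim_comp ha
  obtain ⟨T', iT, z1, E1, DK, B₁, A, hB₁, hA, hPD, hPE1, hPa, hPz, hD, hDz, hEa, hEz1, hcomm,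
    hcommE, hgen⟩ := exists_setupV (k₀ := ℚ) ht hfin hind
  refine ⟨fun I => derZ (DK (Sum.inl I)), B₁, hB₁, fun I => hPD _, fun I J => ?_, fun I u => ?_⟩
  · have h1 := hD (Sum.inl I) (Sum.inl J)
    simp only [Sum.inl.injEq] at h1
    exact h1
  · have hu : IsAlgebraic (IntermediateField.adjoin ℚ (Set.range c)) u :=
      hc.isAlgebraic_field.isAlgebraic u
    have h1 := der_eq_zero (V := K) ((DK (Sum.inl I)).compAlgebraMap k) (Set.range c) ?_ hu
    · exact h1
    · rintro _ ⟨i, rfl⟩
      have h2 := hD (Sum.inl I) (Sum.inr i)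
      rw [if_neg (by simp)] at h2
      exact h2

end Pool.Agent.Lib.MP_44a246_ntMS
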