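import Mathlib
import Pool.Agent.Lib.MP_44a246_ntX.X0
import Pool.Agent.Lib.MP_44a246_ntL.LFF
import Pool.Agent.Lib.MP_e52354_ntMR.MR05

/-!
The height inequality over a function field of one variable, from the minor which is divisible by a
large power of the linear form.
-/

namespace Pool.Agent.Lib.MP_44a246_ntMS

open Pool.Agent.Lib.MP_44a246_nt
open Pool.Agent.Lib.MP_44a246_ntL
open Pool.Agent.Lib.MP_44a246_ntX
open Pool.Agent.Lib.MP_e52354_ntMR
open WithZero MvPolynomial

section Det

variable {M : Type*} [Field M] {s : ℕ}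

theorem detRows_update {R : Type*} [CommRing R] {m : ℕ} (a : Fin 1 ⊕ Fin m → R)
    (v : Fin m → Fin 1 ⊕ Fin m → R) (q : Fin m) (z : Fin 1 ⊕ Fin m → R) :
    Matrix.of (Sum.elim (fun _ : Fin 1 => a) (Function.update v q z)) =
      (Matrix.of (Sum.elim (fun _ : Fin 1 => a) v)).updateRow (Sum.inr q) z := by
  ext i j
  rcases i with i | i
  · rw [Matrix.updateRow_ne (by simp)]
    rfl
  · by_cases hi : i = q
    · subst hi
      rw [Matrix.updateRow_self]
      show Function.update v i z i j = z j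
      rw [Function.update_self]
    · rw [Matrix.updateRow_ne (by simpa using hi)]
      show Function.update v q z i j = v i j
      rw [Function.update_of_ne hi]

theorem detRows_add {R : Type*} [CommRing R] {m : ℕ} (a : Fin 1 ⊕ Fin m → R)
    (v : Fin m → Fin 1 ⊕ Fin m → R) (q : Fin m) (x y : Fin 1 ⊕ Fin m → R) :
    (Matrix.of (Sum.elim (fun _ : Fin 1 => a) (Function.update v q (x + y)))).det =
    (Matrix.of (Sum.elim (fun _ : Fin 1 => a) (Function.update v q x))).det +
    (Matrix.of (Sum.elim (fun _ : Fin 1 => a) (Function.update v q y))).det := by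
  rw [detRows_update, detRows_update, detRows_update]
  exact Matrix.det_updateRow_add (Matrix.of (Sum.elim (fun _ : Fin 1 => a) v)) (Sum.inr q) x y

theorem detRows_smul {R : Type*} [CommRing R] {m : ℕ} (a : Fin 1 ⊕ Fin m → R)
    (v : Fin m → Fin 1 ⊕ Fin m → R) (q : Fin m) (c : R) (x : Fin 1 ⊕ Fin m → R) :
    (Matrix.of (Sum.elim (fun _ : Fin 1 => a) (Function.update v q (c • x)))).det =
    c • (Matrix.of (Sum.elim (fun _ : Fin 1 => a) (Function.update v q x))).det := by
  rw [detRows_update, detRows_update, smul_eq_mul]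
  exact Matrix.det_updateRow_smul (Matrix.of (Sum.elim (fun _ : Fin 1 => a) v)) (Sum.inr q) c x

/-- the determinant as a function of all rows but the first -/
noncomputable def detRows {R : Type*} [CommRing R] {m : ℕ} (a : Fin 1 ⊕ Fin m → R) :
    MultilinearMap R (fun _ : Fin m => Fin 1 ⊕ Fin m → R) R where
  toFun v := (Matrix.of (Sum.elim (fun _ : Fin 1 => a) v)).det
  map_update_add' {inst} v q x y := by
    obtain rfl : inst = instDecidableEqFin m := Subsingleton.elim _ _
    exact detRows_add a v q x y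
  map_update_smul' {inst} v q c x := by
    obtain rfl : inst = instDecidableEqFin m := Subsingleton.elim _ _
    exact detRows_smul a v q c x

/-- the expansion of the rows -/
theorem det_row_mem (O : Subring M) {ε β : M} {m : ℕ} {ι : Type*} [Fintype ι]
    (a : Fin 1 ⊕ Fin m → M) (V : ι → Fin 1 ⊕ Fin m → M)
    (h : ∀ K : Fin m → ι, ε * (Matrix.of (Sum.elim (fun _ : Fin 1 => a)
      (fun q => V (K q)))).det ∈ O) (μ : Fin m → ι → MvPolynomial (Fin s) M)
    (hμ : ∀ q I, C β * μ q I ∈ OA O s) :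
    C (ε * β ^ m) * (Matrix.of (Sum.elim (fun (_ : Fin 1) b => C (a b))
      (fun q b => ∑ I, μ q I * C (V I b)))).det ∈ OA O s := by
  classical
  have h1 : (Matrix.of (Sum.elim (fun (_ : Fin 1) b => (C (a b) : MvPolynomial (Fin s) M))
      (fun q b => ∑ I, μ q I * C (V I b)))).det =
      detRows (fun b => C (a b)) (fun q => ∑ I, μ q I • fun b => (C (V I b) :
        MvPolynomial (Fin s) M)) := by
    show _ = (Matrix.of (Sum.elim _ _)).det
    congr 2
    funext i
    rcases i with i | q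
    · rfl
    · funext b
      show ∑ I, μ q I * C (V I b) = (∑ I, μ q I • fun b => (C (V I b) :
        MvPolynomial (Fin s) M)) b
      rw [Finset.sum_apply]
      rfl
  rw [h1, MultilinearMap.map_sum, Finset.mul_sum]
  refine (OA O s).sum_mem fun K _ => ?_
  rw [MultilinearMap.map_smul_univ]
  have h2 : detRows (fun b => C (a b)) (fun q => fun b => (C (V (K q) b) :
      MvPolynomial (Fin s) M)) = C (Matrix.of (Sum.elim (fun _ : Fin 1 => a)
        (fun q => V (K q)))).det := by
    rw [RingHom.map_det]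
    show (Matrix.of (Sum.elim _ _)).det = _
    congr 1
    ext1 i j
    rcases i with i | q
    · rfl
    · rfl
  rw [h2, smul_eq_mul]
  have h3 : C (ε * β ^ m) * ((∏ q, μ q (K q)) * C (Matrix.of (Sum.elim (fun _ : Fin 1 => a)
        (fun q => V (K q)))).det) =
      (∏ q, (C β * μ q (K q))) * C (ε * (Matrix.of (Sum.elim (fun _ : Fin 1 => a)
        (fun q => V (K q)))).det) := by
    rw [Finset.prod_mul_distrib, Finset.prod_const, Finset.card_univ, Fintype.card_fin,
      C_mul, C_mul, C_pow]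
    ring
  rw [h3]
  exact (OA O s).mul_mem ((OA O s).prod_mem fun q _ => hμ q (K q)) (C_mem_OA (h K))

end Det

section Place

variable {κ L : Type*} [Field κ] [Field L] [Algebra κ L]

/-- the minors of the derivations, bordered by the row of the elements -/
theorem border_bound {ι : Type*} {D : ι → Derivation ℤ L L} {δ ρ : Place κ L → ℕ}
    (hD : MinorBound κ D Set.univ δ ρ) (w : Place κ L) {m : ℕ} (K : Fin m → ι)
    (c : Fin 1 ⊕ Fin m → L) (hc : ∀ b, w.1 (c b) ≤ 1) :
    w.1 (Matrix.of (Sum.elim (fun _ : Fin 1 => c) (fun q b => D (K q) (c b)))).det ≤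
      exp ((m * δ w + ρ w : ℕ) : ℤ) := by
  classical
  obtain ⟨ε, hε0, hε1⟩ : ∃ ε : Fin (m + 1) ≃ Fin 1 ⊕ Fin m, ε 0 = Sum.inl 0 ∧
      ∀ i : Fin m, ε i.succ = Sum.inr i := by
    have hinj : Function.Injective (Fin.cons (Sum.inl 0) Sum.inr : Fin (m + 1) → Fin 1 ⊕ Fin m) := by
      intro i j hij
      induction i using Fin.cases with
      | zero =>
        induction j using Fin.cases with
        | zero => rfl
        | succ j => simp at hij
      | succ i =>
        induction j using Fin.cases with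
        | zero => simp at hij
        | succ j =>
          simp only [Fin.cons_succ, Sum.inr.injEq] at hij
          rw [hij]
    have hbij : Function.Bijective
        (Fin.cons (Sum.inl 0) Sum.inr : Fin (m + 1) → Fin 1 ⊕ Fin m) := by
      refine (Fintype.bijective_iff_injective_and_card _).2 ⟨hinj, ?_⟩
      rw [Fintype.card_sum, Fintype.card_fin, Fintype.card_fin, Fintype.card_fin]
      omega
    exact ⟨Equiv.ofBijective _ hbij, rfl, fun i => rfl⟩
  rw [← Matrix.det_submatrix_equiv_self ε, Matrix.det_succ_row_zero]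
  refine Valuation.map_sum_le _ fun j _ => ?_
  rw [map_mul, map_mul, map_pow, Valuation.map_neg, map_one, one_pow, one_mul]
  have h1 : w.1 ((Matrix.of (Sum.elim (fun _ : Fin 1 => c)
      (fun q b => D (K q) (c b)))).submatrix ε ε 0 j) ≤ 1 := by
    rw [Matrix.submatrix_apply, hε0]
    exact hc _
  have h2 := hD w m K (fun i' => c (ε (j.succAbove i'))) (fun _ => Set.mem_univ _)
    (fun _ => hc _)
  have h3 : ((Matrix.of (Sum.elim (fun _ : Fin 1 => c)
      (fun q b => D (K q) (c b)))).submatrix ε ε).submatrix Fin.succ j.succAbove =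
      Matrix.of fun i j' => D (K i) (c (ε (j.succAbove j'))) := by
    ext i i'
    rw [Matrix.submatrix_apply, Matrix.submatrix_apply, hε1]
    rfl
  rw [h3]
  calc _ ≤ 1 * exp ((m * δ w + ρ w : ℕ) : ℤ) := mul_le_mul' h1 h2
    _ = _ := one_mul _

/-- **The height inequality.** -/
theorem height_ineq [IsAlgClosed κ] [CharZero κ] [CharZero L] (h : IsFF κ L) {ι : Type*}
    [Fintype ι] {D : ι → Derivation ℤ L L} {δ ρ σ : Place κ L → ℕ}
    (hδ : (Function.support δ).Finite) (hρ : (Function.support ρ).Finite)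
    (hσ : (Function.support σ).Finite) (hD : MinorBound κ D Set.univ δ ρ) {s : ℕ}
    {lam : ι → MvPolynomial (Fin s) L}
    (hlam : ∀ I α (w : Place κ L), w.1 (coeff α (lam I)) ≤ exp (σ w : ℤ))
    {x : Fin s → L} {j₀ : Fin s} (hx : x j₀ = 1) {φ : Fin s → L} (hφx : ∑ i, φ i * x i = 0)
    {g : MvPolynomial (Fin s) L} (hg : g ≠ 0) {J r : ℕ}
    (hφ : ∑ i, C (φ i) * (∑ I, lam I * C (D I (x i))) = (∑ l, C (x l) * X l) ^ J * g)
    {q : ℕ} (hq : q ≤ r) (c : Fin s → Fin q → L) (jj : Fin q → Fin s)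
    (hc : ∀ I i, D I (x i) = ∑ t, c i t * D I (x (jj t))) :
    ((J : ℤ) - 2 * r) * height κ x ≤
      ∑ᶠ w, (ρ w : ℤ) + r * (∑ᶠ w, (δ w : ℤ) + ∑ᶠ w, (σ w : ℤ)) := by
  classical
  obtain ⟨y, hydef⟩ : ∃ y : Fin s → MvPolynomial (Fin s) L,
    y = fun i => ∑ I, lam I * C (D I (x i)) := ⟨_, rfl⟩
  have hx0 : x ≠ 0 := by
    intro h0
    rw [h0] at hx
    exact zero_ne_one hx
  have hℓ : (∑ l, C (x l) * X l : MvPolynomial (Fin s) L) ≠ 0 := by
    intro h0
    have h1 := congrArg (coeff (Finsupp.single j₀ 1)) h0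
    rw [coeff_sum, Finset.sum_eq_single j₀, coeff_C_mul, coeff_X, if_pos rfl, mul_one, hx,
      coeff_zero] at h1
    · exact one_ne_zero h1
    · intro l _ hl
      rw [coeff_C_mul, coeff_X, if_neg, mul_zero]
      intro h2
      exact hl (Finsupp.single_left_injective one_ne_zero h2)
    · intro h2
      exact absurd (Finset.mem_univ _) h2
  have hφ' : ∑ i, C (φ i) * y i = (∑ l, C (x l) * X l) ^ J * g := by
    rw [hydef]
    exact hφ
  have hy' : ∀ i, y i = ∑ t : Fin q, (∑ I, lam I * C (D I (x (jj t)))) * C (c i t) := by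
    intro i
    rw [hydef]
    simp only [Finset.sum_mul]
    rw [Finset.sum_comm]
    refine Finset.sum_congr rfl fun I _ => ?_
    rw [hc I i, map_sum, Finset.mul_sum]
    refine Finset.sum_congr rfl fun t _ => ?_
    rw [C_mul]
    ring
  obtain ⟨w₀, m, α, col, hm, hw, hdet, hdvd⟩ :=
    exists_minor_dvd hx0 hφx hℓ hg hφ' hq (fun t i => c i t) _ hy'
  obtain ⟨P, hP⟩ := hdvd
  have hP0 : P ≠ 0 := by
    intro h0
    rw [h0, mul_zero] at hP
    exact hdet hP
  obtain ⟨β, hβ⟩ := ne_zero_iff.1 hP0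
  obtain ⟨k, hk⟩ : ∃ k, k = J - m := ⟨_, rfl⟩
  rw [← hk] at hP
  -- the local inequality
  have hloc : ∀ w : Place κ L, log (w.1 (coeff β P)) +
      ((k : ℤ) - w₀ - 1) * log (vmax w.1 x) ≤ w₀ * (δ w + σ w) + ρ w := by
    intro w
    obtain ⟨l, hl, hlmax, hlk⟩ := exists_vmax w.1 hx0
    obtain ⟨O, hO⟩ : ∃ O : Subring L, O = w.1.integer := ⟨_, rfl⟩
    have hmem : ∀ z : L, z ∈ O ↔ w.1 z ≤ 1 := by
      intro z
      rw [hO]
      exact Valuation.mem_integer_iff _ _
    have hwl : w.1 (x l) ≠ 0 := (Valuation.ne_zero_iff _).2 hl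
    -- the normalised vectors
    obtain ⟨xh, hxh⟩ : ∃ xh : Fin s → L, xh = fun i => x i / x l := ⟨_, rfl⟩
    obtain ⟨yh, hyh⟩ : ∃ yh : Fin s → MvPolynomial (Fin s) L,
      yh = fun i => ∑ I, lam I * C (D I (xh i)) := ⟨_, rfl⟩
    have hxxh : ∀ i, x i = x l * xh i := by
      intro i
      rw [hxh]
      show x i = x l * (x i / x l)
      rw [mul_div_cancel₀ _ hl]
    have hxhO : ∀ i, xh i ∈ O := by
      intro i
      rw [hmem, hxh]
      show w.1 (x i / x l) ≤ 1
      rw [map_div₀]
      exact div_le_one_of_le₀ (hlk i) zero_le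
    have hxhl : xh l = 1 := by
      rw [hxh]
      exact div_self hl
    have hyyh : ∀ i, y i = C (x l) * yh i + C (xh i) * y l := by
      intro i
      rw [hydef, hyh]
      simp only [Finset.mul_sum]
      rw [← Finset.sum_add_distrib]
      refine Finset.sum_congr rfl fun I _ => ?_
      have h1 : D I (x i) = x l * D I (xh i) + xh i * D I (x l) := by
        conv_lhs => rw [hxxh i, Derivation.leibniz, smul_eq_mul, smul_eq_mul]
      rw [h1, C_add, C_mul, C_mul]
      ring
    obtain ⟨ε, hε⟩ := w.2.1 (exp (-((w₀ * δ w + ρ w : ℕ) : ℤ)))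
    obtain ⟨b, hb⟩ := w.2.1 (exp (-(σ w : ℤ)))
    have hdetO : C (ε * b ^ w₀) * (Matrix.of fun a b => rowsL xh yh α a (col b)).det ∈
        OA O s := by
      have h1 := det_row_mem (s := s) O (ε := ε) (β := b) (fun b => xh (col b))
        (fun I b => D I (xh (col b))) (fun K => by
          rw [hmem, map_mul, hε]
          have h2 := border_bound hD w K (fun b => xh (col b)) (fun b => (hmem _).1 (hxhO _))
          calc _ ≤ exp (-((w₀ * δ w + ρ w : ℕ) : ℤ)) * exp ((w₀ * δ w + ρ w : ℕ) : ℤ) :=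
              mul_le_mul' le_rfl h2
            _ = 1 := by rw [← exp_add, neg_add_cancel, exp_zero])
        (fun q I => dL (α q) (lam I)) (fun q I => by
          rw [← dL_C_mul]
          refine dL_mem_OA ?_ _
          intro γ
          rw [coeff_C_mul, hmem, map_mul, hb]
          calc _ ≤ exp (-(σ w : ℤ)) * exp (σ w : ℤ) := mul_le_mul' le_rfl (hlam I γ w)
            _ = 1 := by rw [← exp_add, neg_add_cancel, exp_zero])
      have h2 : (Matrix.of fun a b => rowsL xh yh α a (col b)) =
          Matrix.of (Sum.elim (fun (_ : Fin 1) b => C (xh (col b)))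
            (fun q b => ∑ I, dL (α q) (lam I) * C (D I (xh (col b))))) := by
        ext1 i j
        rcases i with i | q
        · rfl
        · show dL (α q) (yh (col j)) = ∑ I, dL (α q) (lam I) * C (D I (xh (col j)))
          rw [hyh, dL_sum]
          exact Finset.sum_congr rfl fun I _ => dL_mul_C _ _ _
      rw [h2]
      exact h1
    have hPw := hP
    rw [det_rowsL hl hxxh hyyh] at hPw
    obtain ⟨ℓh, hℓh⟩ : ∃ ℓh : MvPolynomial (Fin s) L, ℓh = ∑ i, C (xh i) * X i := ⟨_, rfl⟩
    have hℓℓ : (∑ l, C (x l) * X l : MvPolynomial (Fin s) L) = C (x l) * ℓh := by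
      rw [hℓh, Finset.mul_sum]
      refine Finset.sum_congr rfl fun i _ => ?_
      rw [hxxh i, C_mul]
      ring
    rw [hℓℓ, mul_pow] at hPw
    have hinv : (C ((x l)⁻¹ ^ (w₀ + 1)) * C (x l) ^ (w₀ + 1) : MvPolynomial (Fin s) L) = 1 := by
      rw [← C_pow, ← C_mul, ← mul_pow, inv_mul_cancel₀ hl, one_pow, C_1]
    have h1 : ℓh ^ k * (C (ε * b ^ w₀ * ((x l)⁻¹ ^ (w₀ + 1) * x l ^ k)) * P) ∈ OA O s := by
      have h2 : ℓh ^ k * (C (ε * b ^ w₀ * ((x l)⁻¹ ^ (w₀ + 1) * x l ^ k)) * P) =
          C (ε * b ^ w₀) * (Matrix.of fun a b => rowsL xh yh α a (col b)).det := by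
        have h3 : (Matrix.of fun a b => rowsL xh yh α a (col b)).det =
            C ((x l)⁻¹ ^ (w₀ + 1)) * (C (x l) ^ k * ℓh ^ k * P) := by
          rw [← hPw, ← mul_assoc, hinv, one_mul]
        rw [h3, C_mul (a := ε * b ^ w₀), C_mul (a := (x l)⁻¹ ^ (w₀ + 1)), C_pow (x l) k]
        ring
      rw [h2]
      exact hdetO
    rw [hℓh] at h1
    have h2 := gauss_linear_pow hxhO hxhl _ h1 β
    rw [coeff_C_mul, hmem, map_mul, map_mul, map_mul, map_mul, map_pow, map_pow, map_pow,
      map_inv₀, hε, hb, ← hlmax] at h2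
    have hv : vmax w.1 x ≠ 0 := by
      rw [hlmax]
      exact hwl
    have hP1 : w.1 (coeff β P) ≠ 0 := (Valuation.ne_zero_iff _).2 hβ
    have hne : exp (-((w₀ * δ w + ρ w : ℕ) : ℤ)) * exp (-(σ w : ℤ)) ^ w₀ *
        ((vmax w.1 x)⁻¹ ^ (w₀ + 1) * vmax w.1 x ^ k) ≠ 0 :=
      mul_ne_zero (mul_ne_zero exp_ne_zero (pow_ne_zero _ exp_ne_zero))
        (mul_ne_zero (pow_ne_zero _ (inv_ne_zero hv)) (pow_ne_zero _ hv))
    have h3 := (log_le_log (mul_ne_zero hne hP1) one_ne_zero).2 h2
    rw [log_one, log_mul hne hP1, log_mul (mul_ne_zero exp_ne_zero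
      (pow_ne_zero _ exp_ne_zero)) (mul_ne_zero (pow_ne_zero _ (inv_ne_zero hv))
      (pow_ne_zero _ hv)), log_mul exp_ne_zero (pow_ne_zero _ exp_ne_zero),
      log_mul (pow_ne_zero _ (inv_ne_zero hv)) (pow_ne_zero _ hv), log_pow, log_pow, log_pow,
      log_inv, log_exp, log_exp] at h3
    simp only [nsmul_eq_mul] at h3
    push_cast at h3
    linarith
  -- the sum over the places
  have s1 := h.place_support hβ
  have s2 : (Function.support fun w : Place κ L =>
      ((k : ℤ) - w₀ - 1) * log (vmax w.1 x)).Finite := by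
    refine (h.vmax_support hx0).subset fun w hw h1 => hw ?_
    simp only at h1 ⊢
    rw [h1, mul_zero]
  have s3 : (Function.support fun w : Place κ L => (δ w : ℤ)).Finite := by
    refine hδ.subset fun w hw h1 => hw ?_
    simp only at h1 ⊢
    rw [h1, Nat.cast_zero]
  have s4 : (Function.support fun w : Place κ L => (σ w : ℤ)).Finite := by
    refine hσ.subset fun w hw h1 => hw ?_
    simp only at h1 ⊢
    rw [h1, Nat.cast_zero]
  have s5 : (Function.support fun w : Place κ L => (ρ w : ℤ)).Finite := by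
    refine hρ.subset fun w hw h1 => hw ?_
    simp only at h1 ⊢
    rw [h1, Nat.cast_zero]
  have s34 : (Function.support fun w : Place κ L => (δ w : ℤ) + (σ w : ℤ)).Finite :=
    (s3.union s4).subset (Function.support_add _ _)
  have s34' : (Function.support fun w : Place κ L => (w₀ : ℤ) * ((δ w : ℤ) + (σ w : ℤ))).Finite := by
    refine s34.subset fun w hw h1 => hw ?_
    simp only at h1 ⊢
    rw [h1, mul_zero]
  have hmain := finsum_mono ((s1.union s2).subset (Function.support_add _ _))
    ((s34'.union s5).subset (Function.support_add _ _)) hloc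
  rw [finsum_add_distrib s1 s2, finsum_add_distrib s34' s5, h.product_formula hβ,
    ← mul_finsum _ _, ← mul_finsum _ _, finsum_add_distrib s3 s4, zero_add] at hmain
  have hh : ∑ᶠ w : Place κ L, log (vmax w.1 x) = height κ x := rfl
  rw [hh] at hmain
  have h1 := h.height_nonneg hx0
  have h2 : 0 ≤ ∑ᶠ w, (δ w : ℤ) := finsum_nonneg fun w => Int.natCast_nonneg _
  have h3 : 0 ≤ ∑ᶠ w, (σ w : ℤ) := finsum_nonneg fun w => Int.natCast_nonneg _
  have h4 : (w₀ : ℤ) ≤ r := by exact_mod_cast hw
  have h5 : (J : ℤ) - 2 * r ≤ (k : ℤ) - w₀ - 1 := by omega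
  have h6 := mul_le_mul_of_nonneg_right h5 h1
  have h7 := mul_le_mul_of_nonneg_right h4 (add_nonneg h2 h3)
  linarith

end Place

end Pool.Agent.Lib.MP_44a246_ntMS
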