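import Mathlib
import Pool.Agent.Lib.MP_e52354_ntMR.MR07

/-!
The identity for the derivatives of a point, from the relation between the derivatives of the forms.
-/

namespace Pool.Agent.Lib.MP_44a246_ntMS

open Pool.Agent.Lib.MP_e52354_ntMR
open Pool.Agent.Lib.MP_44a246_ntK (der_aevalG wtP)
open Pool.Agent.Lib.MP_44a246_ntR (imI card_le_of_dimI_norm)
open Pool.Agent.Lib.MP_44a246_ntU (exists_der_comb)
open MvPolynomial

/-- **The identity for the derivatives of a point.** -/
theorem relation_data {k₀ L M : Type*} [Field k₀] [CharZero k₀] [Field L] [Field M]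
    [CharZero M] [Algebra k₀ L] [Algebra L M] [Algebra k₀ M] [IsScalarTower k₀ L M] {n p : ℕ}
    {ι : Type*} [Fintype ι] {D₀ : ι → Derivation ℤ L L} {D : ι → Derivation ℤ M M}
    (hD0 : ∀ I y, D I (algebraMap L M y) = algebraMap L M (D₀ I y))
    (hYk : ∀ I, ∀ c : k₀, D I (algebraMap k₀ M c) = 0)
    {r J s : ℕ} {d : Fin p → ℕ} {e : Fin s → ℕ} {j₁ : Fin p}
    {f : Fin s → MvPolynomial (Fin p ⊕ Fin n) k₀}
    (hf : ∀ i, (f i).IsWeightedHomogeneous (wtP n d) (e i))
    (hdim : ringKrullDim (MvPolynomial (Fin n) k₀ ⧸ imI f) ≤ ((r + 1 : ℕ) : ℕ))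
    {H : Fin p → MvPolynomial (Fin n) L} (hH : ∀ j, (H j).IsHomogeneous (d j))
    {lam : ι → MvPolynomial (Fin n) L}
    {g₀ : MvPolynomial (Fin n) (MvPolynomial (Fin n) L)}
    (hrel : ∀ j m, ∑ I, lam I * C (D₀ I (coeff m (H j))) =
      if j = j₁ then coeff m (lin L n ^ J * g₀) else 0)
    {g : MvPolynomial (Fin p ⊕ Fin n) k₀} {e' : ℕ} (hg : g.IsWeightedHomogeneous (wtP n d) e')
    {α : Fin n →₀ ℕ} {j₀ : Fin n} {x : Fin n → M} (hx : x j₀ = 1)
    (hzf : ∀ i, aeval (Sum.elim (fun j => aeval x (H j)) x : Fin p ⊕ Fin n → M) (f i) = 0)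
    (hzg : aeval (Sum.elim (fun j => aeval x (H j)) x : Fin p ⊕ Fin n → M) g = 0)
    (hdg : aeval (Sum.elim (fun j => aeval x (H j)) x : Fin p ⊕ Fin n → M)
      (pderiv (Sum.inl j₁) g) ≠ 0) (hgA : aeval x (coA α g₀) ≠ 0) :
    ∃ (φ : Fin n → M) (g' : MvPolynomial (Fin n) M) (q : ℕ) (jj : Fin q → Fin n)
      (c : Fin n → Fin q → M), ∑ i, φ i * x i = 0 ∧ g' ≠ 0 ∧ q ≤ r ∧
      ∑ i, C (φ i) * (∑ I, map (algebraMap L M) (lam I) * C (D I (x i))) =
        (∑ l, C (x l) * X l) ^ J * g' ∧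
      ∀ I i, D I (x i) = ∑ t, c i t * D I (x (jj t)) := by
  classical
  obtain ⟨η, hη⟩ : ∃ η : Fin p → M, η = fun j => aeval x (H j) := ⟨_, rfl⟩
  obtain ⟨y, hy⟩ : ∃ y : Fin p ⊕ Fin n → M, y = Sum.elim η x := ⟨_, rfl⟩
  have hz : ∀ i, aeval y (f i) = 0 := by
    intro i
    rw [hy, hη]
    exact hzf i
  have hgz : aeval y g = 0 := by
    rw [hy, hη]
    exact hzg
  have hgd : aeval y (pderiv (Sum.inl j₁) g) ≠ 0 := by
    rw [hy, hη]
    exact hdg
  obtain ⟨φ, hφ⟩ : ∃ φ : Fin n → M, φ = fun i => aeval y (pderiv (Sum.inr i) g) +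
    ∑ j, aeval y (pderiv (Sum.inl j) g) * aeval x (pderiv i (H j)) := ⟨_, rfl⟩
  -- the identity of Euler
  have hφx : ∑ i, φ i * x i = 0 := by
    have h1 := congrArg (aeval y) hg.sum_weight_X_mul_pderiv
    rw [map_nsmul, hgz, smul_zero, map_sum, Fintype.sum_sum_type] at h1
    have h2 : ∀ j, ∑ i, x i * aeval x (pderiv i (H j)) = (d j : M) * η j := by
      intro j
      have h3 := congrArg (aeval x) (hH j).sum_X_mul_pderiv
      rw [map_sum, map_nsmul, nsmul_eq_mul] at h3
      rw [hη, ← h3]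
      exact Finset.sum_congr rfl fun i _ => by rw [map_mul, aeval_X]
    have h4 : ∑ i, φ i * x i = ∑ i, aeval y (pderiv (Sum.inr i) g) * x i +
        ∑ j, aeval y (pderiv (Sum.inl j) g) * ((d j : M) * η j) := by
      rw [hφ]
      simp only [add_mul, Finset.sum_add_distrib]
      congr 1
      simp only [Finset.sum_mul]
      rw [Finset.sum_comm]
      refine Finset.sum_congr rfl fun j _ => ?_
      rw [← h2 j, Finset.mul_sum]
      exact Finset.sum_congr rfl fun i _ => by ring
    rw [h4, ← h1, add_comm]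
    congr 1
    · refine Finset.sum_congr rfl fun j _ => ?_
      rw [map_nsmul, map_mul, aeval_X, hy, nsmul_eq_mul]
      show _ = (d j : M) * (η j * _)
      ring
    · refine Finset.sum_congr rfl fun i _ => ?_
      rw [map_nsmul, map_mul, aeval_X, hy, nsmul_eq_mul]
      show _ = ((1 : ℕ) : M) * (x i * _)
      rw [Nat.cast_one]
      ring
  -- the derivatives
  have hD : ∀ I, ∑ i, φ i * D I (x i) =
      - ∑ j, aeval y (pderiv (Sum.inl j) g) * evD (D I) x (H j) := by
    intro I
    have h1 := der_aevalG (D I) (hYk I) y g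
    rw [hgz, map_zero, Fintype.sum_sum_type] at h1
    have h2 : ∀ j, D I (y (Sum.inl j)) = evD (D I) x (H j) +
        ∑ i, aeval x (pderiv i (H j)) * D I (x i) := by
      intro j
      rw [hy, hη]
      exact der_aeval_gen (D I) x (H j)
    have h3 : ∀ i, D I (y (Sum.inr i)) = D I (x i) := by
      intro i
      rw [hy]
      rfl
    simp only [h2, h3, mul_add, Finset.sum_add_distrib] at h1
    have h4 : ∑ i, φ i * D I (x i) = ∑ i, aeval y (pderiv (Sum.inr i) g) * D I (x i) +
        ∑ j, aeval y (pderiv (Sum.inl j) g) * ∑ i, aeval x (pderiv i (H j)) * D I (x i) := by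
      rw [hφ]
      simp only [add_mul, Finset.sum_add_distrib]
      congr 1
      simp only [Finset.sum_mul]
      rw [Finset.sum_comm]
      refine Finset.sum_congr rfl fun j _ => ?_
      rw [Finset.mul_sum]
      exact Finset.sum_congr rfl fun i _ => by ring
    rw [h4]
    linear_combination -h1
  have hsum : ∀ j, ∑ I, map (algebraMap L M) (lam I) * C (evD (D I) x (H j)) =
      if j = j₁ then (∑ l, C (x l) * X l) ^ J * valA x g₀ else 0 := by
    intro j
    obtain ⟨S, hS⟩ : ∃ S : Finset (Fin n →₀ ℕ),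
      S = (H j).support ∪ (lin L n ^ J * g₀).support := ⟨_, rfl⟩
    have h1 : ∀ I, evD (D I) x (H j) = ∑ m ∈ S,
        algebraMap L M (D₀ I (coeff m (H j))) * ∏ i, x i ^ m i := by
      intro I
      rw [evD_eq_sum _ x (H j) (S := S) (by rw [hS]; exact Finset.subset_union_left)]
      refine Finset.sum_congr rfl fun m _ => ?_
      rw [hD0]
    have h2 : ∑ I, map (algebraMap L M) (lam I) * C (evD (D I) x (H j)) =
        ∑ m ∈ S, map (algebraMap L M) (∑ I, lam I * C (D₀ I (coeff m (H j)))) *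
          C (∏ i, x i ^ m i) := by
      simp only [h1, map_sum, Finset.mul_sum, Finset.sum_mul]
      rw [Finset.sum_comm]
      refine Finset.sum_congr rfl fun m _ => Finset.sum_congr rfl fun I _ => ?_
      rw [C_mul, map_mul, map_C]
      ring
    rw [h2]
    simp only [hrel]
    split_ifs with hj
    · rw [← valA_eq_sum x (lin L n ^ J * g₀) (S := S) (by rw [hS]; exact Finset.subset_union_right),
        map_mul, map_pow, valA_lin]
    · simp
  have hφy : ∑ i, C (φ i) * (∑ I, map (algebraMap L M) (lam I) * C (D I (x i))) =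
      (∑ l, C (x l) * X l) ^ J * (- C (aeval y (pderiv (Sum.inl j₁) g)) * valA x g₀) := by
    have h1 : ∑ i, C (φ i) * (∑ I, map (algebraMap L M) (lam I) * C (D I (x i))) =
        ∑ I, map (algebraMap L M) (lam I) * C (∑ i, φ i * D I (x i)) := by
      simp only [Finset.mul_sum, map_sum]
      rw [Finset.sum_comm]
      refine Finset.sum_congr rfl fun I _ => Finset.sum_congr rfl fun i _ => ?_
      rw [C_mul]
      ring
    have h2 : ∑ I, map (algebraMap L M) (lam I) * C (∑ i, φ i * D I (x i)) =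
        - ∑ j, C (aeval y (pderiv (Sum.inl j) g)) *
          ∑ I, map (algebraMap L M) (lam I) * C (evD (D I) x (H j)) := by
      simp only [hD, C_neg, map_sum, Finset.mul_sum, C_mul, mul_neg, Finset.sum_neg_distrib]
      congr 1
      rw [Finset.sum_comm]
      refine Finset.sum_congr rfl fun j _ => Finset.sum_congr rfl fun I _ => ?_
      ring
    rw [h1, h2]
    simp only [hsum]
    rw [Finset.sum_eq_single j₁]
    · rw [if_pos rfl]
      ring
    · intro j _ hj
      rw [if_neg hj, mul_zero]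
    · intro h
      exact absurd (Finset.mem_univ _) h
  have hg1 : (- C (aeval y (pderiv (Sum.inl j₁) g)) * valA x g₀ : MvPolynomial (Fin n) M) ≠ 0 := by
    refine mul_ne_zero (neg_ne_zero.2 ?_) (valA_ne_zero hgA)
    rw [ne_eq, C_eq_zero]
    exact hgd
  -- the rank
  have hξ : ∑ j, (((Pi.single j₀ 1 : Fin n → ℕ) j : ℕ) : M) * x j = 1 := by
    rw [Finset.sum_eq_single j₀]
    · rw [Pi.single_eq_same, Nat.cast_one, one_mul, hx]
    · intro j _ hj
      rw [Pi.single_eq_of_ne hj, Nat.cast_zero, zero_mul]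
    · intro h
      exact absurd (Finset.mem_univ _) h
  have hz' : ∀ i, aeval (Sum.elim η x : Fin p ⊕ Fin n → M) (f i) = 0 := by
    intro i
    rw [← hy]
    exact hz i
  obtain ⟨q, jj, c, hq, hc⟩ := exists_der_comb (k := k₀) (γ := x) (r := r)
    fun q j hj => card_le_of_dimI_norm hf hdim hz' hξ hj
  exact ⟨φ, _, q, jj, c, hφx, hg1, hq, hφy, fun I i => hc (D I) (hYk I) i⟩

end Pool.Agent.Lib.MP_44a246_ntMS
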