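import Mathlib
import Pool.Agent.Lib.MP_44a246_ntX.XP2
import Pool.Agent.Lib.MP_44a246_ntL.LSum
import Pool.Agent.Lib.MP_44a246_ntMS.MS01
import Pool.Agent.Lib.MP_44a246_ntMS.MS02

/-!
The height inequality for the points over finite extensions of a function field.
-/

namespace Pool.Agent.Lib.MP_44a246_ntMS

open Pool.Agent.Lib.MP_44a246_nt
open Pool.Agent.Lib.MP_44a246_ntL
open Pool.Agent.Lib.MP_44a246_ntX
open Pool.Agent.Lib.MP_e52354_ntMR
open Pool.Agent.Lib.MP_44a246_ntK (wtP)
open Pool.Agent.Lib.MP_44a246_ntR (imI)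
open WithZero MvPolynomial

/-- **The height inequality** for the points over a finite extension. -/
theorem height_over {κ K L : Type*} [Field κ] [IsAlgClosed κ] [CharZero κ] [Field K] [CharZero K]
    [Algebra κ K] (hK : IsFF κ K) [Field L] [CharZero L] [Algebra K L] [FiniteDimensional K L]
    [Algebra κ L] [IsScalarTower κ K L] {k₀ : Type*} [Field k₀] [CharZero k₀] [Algebra k₀ K]
    [Algebra k₀ L] [IsScalarTower k₀ K L] {ι : Type*} [Fintype ι] {DK : ι → Derivation ℤ K K}
    {B A : Place κ K → ℕ} (hB : (Function.support B).Finite) (hA : (Function.support A).Finite)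
    (hPB : ∀ I, PoleBound κ (DK I) B) (hDk : ∀ I, ∀ c : k₀, DK I (algebraMap k₀ K c) = 0)
    {n p r J s : ℕ} {d : Fin p → ℕ} {e : Fin s → ℕ} {j₁ : Fin p}
    {f : Fin s → MvPolynomial (Fin p ⊕ Fin n) k₀}
    (hf : ∀ i, (f i).IsWeightedHomogeneous (wtP n d) (e i))
    (hdim : ringKrullDim (MvPolynomial (Fin n) k₀ ⧸ imI f) ≤ ((r + 1 : ℕ) : ℕ))
    {H : Fin p → MvPolynomial (Fin n) K} (hH : ∀ j, (H j).IsHomogeneous (d j))
    {lam : ι → MvPolynomial (Fin n) K}
    (hlam : ∀ I α (v : Place κ K), v.1 (coeff α (lam I)) ≤ exp (A v : ℤ))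
    {g₀ : MvPolynomial (Fin n) (MvPolynomial (Fin n) K)}
    (hrel : ∀ j m, ∑ I, lam I * C (DK I (coeff m (H j))) =
      if j = j₁ then coeff m (lin K n ^ J * g₀) else 0)
    {g : MvPolynomial (Fin p ⊕ Fin n) k₀} {e' : ℕ} (hg : g.IsWeightedHomogeneous (wtP n d) e')
    {α : Fin n →₀ ℕ} {j₀ : Fin n} {x : Fin n → L} (hx : x j₀ = 1)
    (hzf : ∀ i, aeval (Sum.elim (fun j => aeval x (H j)) x : Fin p ⊕ Fin n → L) (f i) = 0)
    (hzg : aeval (Sum.elim (fun j => aeval x (H j)) x : Fin p ⊕ Fin n → L) g = 0)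
    (hdg : aeval (Sum.elim (fun j => aeval x (H j)) x : Fin p ⊕ Fin n → L)
      (pderiv (Sum.inl j₁) g) ≠ 0) (hgA : aeval x (coA α g₀) ≠ 0) :
    ((J : ℤ) - 2 * r) * height κ x ≤ ramDeg κ L K +
      r * (Module.finrank K L * (∑ᶠ v, (B v : ℤ) + ∑ᶠ v, (A v : ℤ))) := by
  classical
  have hL : IsFF κ L := hK.of_finite
  choose D' hD' using fun I => exists_extension (L := L) (DK I)
  have hYk : ∀ I, ∀ c : k₀, D' I (algebraMap k₀ L c) = 0 := by
    intro I c
    rw [IsScalarTower.algebraMap_apply k₀ K L, hD', hDk, map_zero]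
  obtain ⟨φ, g', q, jj, c, hφx, hg', hq, hφy, hc⟩ := relation_data hD' hYk hf hdim hH hrel hg hx
    hzf hzg hdg hgA
  have hfs1 : (Function.support fun w : Place κ L => ramIdx K w.1 * B (below K w)).Finite := by
    refine (mason_sum_over (L := L) hL hB).1.subset ?_
    intro w hw
    rw [Function.mem_support] at hw ⊢
    exact_mod_cast hw
  have hfs3 : (Function.support fun w : Place κ L => ramIdx K w.1 * A (below K w)).Finite := by
    refine (mason_sum_over (L := L) hL hA).1.subset ?_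
    intro w hw
    rw [Function.mem_support] at hw ⊢
    exact_mod_cast hw
  have hfs2 : (Function.support fun w : Place κ L => ramIdx K w.1 - 1).Finite := by
    refine (mason_sum_ram (K := K) hL).1.subset ?_
    intro w hw
    rw [Function.mem_support] at hw ⊢
    exact_mod_cast hw
  have hmain := height_ineq (κ := κ) hL (D := D') hfs1 hfs2 hfs3
    (minor_over hK (s := Set.univ) (fun I _ => hPB I) hD')
    (lam := fun I => map (algebraMap K L) (lam I)) (fun I β w => by
      rw [coeff_map, below_pow]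
      have h1 := pow_le_pow_left' (hlam I β (below K w)) (ramIdx K w.1)
      refine h1.trans (le_of_eq ?_)
      rw [← exp_nsmul, nsmul_eq_mul]
      push_cast
      rfl) hx hφx hg' hφy hq c jj hc
  have hBs : (Function.support fun v : Place κ K => (B v : ℤ)).Finite := by
    refine hB.subset fun w hw h1 => hw ?_
    simp only at h1 ⊢
    rw [h1, Nat.cast_zero]
  have hAs : (Function.support fun v : Place κ K => (A v : ℤ)).Finite := by
    refine hA.subset fun w hw h1 => hw ?_
    simp only at h1 ⊢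
    rw [h1, Nat.cast_zero]
  have e1 : ∑ᶠ w : Place κ L, ((ramIdx K w.1 * B (below K w) : ℕ) : ℤ) =
      Module.finrank K L * ∑ᶠ v, (B v : ℤ) := by
    rw [← finsum_ramIdx_mul hL hBs]
    simp only [Nat.cast_mul]
  have e2 : ∑ᶠ w : Place κ L, ((ramIdx K w.1 * A (below K w) : ℕ) : ℤ) =
      Module.finrank K L * ∑ᶠ v, (A v : ℤ) := by
    rw [← finsum_ramIdx_mul hL hAs]
    simp only [Nat.cast_mul]
  rw [e1, e2, ← ramDeg_eq hL, ← mul_add] at hmain
  exact hmain

end Pool.Agent.Lib.MP_44a246_ntMS
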