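import Mathlib
import Pool.Agent.Lib.MP_e52354_ntSD.D00
import Pool.Agent.Lib.MP_e52354_ntSD.D06
import Pool.Agent.Lib.MP_e52354_ntMR.MR10
import Pool.Agent.Lib.MP_44a246_ntMS.MS03
import Pool.Agent.Lib.MP_44a246_ntMS.MS04

/-!
The height inequality for the points outside the common zeros of the forms `G`.
-/

namespace Pool.Agent.Lib.MP_44a246_ntMS

open Pool.Agent.Lib.MP_44a246_nt
open Pool.Agent.Lib.MP_44a246_ntL
open Pool.Agent.Lib.MP_44a246_ntX
open Pool.Agent.Lib.MP_e52354_ntMR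
open Pool.Agent.Lib.MP_44a246_ntK (wtP)
open Pool.Agent.Lib.MP_44a246_ntR (imI)
open Pool.Agent.Lib.MP_e52354_ntSD (GenK dim_le_of_few)
open WithZero MvPolynomial

universe u v w x

/-- a common bound for the poles of the coefficients -/
theorem exists_poly_bound {κ K : Type*} [Field κ] [IsAlgClosed κ] [CharZero κ] [Field K]
    [Algebra κ K] (hK : IsFF κ K) {ι τ : Type*} [Finite ι] (lam : ι → MvPolynomial τ K) :
    ∃ A : Place κ K → ℕ, (Function.support A).Finite ∧
      ∀ I α (v : Place κ K), v.1 (coeff α (lam I)) ≤ exp (A v : ℤ) := by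
  classical
  have := Fintype.ofFinite ι
  refine ⟨fun v => ∑ I, ∑ α ∈ (lam I).support, (log (v.1 (coeff α (lam I)))).toNat, ?_, ?_⟩
  · have h3 : (Function.support fun v : Place κ K => ∑ I, ∑ α ∈ (lam I).support,
        (log (v.1 (coeff α (lam I)))).toNat) ⊆ ⋃ I, ⋃ α ∈ (lam I).support,
          Function.support fun v : Place κ K => log (v.1 (coeff α (lam I))) := by
      intro v hv
      by_contra hcon
      apply hv
      refine Finset.sum_eq_zero fun I _ => Finset.sum_eq_zero fun α hα => ?_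
      have h4 : log (v.1 (coeff α (lam I))) = 0 := by
        by_contra h5
        exact hcon (Set.mem_iUnion.2 ⟨I, Set.mem_iUnion₂.2 ⟨α, hα, h5⟩⟩)
      rw [h4]
      rfl
    refine (Set.finite_iUnion fun I => ?_).subset h3
    refine (lam I).support.finite_toSet.biUnion fun α hα => ?_
    exact hK.place_support (mem_support_iff.1 hα)
  · intro I α v
    by_cases h0 : coeff α (lam I) = 0
    · rw [h0, map_zero]
      exact zero_le
    · rw [← log_le_iff_le_exp ((v.1.ne_zero_iff).mpr h0)]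
      have h4 : (log (v.1 (coeff α (lam I)))).toNat ≤
          ∑ α ∈ (lam I).support, (log (v.1 (coeff α (lam I)))).toNat :=
        Finset.single_le_sum (f := fun α => (log (v.1 (coeff α (lam I)))).toNat)
          (fun _ _ => Nat.zero_le _) (mem_support_iff.2 h0)
      have h5 : ∑ α ∈ (lam I).support, (log (v.1 (coeff α (lam I)))).toNat ≤
          ∑ I, ∑ α ∈ (lam I).support, (log (v.1 (coeff α (lam I)))).toNat :=
        Finset.single_le_sum (f := fun I => ∑ α ∈ (lam I).support,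
          (log (v.1 (coeff α (lam I)))).toNat) (fun _ _ => Nat.zero_le _) (Finset.mem_univ I)
      have h6 := Int.self_le_toNat (log (v.1 (coeff α (lam I))))
      refine h6.trans ?_
      exact_mod_cast h4.trans h5

/-- normalisation of a point, and the order of vanishing -/
theorem normalise_point {k₀ K L : Type*} [Field k₀] [Field K] [Field L] [CharZero L]
    [Algebra k₀ L] [Algebra K L] {N p s a t : ℕ} {d : Fin p → ℕ} {e : Fin s → ℕ} {j₁ : Fin p}
    {f : Fin s → MvPolynomial (Fin p ⊕ Fin (N + 1)) k₀}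
    (hf : ∀ i, (f i).IsWeightedHomogeneous (Sum.elim d fun _ => 1) (e i))
    {H : Fin p → MvPolynomial (Fin (N + 1)) K} (hH : ∀ j, (H j).IsHomogeneous (d j))
    {G : Fin t → MvPolynomial (Fin (N + 1)) K} (hG : ∀ l, (G l).IsHomogeneous a)
    {v : Fin (N + 1) → L} (hv : v ≠ 0)
    (hvf : ∀ i, aeval (Sum.elim (fun j => aeval v (H j)) v : Fin p ⊕ Fin (N + 1) → L)
      (f i) = 0) {i : Fin s} {τ : L}
    (hτ : aeval (Sum.elim (Function.update (fun j => aeval v (H j)) j₁ τ) v :
      Fin p ⊕ Fin (N + 1) → L) (f i) ≠ 0) {l : Fin t} (hl : aeval v (G l) ≠ 0) :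
    ∃ (c : L) (j₀ : Fin (N + 1)) (b : ℕ) (x : Fin (N + 1) → L), c ≠ 0 ∧
      (x = fun j => c * v j) ∧ x j₀ = 1 ∧
      (∀ i', aeval (Sum.elim (fun j => aeval x (H j)) x : Fin p ⊕ Fin (N + 1) → L)
        (f i') = 0) ∧
      aeval (Sum.elim (fun j => aeval x (H j)) x : Fin p ⊕ Fin (N + 1) → L)
        ((fun g => pderiv (Sum.inl j₁) g)^[b] (f i)) = 0 ∧
      aeval (Sum.elim (fun j => aeval x (H j)) x : Fin p ⊕ Fin (N + 1) → L)
        (pderiv (Sum.inl j₁) ((fun g => pderiv (Sum.inl j₁) g)^[b] (f i))) ≠ 0 ∧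
      aeval x (G l) ≠ 0 := by
  classical
  obtain ⟨j₀, hj₀⟩ : ∃ j₀, v j₀ ≠ 0 := by
    by_contra hcon
    push Not at hcon
    exact hv (funext hcon)
  obtain ⟨c, hc⟩ : ∃ c, c = (v j₀)⁻¹ := ⟨_, rfl⟩
  have hc0 : c ≠ 0 := by rw [hc]; exact inv_ne_zero hj₀
  obtain ⟨x, hx⟩ : ∃ x : Fin (N + 1) → L, x = fun i => c * v i := ⟨_, rfl⟩
  have hhom : ∀ {Q : MvPolynomial (Fin (N + 1)) K} {E : ℕ}, Q.IsHomogeneous E →
      aeval x Q = c ^ E * aeval v Q := by
    intro Q E hQ
    have h1 := aeval_smul_weighted (k₀ := K) (k := L) (w := 1) (n := E) hQ c v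
    simp only [Pi.one_apply, pow_one] at h1
    rw [hx]
    exact h1
  have hHx : ∀ j, aeval x (H j) = c ^ d j * aeval v (H j) := fun j => hhom (hH j)
  have hfx : ∀ (i : Fin s) (h : Fin p → L),
      aeval (Sum.elim (fun j => c ^ d j * h j) x : Fin p ⊕ Fin (N + 1) → L) (f i) =
        c ^ e i * aeval (Sum.elim h v : Fin p ⊕ Fin (N + 1) → L) (f i) := by
    intro i h
    rw [← aeval_smul_weighted (hf i) c (Sum.elim h v)]
    congr 2
    funext j
    rcases j with j | j
    · rfl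
    · show x j = c ^ 1 * v j
      rw [hx, pow_one]
  have hHx' : (fun j => aeval x (H j)) = fun j => c ^ d j * aeval v (H j) := funext hHx
  have hxj : x j₀ = 1 := by
    rw [hx, hc]
    exact inv_mul_cancel₀ hj₀
  have hz : ∀ i', aeval (Sum.elim (fun j => aeval x (H j)) x : Fin p ⊕ Fin (N + 1) → L)
      (f i') = 0 := by
    intro i'
    rw [hHx', hfx, hvf, mul_zero]
  have hup : aeval (Function.update (Sum.elim (fun j => aeval x (H j)) x :
      Fin p ⊕ Fin (N + 1) → L) (Sum.inl j₁) (c ^ d j₁ * τ)) (f i) ≠ 0 := by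
    have h1 : Function.update (Sum.elim (fun j => aeval x (H j)) x :
        Fin p ⊕ Fin (N + 1) → L) (Sum.inl j₁) (c ^ d j₁ * τ) =
        Sum.elim (fun j => c ^ d j * Function.update (fun j => aeval v (H j)) j₁ τ j) x := by
      funext j
      rcases j with j | j
      · by_cases hj : j = j₁
        · subst hj
          rw [Function.update_self, Sum.elim_inl, Function.update_self]
        · rw [Function.update_of_ne (by simpa using hj), Sum.elim_inl, Sum.elim_inl,
            Function.update_of_ne hj, hHx]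
      · rw [Function.update_of_ne (by simp)]
        rfl
    rw [h1, hfx]
    exact mul_ne_zero (pow_ne_zero _ hc0) hτ
  obtain ⟨b, -, hb1, hb2⟩ := exists_deriv (f i) (Sum.inl j₁) _ (hz i) hup
  rw [Function.iterate_succ_apply'] at hb2
  refine ⟨c, j₀, b, x, hc0, hx, hxj, hz, hb1, hb2, ?_⟩
  rw [hhom (hG l)]
  exact mul_ne_zero (pow_ne_zero _ hc0) hl

/-- the theorem for a field of definition of finite transcendence degree -/
theorem many_relations_core {κ : Type u} {K : Type v} [Field κ] [IsAlgClosed κ] [CharZero κ]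
    [Field K] [CharZero K] [Algebra κ K] (hK : IsFF κ K) {k₀ : Type x} [Field k₀] [CharZero k₀]
    [Algebra k₀ K] (htk : Algebra.trdeg ℚ k₀ < Cardinal.aleph0) {N n p a c m J s : ℕ}
    {d : Fin p → ℕ} {e : Fin s → ℕ} {j₁ : Fin p} (hJ : d j₁ = J + a)
    (hc : c < (m + a).choose m) (f : Fin s → MvPolynomial (Fin p ⊕ Fin (N + 1)) k₀)
    (hf : ∀ i, (f i).IsWeightedHomogeneous (Sum.elim d fun _ => 1) (e i))
    (hdim : ringKrullDim (MvPolynomial (Fin (N + 1)) k₀ ⧸ imI f) ≤ ((n + 1 : ℕ) : ℕ))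
    (H : Fin p → MvPolynomial (Fin (N + 1)) K) (hH : ∀ j, (H j).IsHomogeneous (d j))
    (hgen : GenK k₀ d H c) :
    ∃ (t : ℕ) (G : Fin t → MvPolynomial (Fin (N + 1)) K), (∀ i, (G i).IsHomogeneous a) ∧
      ringKrullDim (MvPolynomial (Fin (N + 1)) K ⧸ Ideal.span (Set.range G)) ≤
        (m : WithBot ℕ∞) ∧
      ∃ B : ℕ, ∀ (L : Type w) [Field L] [Algebra K L] [FiniteDimensional K L] [Algebra κ L]
        [IsScalarTower κ K L] [Algebra k₀ L] [IsScalarTower k₀ K L] (x : Fin (N + 1) → L), x ≠ 0 →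
        (∀ i, aeval (Sum.elim (fun j => aeval x (H j)) x : Fin p ⊕ Fin (N + 1) → L)
          (f i) = 0) →
        (∃ (i : Fin s) (τ : L), aeval (Sum.elim (Function.update (fun j => aeval x (H j)) j₁ τ) x :
          Fin p ⊕ Fin (N + 1) → L) (f i) ≠ 0) →
        (∃ l, aeval x (G l) ≠ 0) →
        ((J : ℤ) - 2 * n) * height κ x ≤ ramDeg κ L K + B * Module.finrank K L := by
  classical
  by_cases hm : N + 1 ≤ m
  · refine ⟨0, Fin.elim0, fun i => i.elim0, ?_, 0, ?_⟩
    · refine dim_le_of_few fun σ => ?_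
      obtain ⟨i, j, hij, hσ⟩ := Fintype.exists_ne_map_eq_of_card_lt σ (by
        rw [Fintype.card_fin, Fintype.card_fin]
        omega)
      refine ⟨X i - X j, ?_, ?_⟩
      · rw [sub_ne_zero]
        exact fun h => hij (X_injective h)
      · rw [map_sub, rename_X, rename_X, hσ, sub_self]
        exact Ideal.zero_mem _
    · rintro L _ _ _ _ _ _ _ x - - - ⟨l, -⟩
      exact l.elim0
  -- the field of the coefficients
  have hE : Finite {I : Fin p × (Fin (N + 1) →₀ ℕ) // I.2.degree = d I.1} := finite_idx d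
  obtain ⟨z, hz⟩ : ∃ z : {I : Fin p × (Fin (N + 1) →₀ ℕ) // I.2.degree = d I.1} → K,
    z = fun I => (H I.1.1).coeff I.1.2 := ⟨_, rfl⟩
  obtain ⟨F, hF⟩ : ∃ F : IntermediateField k₀ K, F = IntermediateField.adjoin k₀ (Set.range z) :=
    ⟨_, rfl⟩
  unfold GenK at hgen
  rw [← hz, ← hF] at hgen
  obtain ⟨zF, hzF⟩ : ∃ zF : {I : Fin p × (Fin (N + 1) →₀ ℕ) // I.2.degree = d I.1} → F,
      ∀ I, (zF I : K) = z I := ⟨fun I => ⟨z I, by
        rw [hF]
        exact IntermediateField.subset_adjoin k₀ _ ⟨I, rfl⟩⟩, fun _ => rfl⟩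
  obtain ⟨T, hTc, hind, -⟩ := exists_trbasis zF (adjoin_range_top z hF zF hzF) hgen
  have hindK : AlgebraicIndependent k₀ (fun I : T => z I) := by
    have h1 := hind.map' (f := F.val) F.val.injective
    have h2 : (F.val ∘ fun I : T => zF I) = fun I : T => z I := funext fun I => hzF I
    rw [h2] at h1
    exact h1
  obtain ⟨DK, B, hB, hPB, hD, hDk⟩ := exists_ders hK htk hindK
  have hex := fun σ : Fin (m + 1) → Fin (N + 1) =>
    exists_relation (R := K) hJ hc σ T hTc (fun I I' => DK I (z I')) hD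
  choose g hg0 hgh hgr using hex
  have hα := fun σ : Fin (m + 1) → Fin (N + 1) => exists_coA_ne (hg0 σ)
  choose α hα using hα
  have hlinh : ∀ σ : Fin (m + 1) → Fin (N + 1),
      (lin K (N + 1) ^ J * rename σ (g σ)).IsHomogeneous (J + a) := by
    intro σ
    have h1 := ((lin_isHomogeneous (K := K) (N + 1)).pow J).mul
      ((hgh σ).rename_isHomogeneous (f := σ))
    rw [one_mul] at h1
    exact h1
  obtain ⟨lam, hlam⟩ : ∃ lam : (Fin (m + 1) → Fin (N + 1)) → T → MvPolynomial (Fin (N + 1)) K,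
    lam = fun σ I => if I.1.1.1 = j₁ then
      coeff I.1.1.2 (lin K (N + 1) ^ J * rename σ (g σ)) else 0 := ⟨_, rfl⟩
  have hrel : ∀ (σ : Fin (m + 1) → Fin (N + 1)) (j : Fin p) (m' : Fin (N + 1) →₀ ℕ),
      ∑ I : T, lam σ I * C (DK I (coeff m' (H j))) =
      if j = j₁ then coeff m' (lin K (N + 1) ^ J * rename σ (g σ)) else 0 := by
    intro σ j m'
    rw [hlam]
    by_cases h : m'.degree = d j
    · have h1 := hgr σ ⟨(j, m'), h⟩
      rw [hz] at h1
      exact h1
    · rw [(hH j).coeff_eq_zero h]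
      simp only [map_zero, mul_zero, Finset.sum_const_zero]
      split_ifs with hj
      · rw [(hlinh σ).coeff_eq_zero]
        rw [← hJ, ← hj]
        exact h
      · rfl
  choose A hA hAb using fun σ => exists_poly_bound hK (lam σ)
  -- the forms `G`
  let eq := Fintype.equivFin (Fin (m + 1) → Fin (N + 1))
  obtain ⟨G, hG⟩ : ∃ G : Fin (Fintype.card (Fin (m + 1) → Fin (N + 1))) →
      MvPolynomial (Fin (N + 1)) K,
      G = fun i => coA (α (eq.symm i)) (rename (eq.symm i) (g (eq.symm i))) := ⟨_, rfl⟩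
  have hGh : ∀ i, (G i).IsHomogeneous a := by
    intro i
    rw [hG]
    exact coA_isHomogeneous _ (hgh _).rename_isHomogeneous
  obtain ⟨W, hW⟩ : ∃ W : (Fin (m + 1) → Fin (N + 1)) → ℤ,
    W = fun σ => n * (∑ᶠ v, (B v : ℤ) + ∑ᶠ v, (A σ v : ℤ)) := ⟨_, rfl⟩
  refine ⟨_, G, hGh, ?_, ∑ σ, (W σ).toNat, ?_⟩
  · refine dim_le_of_few fun σ => ⟨coA (α σ) (g σ), hα σ, ?_⟩
    refine Ideal.subset_span ⟨eq σ, ?_⟩
    rw [hG]
    simp only [Equiv.symm_apply_apply]
    rw [coA_rename]
  · intro L _ _ _ _ _ _ _ v hv hvf ⟨i, τ, hτ⟩ ⟨l, hl⟩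
    have hLc : CharZero L := charZero_of_injective_algebraMap (algebraMap K L).injective
    have hL : IsFF κ L := hK.of_finite
    obtain ⟨c', j₀, b, x, hc0, hx, hx1, hxf, hxg, hxd, hxG⟩ :=
      normalise_point (j₁ := j₁) hf hH hGh hv hvf hτ hl
    obtain ⟨e', he'⟩ := exists_wh_iterate (w := wtP (N + 1) d) (Sum.inl j₁) b (hf i)
    have hmain := height_over (κ := κ) (L := L) hK hB (hA (eq.symm l)) hPB hDk hf hdim hH
      (hAb (eq.symm l)) (hrel (eq.symm l)) he' hx1 hxf hxg hxd (α := α (eq.symm l)) (by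
        rw [hG] at hxG
        exact hxG)
    have h1 : height κ x = height κ v := by
      rw [hx]
      exact hL.height_smul hc0
    rw [h1] at hmain
    refine hmain.trans ?_
    have h2 : W (eq.symm l) ≤ ((∑ σ, (W σ).toNat : ℕ) : ℤ) := by
      refine (Int.self_le_toNat _).trans ?_
      exact_mod_cast Finset.single_le_sum (f := fun σ => (W σ).toNat)
        (fun _ _ => Nat.zero_le _) (Finset.mem_univ (eq.symm l))
    have h3 : (n : ℤ) * (Module.finrank K L * (∑ᶠ v, (B v : ℤ) +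
        ∑ᶠ v, (A (eq.symm l) v : ℤ))) = W (eq.symm l) * Module.finrank K L := by
      rw [hW]
      ring
    rw [h3]
    have h4 := mul_le_mul_of_nonneg_right h2 (Int.natCast_nonneg (Module.finrank K L))
    linarith

end Pool.Agent.Lib.MP_44a246_ntMS
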