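import Mathlib
import Pool.Agent.Lib.MP_44a246_ntTV.TV49
import Pool.Agent.Lib.MP_44a246_ntD.D11
import Pool.Agent.Lib.MP_44a246_ntMS.MS05

/-!
The height inequality for all fields of definition, and the points of bounded degree.
-/

namespace Pool.Agent.Lib.MP_44a246_ntMS

open Pool.Agent.Lib.MP_44a246_nt
open Pool.Agent.Lib.MP_44a246_ntL
open Pool.Agent.Lib.MP_44a246_ntTV
open Pool.Agent.Lib.MP_e52354_ntMR
open Pool.Agent.Lib.MP_44a246_ntR (imI)
open Pool.Agent.Lib.MP_44a246_ntD (trdeg_adjoin_lt)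
open Pool.Agent.Lib.MP_e52354_ntSD (GenK)
open WithZero MvPolynomial

universe u v w x

/-- finitely many polynomials are defined over a field of finite transcendence degree -/
theorem exists_base_fld {k : Type x} [Field k] [CharZero k] {σ ι : Type*} [Finite ι]
    (f : ι → MvPolynomial σ k) :
    ∃ (k₀ : Type x) (_ : Field k₀) (_ : CharZero k₀) (_ : Algebra k₀ k),
      Algebra.trdeg ℚ k₀ < Cardinal.aleph0 ∧
      ∃ f₀ : ι → MvPolynomial σ k₀, ∀ i, map (algebraMap k₀ k) (f₀ i) = f i := by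
  classical
  obtain ⟨g, hg⟩ : ∃ g : (Σ i, {m // m ∈ (f i).support}) → k, ∀ s, g s = (f s.1).coeff s.2.1 :=
    ⟨_, fun _ => rfl⟩
  have h0 : Algebra.trdeg ℚ ℚ < Cardinal.aleph0 := by
    rw [trdeg_eq_zero]
    exact Cardinal.aleph0_pos
  have h1 := trdeg_adjoin_lt (F := ℚ) (K := k) h0 g
  obtain ⟨F, hF⟩ : ∃ F : IntermediateField ℚ k, F = IntermediateField.adjoin ℚ (Set.range g) :=
    ⟨_, rfl⟩
  rw [← hF] at h1
  have hmem : ∀ i m, (f i).coeff m ∈ F := by
    intro i m
    by_cases hm : m ∈ (f i).support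
    · rw [hF, ← hg ⟨i, m, hm⟩]
      exact IntermediateField.subset_adjoin _ _ ⟨_, rfl⟩
    · rw [notMem_support_iff.1 hm]
      exact F.zero_mem
  refine ⟨F, inferInstance, inferInstance, inferInstance, ?_, fun i =>
    ∑ m ∈ (f i).support, monomial m ⟨(f i).coeff m, hmem i m⟩, fun i => ?_⟩
  · convert h1
  · rw [map_sum]
    conv_rhs => rw [(f i).as_sum]
    exact Finset.sum_congr rfl fun m _ => by rw [map_monomial]; rfl

/-- **The height inequality.** -/
theorem many_relations {κ : Type u} {K : Type v} [Field κ] [IsAlgClosed κ] [CharZero κ]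
    [Field K] [CharZero K] [Algebra κ K] (hK : IsFF κ K) {k : Type x} [Field k] [CharZero k]
    [Algebra k K] {N n p a c m J s : ℕ} {d : Fin p → ℕ} {e : Fin s → ℕ} {j₁ : Fin p}
    (hJ : d j₁ = J + a) (hc : c < (m + a).choose m)
    (f : Fin s → MvPolynomial (Fin p ⊕ Fin (N + 1)) k)
    (hf : ∀ i, (f i).IsWeightedHomogeneous (Sum.elim d fun _ => 1) (e i))
    (hdim : ringKrullDim (MvPolynomial (Fin (N + 1)) k ⧸ (Ideal.span (Set.range f)).comap
      (rename (Sum.inr : Fin (N + 1) → Fin p ⊕ Fin (N + 1)))) ≤ ((n + 1 : ℕ) : WithBot ℕ∞))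
    (H : Fin p → MvPolynomial (Fin (N + 1)) K) (hH : ∀ j, (H j).IsHomogeneous (d j))
    (hgen : GenK k d H c) :
    ∃ (t : ℕ) (G : Fin t → MvPolynomial (Fin (N + 1)) K), (∀ i, (G i).IsHomogeneous a) ∧
      ringKrullDim (MvPolynomial (Fin (N + 1)) K ⧸ Ideal.span (Set.range G)) ≤
        (m : WithBot ℕ∞) ∧
      ∃ B : ℕ, ∀ (L : Type w) [Field L] [Algebra K L] [FiniteDimensional K L] [Algebra κ L]
        [IsScalarTower κ K L] [Algebra k L] [IsScalarTower k K L] (x : Fin (N + 1) → L), x ≠ 0 →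
        (∀ i, aeval (Sum.elim (fun j => aeval x (H j)) x : Fin p ⊕ Fin (N + 1) → L)
          (f i) = 0) →
        (∃ (i : Fin s) (τ : L), aeval (Sum.elim (Function.update (fun j => aeval x (H j)) j₁ τ) x :
          Fin p ⊕ Fin (N + 1) → L) (f i) ≠ 0) →
        (∃ l, aeval x (G l) ≠ 0) →
        ((J : ℤ) - 2 * n) * height κ x ≤ ramDeg κ L K + B * Module.finrank K L := by
  obtain ⟨k₀, _, _, _, htk, f₀, hf₀⟩ := exists_base_fld f
  let _ : Algebra k₀ K := ((algebraMap k K).comp (algebraMap k₀ k)).toAlgebra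
  have s0 : IsScalarTower k₀ k K := IsScalarTower.of_algebraMap_eq fun _ => rfl
  obtain rfl : (fun i => map (algebraMap k₀ k) (f₀ i)) = f := funext hf₀
  have hf' : ∀ i, (f₀ i).IsWeightedHomogeneous (Sum.elim d fun _ => 1) (e i) := by
    intro i m hm
    refine hf i ?_
    rw [coeff_map]
    exact fun h0 => hm ((map_eq_zero _).1 h0)
  have hdim' := (imDim_le (k₀ := k₀) (k := k)
    (e := (Sum.inr : Fin (N + 1) → Fin p ⊕ Fin (N + 1))) Sum.inr_injective f₀).trans hdim
  have hfin : Finite {I : Fin p × (Fin (N + 1) →₀ ℕ) // I.2.degree = d I.1} := finite_idx d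
  have hgen' : GenK k₀ d H c := by
    unfold GenK at hgen ⊢
    refine hgen.trans ?_
    gcongr
    exact trdeg_adjoin_le (k₀ := k₀) (k := k) _
  obtain ⟨t, G, hG, hGd, B, hB⟩ := many_relations_core.{u, v, w, x} hK htk hJ hc f₀ hf' hdim' H hH
    hgen'
  refine ⟨t, G, hG, hGd, B, ?_⟩
  intro L _ _ _ _ _ _ _ x hx hxf hxt hxG
  let _ : Algebra k₀ L := ((algebraMap k L).comp (algebraMap k₀ k)).toAlgebra
  have s1 : IsScalarTower k₀ k L := IsScalarTower.of_algebraMap_eq fun _ => rfl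
  have s2 : IsScalarTower k₀ K L := IsScalarTower.of_algebraMap_eq fun c => by
    rw [IsScalarTower.algebraMap_apply k₀ k L, IsScalarTower.algebraMap_apply k K L,
      IsScalarTower.algebraMap_apply k₀ k K]
  refine hB L x hx (fun i => ?_) ?_ hxG
  · rw [← hxf i, aeval_map_algebraMap]
  · obtain ⟨i, τ, hi⟩ := hxt
    refine ⟨i, τ, fun h0 => hi ?_⟩
    rw [aeval_map_algebraMap]
    exact h0

/-- the ramification of the field of a point -/
theorem ramDeg_point {κ K L : Type*} [Field κ] [IsAlgClosed κ] [CharZero κ] [Field K]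
    [Algebra κ K] (hK : IsFF κ K) [Field L] [Algebra K L] [FiniteDimensional K L]
    [Algebra κ L] [IsScalarTower κ K L] {n : ℕ} (x : Fin (n + 1) → L) (hx : x ≠ 0)
    (hgen : pointField K x = ⊤) :
    (ramDeg κ L K : ℤ) ≤ 2 * ((Module.finrank K L : ℤ) - 1) * height κ x := by
  refine hK.ind ?_
  intro _ _ _ _ _ _ _ _ _
  exact (ram_point (K := K) x hx hgen).1

end Pool.Agent.Lib.MP_44a246_ntMS
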