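import Mathlib
import Pool.Agent.Lib.MP_44a246_ntMS.MS01

/-!
The height inequality over a function field of one variable, for points with weighted coordinates.
-/

namespace Pool.Agent.Lib.MP_44a246_ntMS

open Pool.Agent.Lib.MP_44a246_nt
open Pool.Agent.Lib.MP_44a246_ntL
open Pool.Agent.Lib.MP_44a246_ntX
open Pool.Agent.Lib.MP_e52354_ntMR
open WithZero MvPolynomial

section Alg

variable {M : Type*} [Field M] {s : ℕ}

/-- scaling of the columns -/
theorem det_rowsW {w : ℕ} {t : M} {wt : Fin s → ℕ} {E Eh : Fin s → M}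
    (hE : ∀ i, E i = t ^ wt i * Eh i) {y yh : Fin s → MvPolynomial (Fin s) M}
    {z : MvPolynomial (Fin s) M} (hy : ∀ i, y i = C (t ^ wt i) * (yh i + C (Eh i) * z))
    (α : Fin w → List (Fin s)) (col : Fin 1 ⊕ Fin w → Fin s) :
    (Matrix.of fun a b => rowsL E y α a (col b)).det =
      C (t ^ ∑ b, wt (col b)) * (Matrix.of fun a b => rowsL Eh yh α a (col b)).det := by
  classical
  obtain ⟨A, hA⟩ : ∃ A : Fin 1 ⊕ Fin w → Fin 1 ⊕ Fin w → MvPolynomial (Fin s) M,
      A = fun a b => rowsL Eh (fun i => yh i + C (Eh i) * z) α a (col b) := ⟨_, rfl⟩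
  have h1 : (Matrix.of fun a b => rowsL E y α a (col b)) =
      Matrix.of fun a b => C (t ^ wt (col b)) * (Matrix.of A) a b := by
    ext1 a b
    rcases a with a | q
    · show C (E (col b)) = C (t ^ wt (col b)) * A (Sum.inl a) b
      rw [hA, hE, C_mul]
      rfl
    · show dL (α q) (y (col b)) = C (t ^ wt (col b)) * A (Sum.inr q) b
      rw [hA, hy, dL_C_mul]
      rfl
  have h2 : (Matrix.of A).det = (Matrix.of fun a b => rowsL Eh yh α a (col b)).det := by
    refine Matrix.det_eq_of_forall_row_eq_smul_add_const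
      (Sum.elim (fun _ => 0) fun q => dL (α q) z) (Sum.inl 0) rfl ?_
    intro a b
    rcases a with a | q
    · show A (Sum.inl a) b = C (Eh (col b)) + 0 * _
      rw [zero_mul, add_zero, hA]
      rfl
    · show A (Sum.inr q) b = dL (α q) (yh (col b)) + dL (α q) z * C (Eh (col b))
      rw [hA]
      show dL (α q) (yh (col b) + C (Eh (col b)) * z) = _
      rw [dL_add, dL_C_mul]
      ring
  rw [h1, Matrix.det_mul_row, h2]
  congr 1
  rw [← map_prod, Finset.prod_pow_eq_pow_sum]

/-- the sum of the weights of different columns -/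
theorem sum_wt_le {wt : Fin s → ℕ} (hwt : ∀ i, 1 ≤ wt i) {w : ℕ} {col : Fin 1 ⊕ Fin w → Fin s}
    (hcol : Function.Injective col) :
    ∑ b, wt (col b) ≤ w + 1 + ∑ i, (wt i - 1) := by
  classical
  have h1 : ∑ b, wt (col b) = ∑ b : Fin 1 ⊕ Fin w, (1 + (wt (col b) - 1)) :=
    Finset.sum_congr rfl fun b _ => by have := hwt (col b); omega
  have h2 : ∑ b, (wt (col b) - 1) = ∑ i ∈ Finset.univ.image col, (wt i - 1) := by
    rw [Finset.sum_image fun a _ b _ h => hcol h]
  have h3 : ∑ i ∈ Finset.univ.image col, (wt i - 1) ≤ ∑ i, (wt i - 1) :=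
    Finset.sum_le_sum_of_subset (Finset.subset_univ _)
  rw [h1, Finset.sum_add_distrib, Finset.sum_const, Finset.card_univ, Fintype.card_sum,
    Fintype.card_fin, Fintype.card_fin, smul_eq_mul, mul_one, h2]
  omega

/-- the columns of a non-zero minor are different -/
theorem col_injective {R : Type*} [CommRing R] {n : Type*} [Fintype n] [DecidableEq n]
    {τ : Type*} {f : n → τ → R} {col : n → τ}
    (h : (Matrix.of fun a b => f a (col b)).det ≠ 0) : Function.Injective col := by
  intro a b hab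
  by_contra hne
  apply h
  refine Matrix.det_zero_of_column_eq hne fun i => ?_
  show f i (col a) = f i (col b)
  rw [hab]

end Alg

section Place

variable {κ L : Type*} [Field κ] [Field L] [Algebra κ L]

/-- the minors of the derivations, bordered by a row of integral elements -/
theorem border_boundE {ι : Type*} {D : ι → Derivation ℤ L L} {δ ρ : Place κ L → ℕ}
    (hD : MinorBound κ D Set.univ δ ρ) (w : Place κ L) {m : ℕ} (K : Fin m → ι)
    (e c : Fin 1 ⊕ Fin m → L) (he : ∀ b, w.1 (e b) ≤ 1) (hc : ∀ b, w.1 (c b) ≤ 1) :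
    w.1 (Matrix.of (Sum.elim (fun _ : Fin 1 => e) (fun q b => D (K q) (c b)))).det ≤
      exp ((m * δ w + ρ w : ℕ) : ℤ) := by
  classical
  obtain ⟨ε, hε0, hε1⟩ : ∃ ε : Fin (m + 1) ≃ Fin 1 ⊕ Fin m, ε 0 = Sum.inl 0 ∧
      ∀ i : Fin m, ε i.succ = Sum.inr i := by
    have hinj : Function.Injective (Fin.cons (Sum.inl 0) Sum.inr : Fin (m + 1) → Fin 1 ⊕ Fin m) := by
      intro i j hij
      induction i using Fin.cases with
      | zero =>
        induction j using Fin.cases with
        | zero => rfl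
        | succ j => simp at hij
      | succ i =>
        induction j using Fin.cases with
        | zero => simp at hij
        | succ j =>
          simp only [Fin.cons_succ, Sum.inr.injEq] at hij
          rw [hij]
    have hbij : Function.Bijective
        (Fin.cons (Sum.inl 0) Sum.inr : Fin (m + 1) → Fin 1 ⊕ Fin m) := by
      refine (Fintype.bijective_iff_injective_and_card _).2 ⟨hinj, ?_⟩
      rw [Fintype.card_sum, Fintype.card_fin, Fintype.card_fin, Fintype.card_fin]
      omega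
    exact ⟨Equiv.ofBijective _ hbij, rfl, fun i => rfl⟩
  rw [← Matrix.det_submatrix_equiv_self ε, Matrix.det_succ_row_zero]
  refine Valuation.map_sum_le _ fun j _ => ?_
  rw [map_mul, map_mul, map_pow, Valuation.map_neg, map_one, one_pow, one_mul]
  have h1 : w.1 ((Matrix.of (Sum.elim (fun _ : Fin 1 => e)
      (fun q b => D (K q) (c b)))).submatrix ε ε 0 j) ≤ 1 := by
    rw [Matrix.submatrix_apply, hε0]
    exact he _
  have h2 := hD w m K (fun i' => c (ε (j.succAbove i'))) (fun _ => Set.mem_univ _)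
    (fun _ => hc _)
  have h3 : ((Matrix.of (Sum.elim (fun _ : Fin 1 => e)
      (fun q b => D (K q) (c b)))).submatrix ε ε).submatrix Fin.succ j.succAbove =
      Matrix.of fun i j' => D (K i) (c (ε (j.succAbove j'))) := by
    ext i i'
    rw [Matrix.submatrix_apply, Matrix.submatrix_apply, hε1]
    rfl
  rw [h3]
  calc _ ≤ 1 * exp ((m * δ w + ρ w : ℕ) : ℤ) := mul_le_mul' h1 h2
    _ = _ := one_mul _

/-- **The height inequality with weights.** The coordinates `x i` have the weights `wt i`, and `z`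
is the vector of some coordinates of weight `1`, which bound the other coordinates. -/
theorem height_ineqW [IsAlgClosed κ] [CharZero κ] [CharZero L] (h : IsFF κ L) {ι : Type*}
    [Fintype ι] {D : ι → Derivation ℤ L L} {δ ρ σ θ : Place κ L → ℕ}
    (hδ : (Function.support δ).Finite) (hρ : (Function.support ρ).Finite)
    (hσ : (Function.support σ).Finite) (hθ : (Function.support θ).Finite)
    (hD : MinorBound κ D Set.univ δ ρ) {s : ℕ}
    {lam : ι → MvPolynomial (Fin s) L}
    (hlam : ∀ I α (w : Place κ L), w.1 (coeff α (lam I)) ≤ exp (σ w : ℤ))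
    {wt : Fin s → ℕ} (hwt : ∀ i, 1 ≤ wt i)
    {x z : Fin s → L} {j₀ : Fin s} (hx : x j₀ = 1) (hz : z j₀ = 1)
    (hxz : ∀ i (w : Place κ L), w.1 (x i) ≤ (vmax w.1 z * exp (θ w : ℤ)) ^ wt i)
    {φ : Fin s → L} (hφx : ∑ i, φ i * ((wt i : L) * x i) = 0)
    {g : MvPolynomial (Fin s) L} (hg : g ≠ 0) {J r : ℕ}
    (hφ : ∑ i, C (φ i) * (∑ I, lam I * C (D I (x i))) = (∑ l, C (z l) * X l) ^ J * g)
    {q : ℕ} (hq : q ≤ r) (c : Fin s → Fin q → L) (jj : Fin q → Fin s)
    (hc : ∀ I i, D I (x i) = ∑ t, c i t * D I (x (jj t))) :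
    ((J : ℤ) - 2 * r - ∑ i, ((wt i - 1 : ℕ) : ℤ)) * height κ z ≤
      ∑ᶠ w, (ρ w : ℤ) + r * (∑ᶠ w, (δ w : ℤ) + ∑ᶠ w, (σ w : ℤ)) +
        (r + 1 + ∑ i, ((wt i - 1 : ℕ) : ℤ)) * ∑ᶠ w, (θ w : ℤ) := by
  classical
  obtain ⟨y, hydef⟩ : ∃ y : Fin s → MvPolynomial (Fin s) L,
    y = fun i => ∑ I, lam I * C (D I (x i)) := ⟨_, rfl⟩
  obtain ⟨E, hE⟩ : ∃ E : Fin s → L, E = fun i => (wt i : L) * x i := ⟨_, rfl⟩
  have hE0 : E ≠ 0 := by
    intro h0
    have h1 : E j₀ = 0 := congrFun h0 j₀
    rw [hE] at h1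
    simp only [hx, mul_one, Nat.cast_eq_zero] at h1
    have := hwt j₀
    omega
  have hz0 : z ≠ 0 := by
    intro h0
    rw [h0] at hz
    exact zero_ne_one hz
  have hℓ : (∑ l, C (z l) * X l : MvPolynomial (Fin s) L) ≠ 0 := by
    intro h0
    have h1 := congrArg (coeff (Finsupp.single j₀ 1)) h0
    rw [coeff_sum, Finset.sum_eq_single j₀, coeff_C_mul, coeff_X, if_pos rfl, mul_one, hz,
      coeff_zero] at h1
    · exact one_ne_zero h1
    · intro l _ hl
      rw [coeff_C_mul, coeff_X, if_neg, mul_zero]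
      intro h2
      exact hl (Finsupp.single_left_injective one_ne_zero h2)
    · intro h2
      exact absurd (Finset.mem_univ _) h2
  have hφE : ∑ i, φ i * E i = 0 := by
    rw [hE]
    exact hφx
  have hφ' : ∑ i, C (φ i) * y i = (∑ l, C (z l) * X l) ^ J * g := by
    rw [hydef]
    exact hφ
  have hy' : ∀ i, y i = ∑ t : Fin q, (∑ I, lam I * C (D I (x (jj t)))) * C (c i t) := by
    intro i
    rw [hydef]
    simp only [Finset.sum_mul]
    rw [Finset.sum_comm]
    refine Finset.sum_congr rfl fun I _ => ?_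
    rw [hc I i, map_sum, Finset.mul_sum]
    refine Finset.sum_congr rfl fun t _ => ?_
    rw [C_mul]
    ring
  obtain ⟨w₀, m, α, col, hm, hw, hdet, hdvd⟩ :=
    exists_minor_dvd hE0 hφE hℓ hg hφ' hq (fun t i => c i t) _ hy'
  have hcol : Function.Injective col := col_injective hdet
  obtain ⟨W, hW⟩ : ∃ W : ℕ, W = ∑ b, wt (col b) := ⟨_, rfl⟩
  have hWle : W ≤ w₀ + 1 + ∑ i, (wt i - 1) := by
    rw [hW]
    exact sum_wt_le hwt hcol
  obtain ⟨P, hP⟩ := hdvd
  have hP0 : P ≠ 0 := by
    intro h0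
    rw [h0, mul_zero] at hP
    exact hdet hP
  obtain ⟨β, hβ⟩ := ne_zero_iff.1 hP0
  obtain ⟨k, hk⟩ : ∃ k, k = J - m := ⟨_, rfl⟩
  rw [← hk] at hP
  -- the local inequality
  have hloc : ∀ w : Place κ L, log (w.1 (coeff β P)) +
      ((k : ℤ) - W) * log (vmax w.1 z) ≤ w₀ * (δ w + σ w) + ρ w + W * θ w := by
    intro w
    obtain ⟨l, hl, hlmax, hlk⟩ := exists_vmax w.1 hz0
    obtain ⟨O, hO⟩ : ∃ O : Subring L, O = w.1.integer := ⟨_, rfl⟩
    have hmem : ∀ z : L, z ∈ O ↔ w.1 z ≤ 1 := by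
      intro z
      rw [hO]
      exact Valuation.mem_integer_iff _ _
    obtain ⟨u, hu⟩ := w.2.1 (exp (θ w : ℤ))
    have hu0 : u ≠ 0 := by
      intro h0
      rw [h0, map_zero] at hu
      exact exp_ne_zero hu.symm
    have hwl : w.1 (z l) ≠ 0 := (Valuation.ne_zero_iff _).2 hl
    -- the scaling element
    obtain ⟨t, ht⟩ : ∃ t : L, t = z l * u := ⟨_, rfl⟩
    have ht0 : t ≠ 0 := by
      rw [ht]
      exact mul_ne_zero hl hu0
    have hwt' : w.1 t = vmax w.1 z * exp (θ w : ℤ) := by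
      rw [ht, map_mul, hu, hlmax]
    -- the normalised vectors
    obtain ⟨xh, hxh⟩ : ∃ xh : Fin s → L, xh = fun i => x i / t ^ wt i := ⟨_, rfl⟩
    obtain ⟨Eh, hEh⟩ : ∃ Eh : Fin s → L, Eh = fun i => (wt i : L) * xh i := ⟨_, rfl⟩
    obtain ⟨yh, hyh⟩ : ∃ yh : Fin s → MvPolynomial (Fin s) L,
      yh = fun i => ∑ I, lam I * C (D I (xh i)) := ⟨_, rfl⟩
    have hxxh : ∀ i, x i = t ^ wt i * xh i := by
      intro i
      rw [hxh]
      show x i = t ^ wt i * (x i / t ^ wt i)
      rw [mul_div_cancel₀ _ (pow_ne_zero _ ht0)]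
    have hEEh : ∀ i, E i = t ^ wt i * Eh i := by
      intro i
      rw [hE, hEh]
      show (wt i : L) * x i = t ^ wt i * ((wt i : L) * xh i)
      rw [hxxh i]
      ring
    have hxhO : ∀ i, xh i ∈ O := by
      intro i
      rw [hmem, hxh]
      show w.1 (x i / t ^ wt i) ≤ 1
      rw [map_div₀, map_pow, hwt']
      exact div_le_one_of_le₀ (hxz i w) zero_le
    have hEhO : ∀ i, Eh i ∈ O := by
      intro i
      rw [hEh]
      exact O.mul_mem (natCast_mem _ _) (hxhO i)
    have hyyh : ∀ i, y i = C (t ^ wt i) * (yh i + C (Eh i) *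
        (∑ I, lam I * C (D I t / t))) := by
      intro i
      rw [hydef, hyh]
      show ∑ I, lam I * C (D I (x i)) = C (t ^ wt i) * (∑ I, lam I * C (D I (xh i)) +
        C (Eh i) * ∑ I, lam I * C (D I t / t))
      rw [mul_add, Finset.mul_sum, Finset.mul_sum, Finset.mul_sum, ← Finset.sum_add_distrib]
      refine Finset.sum_congr rfl fun I _ => ?_
      have h1 : D I (x i) = t ^ wt i * D I (xh i) + t ^ wt i * (Eh i * (D I t / t)) := by
        conv_lhs => rw [hxxh i, Derivation.leibniz, Derivation.leibniz_pow, smul_eq_mul,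
          smul_eq_mul, smul_eq_mul, nsmul_eq_mul]
        have h2 : t ^ wt i = t ^ (wt i - 1) * t := by
          rw [← pow_succ]
          congr 1
          have := hwt i
          omega
        rw [hEh]
        show t ^ wt i * D I (xh i) + xh i * ((wt i : L) * (t ^ (wt i - 1) * D I t)) =
          t ^ wt i * D I (xh i) + t ^ wt i * ((wt i : L) * xh i * (D I t / t))
        congr 1
        rw [h2]
        field_simp
      rw [h1, C_add, C_mul, C_mul, C_mul]
      ring
    obtain ⟨ε, hε⟩ := w.2.1 (exp (-((w₀ * δ w + ρ w : ℕ) : ℤ)))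
    obtain ⟨b, hb⟩ := w.2.1 (exp (-(σ w : ℤ)))
    have hdetO : C (ε * b ^ w₀) * (Matrix.of fun a b => rowsL Eh yh α a (col b)).det ∈
        OA O s := by
      have h1 := det_row_mem (s := s) O (ε := ε) (β := b) (fun b => Eh (col b))
        (fun I b => D I (xh (col b))) (fun K => by
          rw [hmem, map_mul, hε]
          have h2 := border_boundE hD w K (fun b => Eh (col b)) (fun b => xh (col b))
            (fun b => (hmem _).1 (hEhO _)) (fun b => (hmem _).1 (hxhO _))
          calc _ ≤ exp (-((w₀ * δ w + ρ w : ℕ) : ℤ)) * exp ((w₀ * δ w + ρ w : ℕ) : ℤ) :=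
              mul_le_mul' le_rfl h2
            _ = 1 := by rw [← exp_add, neg_add_cancel, exp_zero])
        (fun q I => dL (α q) (lam I)) (fun q I => by
          rw [← dL_C_mul]
          refine dL_mem_OA ?_ _
          intro γ
          rw [coeff_C_mul, hmem, map_mul, hb]
          calc _ ≤ exp (-(σ w : ℤ)) * exp (σ w : ℤ) := mul_le_mul' le_rfl (hlam I γ w)
            _ = 1 := by rw [← exp_add, neg_add_cancel, exp_zero])
      have h2 : (Matrix.of fun a b => rowsL Eh yh α a (col b)) =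
          Matrix.of (Sum.elim (fun (_ : Fin 1) b => C (Eh (col b)))
            (fun q b => ∑ I, dL (α q) (lam I) * C (D I (xh (col b))))) := by
        ext1 i j
        rcases i with i | q
        · rfl
        · show dL (α q) (yh (col j)) = ∑ I, dL (α q) (lam I) * C (D I (xh (col j)))
          rw [hyh, dL_sum]
          exact Finset.sum_congr rfl fun I _ => dL_mul_C _ _ _
      rw [h2]
      exact h1
    have hPw := hP
    rw [det_rowsW hEEh hyyh, ← hW] at hPw
    obtain ⟨zh, hzh⟩ : ∃ zh : Fin s → L, zh = fun i => z i / z l := ⟨_, rfl⟩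
    have hzzh : ∀ i, z i = z l * zh i := by
      intro i
      rw [hzh]
      show z i = z l * (z i / z l)
      rw [mul_div_cancel₀ _ hl]
    have hzhO : ∀ i, zh i ∈ O := by
      intro i
      rw [hmem, hzh]
      show w.1 (z i / z l) ≤ 1
      rw [map_div₀]
      exact div_le_one_of_le₀ (hlk i) zero_le
    have hzhl : zh l = 1 := by
      rw [hzh]
      exact div_self hl
    obtain ⟨ℓh, hℓh⟩ : ∃ ℓh : MvPolynomial (Fin s) L, ℓh = ∑ i, C (zh i) * X i := ⟨_, rfl⟩
    have hℓℓ : (∑ l, C (z l) * X l : MvPolynomial (Fin s) L) = C (z l) * ℓh := by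
      rw [hℓh, Finset.mul_sum]
      refine Finset.sum_congr rfl fun i _ => ?_
      rw [hzzh i, C_mul]
      ring
    rw [hℓℓ, mul_pow] at hPw
    have hinv : (C (t⁻¹ ^ W) * C (t ^ W) : MvPolynomial (Fin s) L) = 1 := by
      rw [← C_mul, ← mul_pow, inv_mul_cancel₀ ht0, one_pow, C_1]
    have h1 : ℓh ^ k * (C (ε * b ^ w₀ * (t⁻¹ ^ W * z l ^ k)) * P) ∈ OA O s := by
      have h2 : ℓh ^ k * (C (ε * b ^ w₀ * (t⁻¹ ^ W * z l ^ k)) * P) =
          C (ε * b ^ w₀) * (Matrix.of fun a b => rowsL Eh yh α a (col b)).det := by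
        have h3 : (Matrix.of fun a b => rowsL Eh yh α a (col b)).det =
            C (t⁻¹ ^ W) * (C (z l) ^ k * ℓh ^ k * P) := by
          rw [← hPw, ← mul_assoc, hinv, one_mul]
        rw [h3, C_mul (a := ε * b ^ w₀), C_mul (a := t⁻¹ ^ W), C_pow (z l) k]
        ring
      rw [h2]
      exact hdetO
    rw [hℓh] at h1
    have h2 := gauss_linear_pow hzhO hzhl _ h1 β
    rw [coeff_C_mul, hmem, map_mul, map_mul, map_mul, map_mul, map_pow, map_pow, map_pow,
      map_inv₀, hε, hb, hwt', ← hlmax] at h2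
    have hv : vmax w.1 z ≠ 0 := by
      rw [hlmax]
      exact hwl
    have hve : vmax w.1 z * exp (θ w : ℤ) ≠ 0 := mul_ne_zero hv exp_ne_zero
    have hP1 : w.1 (coeff β P) ≠ 0 := (Valuation.ne_zero_iff _).2 hβ
    have hne : exp (-((w₀ * δ w + ρ w : ℕ) : ℤ)) * exp (-(σ w : ℤ)) ^ w₀ *
        ((vmax w.1 z * exp (θ w : ℤ))⁻¹ ^ W * vmax w.1 z ^ k) ≠ 0 :=
      mul_ne_zero (mul_ne_zero exp_ne_zero (pow_ne_zero _ exp_ne_zero))
        (mul_ne_zero (pow_ne_zero _ (inv_ne_zero hve)) (pow_ne_zero _ hv))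
    have h3 := (log_le_log (mul_ne_zero hne hP1) one_ne_zero).2 h2
    rw [log_one, log_mul hne hP1, log_mul (mul_ne_zero exp_ne_zero
      (pow_ne_zero _ exp_ne_zero)) (mul_ne_zero (pow_ne_zero _ (inv_ne_zero hve))
      (pow_ne_zero _ hv)), log_mul exp_ne_zero (pow_ne_zero _ exp_ne_zero),
      log_mul (pow_ne_zero _ (inv_ne_zero hve)) (pow_ne_zero _ hv), log_pow, log_pow, log_pow,
      log_inv, log_mul hv exp_ne_zero, log_exp, log_exp, log_exp] at h3
    simp only [nsmul_eq_mul] at h3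
    push_cast at h3
    linarith
  -- the sum over the places
  have s1 := h.place_support hβ
  have s2 : (Function.support fun w : Place κ L =>
      ((k : ℤ) - W) * log (vmax w.1 z)).Finite := by
    refine (h.vmax_support hz0).subset fun w hw h1 => hw ?_
    simp only at h1 ⊢
    rw [h1, mul_zero]
  have hcast : ∀ {τ : Place κ L → ℕ}, (Function.support τ).Finite →
      (Function.support fun w : Place κ L => (τ w : ℤ)).Finite := by
    intro τ hτ
    refine hτ.subset fun w hw h1 => hw ?_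
    simp only at h1 ⊢
    rw [h1, Nat.cast_zero]
  have s3 := hcast hδ
  have s4 := hcast hσ
  have s5 := hcast hρ
  have s6 := hcast hθ
  have s34 : (Function.support fun w : Place κ L => (δ w : ℤ) + (σ w : ℤ)).Finite :=
    (s3.union s4).subset (Function.support_add _ _)
  have s34' : (Function.support fun w : Place κ L => (w₀ : ℤ) * ((δ w : ℤ) + (σ w : ℤ))).Finite := by
    refine s34.subset fun w hw h1 => hw ?_
    simp only at h1 ⊢
    rw [h1, mul_zero]
  have s6' : (Function.support fun w : Place κ L => (W : ℤ) * (θ w : ℤ)).Finite := by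
    refine s6.subset fun w hw h1 => hw ?_
    simp only at h1 ⊢
    rw [h1, mul_zero]
  have s345 : (Function.support fun w : Place κ L =>
      (w₀ : ℤ) * ((δ w : ℤ) + (σ w : ℤ)) + (ρ w : ℤ)).Finite :=
    (s34'.union s5).subset (Function.support_add _ _)
  have hmain := finsum_mono ((s1.union s2).subset (Function.support_add _ _))
    ((s345.union s6').subset (Function.support_add _ _)) hloc
  rw [finsum_add_distrib s1 s2, finsum_add_distrib s345 s6', finsum_add_distrib s34' s5,
    h.product_formula hβ, ← mul_finsum _ _, ← mul_finsum _ _, ← mul_finsum _ _,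
    finsum_add_distrib s3 s4, zero_add] at hmain
  have hh : ∑ᶠ w : Place κ L, log (vmax w.1 z) = height κ z := rfl
  rw [hh] at hmain
  have h1 := h.height_nonneg hz0
  have h2 : 0 ≤ ∑ᶠ w, (δ w : ℤ) := finsum_nonneg fun w => Int.natCast_nonneg _
  have h3 : 0 ≤ ∑ᶠ w, (σ w : ℤ) := finsum_nonneg fun w => Int.natCast_nonneg _
  have h3' : 0 ≤ ∑ᶠ w, (θ w : ℤ) := finsum_nonneg fun w => Int.natCast_nonneg _
  have h4 : (w₀ : ℤ) ≤ r := by exact_mod_cast hw
  have hWz : (W : ℤ) ≤ w₀ + 1 + ∑ i, ((wt i - 1 : ℕ) : ℤ) := by exact_mod_cast hWle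
  have hkz : (J : ℤ) - m ≤ k := by omega
  have hmz : (m : ℤ) + 1 ≤ w₀ := by exact_mod_cast hm
  have h5 : (J : ℤ) - 2 * r - ∑ i, ((wt i - 1 : ℕ) : ℤ) ≤ (k : ℤ) - W := by linarith
  have h6 := mul_le_mul_of_nonneg_right h5 h1
  have h7 := mul_le_mul_of_nonneg_right h4 (add_nonneg h2 h3)
  have h8 : (W : ℤ) ≤ r + 1 + ∑ i, ((wt i - 1 : ℕ) : ℤ) := by linarith
  have h9 := mul_le_mul_of_nonneg_right h8 h3'
  linarith

end Place

end Pool.Agent.Lib.MP_44a246_ntMS
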