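import Mathlib
import Pool.Agent.Lib.MP_e52354_ntMR.MR07

/-!
Points with weighted coordinates: the dimension, and the identity for the derivatives of a point,
from the relation between the derivatives of the forms.
-/

namespace Pool.Agent.Lib.MP_44a246_ntMS

open Pool.Agent.Lib.MP_e52354_ntMR
open Pool.Agent.Lib.MP_44a246_ntK (der_aevalG card_le_of_dim_genG)
open Pool.Agent.Lib.MP_44a246_ntR (imI mem_imI)
open Pool.Agent.Lib.MP_44a246_ntU (exists_der_comb)
open MvPolynomial

section Dim

/-- a scaled family: if `y` is algebraically independent over `k` then so is `(X, X ^ w y)` in the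
field of rational functions -/
theorem indep_scaleW {k M : Type*} [Field k] [Field M] [Algebra k M] {p : ℕ} {y : Fin p → M}
    (hy : AlgebraicIndependent k y) (w : Fin p → ℕ) :
    AlgebraicIndependent k (Fin.cons RatFunc.X
      (fun i => RatFunc.X ^ w i * algebraMap M (RatFunc M) (y i)) : Fin (p + 1) → RatFunc M) := by
  classical
  rw [algebraicIndependent_iff]
  intro H hH
  set ψ : Fin (p + 1) → Polynomial M :=
    Fin.cons Polynomial.X (fun i => Polynomial.X ^ w i * Polynomial.C (y i)) with hψ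
  have h1 : (Fin.cons RatFunc.X
      (fun i => RatFunc.X ^ w i * algebraMap M (RatFunc M) (y i)) : Fin (p + 1) → RatFunc M)
      = fun i => algebraMap (Polynomial M) (RatFunc M) (ψ i) := by
    funext i
    refine Fin.cases ?_ (fun i => ?_) i
    · simp [hψ]
    · simp [hψ]
      exact mul_comm _ _
  have h2 : aeval ψ H = 0 := by
    rw [h1] at hH
    change aeval (algebraMap (Polynomial M) (RatFunc M) ∘ ψ) H = 0 at hH
    rw [MvPolynomial.aeval_algebraMap_apply] at hH
    exact (map_eq_zero_iff _ (RatFunc.algebraMap_injective M)).mp hH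
  -- the monomials
  have h3 : ∀ m : Fin (p + 1) →₀ ℕ, ∏ i, ψ i ^ m i
      = Polynomial.C (∏ i, y i ^ m (Fin.succ i)) *
        Polynomial.X ^ (m 0 + ∑ i : Fin p, w i * m i.succ) := by
    intro m
    rw [Fin.prod_univ_succ]
    simp only [hψ, Fin.cons_zero, Fin.cons_succ, mul_pow, Finset.prod_mul_distrib,
      ← pow_mul, Finset.prod_pow_eq_pow_sum, map_prod, map_pow, pow_add]
    ring
  rw [aeval_def, eval₂_eq'] at h2
  ext m₀
  rw [coeff_zero]
  by_contra hm₀
  set d := m₀ 0 + ∑ i : Fin p, w i * m₀ i.succ with hd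
  have h4 := congrArg (fun q => Polynomial.coeff q d) h2
  simp only [Polynomial.finsetSum_coeff, Polynomial.coeff_zero, h3] at h4
  have h5 : ∀ m : Fin (p + 1) →₀ ℕ, (algebraMap k (Polynomial M) (coeff m H) *
      (Polynomial.C (∏ i, y i ^ m (Fin.succ i)) *
        Polynomial.X ^ (m 0 + ∑ i : Fin p, w i * m i.succ))).coeff d
      = if m 0 + ∑ i : Fin p, w i * m i.succ = d then
          algebraMap k M (coeff m H) * ∏ i, y i ^ m (Fin.succ i)
        else 0 := by
    intro m
    rw [Polynomial.algebraMap_apply, ← mul_assoc, ← Polynomial.C_mul, Polynomial.coeff_C_mul,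
      Polynomial.coeff_X_pow]
    by_cases h : m 0 + ∑ i : Fin p, w i * m i.succ = d
    · rw [if_pos h, if_pos h.symm, mul_one]
    · rw [if_neg h, if_neg (fun h' => h h'.symm), mul_zero]
  simp only [h5] at h4
  rw [← Finset.sum_filter] at h4
  set S := H.support.filter (fun m => m 0 + ∑ i : Fin p, w i * m i.succ = d) with hS
  have h6 : aeval y (∑ m ∈ S, monomial (Finsupp.tail m) (coeff m H)) = 0 := by
    rw [map_sum, ← h4]
    refine Finset.sum_congr rfl fun m _ => ?_
    rw [aeval_monomial, Finsupp.prod_fintype _ _ (fun i => pow_zero _)]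
    rfl
  have h7 := (algebraicIndependent_iff.mp hy) _ h6
  have h8 := congrArg (coeff (Finsupp.tail m₀)) h7
  rw [coeff_sum, coeff_zero, Finset.sum_eq_single m₀] at h8
  · rw [coeff_monomial, if_pos rfl] at h8
    exact hm₀ h8
  · intro m hm hne
    rw [coeff_monomial, if_neg]
    intro h
    apply hne
    have h9 : ∀ i : Fin p, m i.succ = m₀ i.succ := fun i => DFunLike.congr_fun h i
    have h10 : m 0 = m₀ 0 := by
      have := (Finset.mem_filter.mp hm).2
      rw [hd, Finset.sum_congr rfl fun i _ => by rw [h9 i]] at this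
      omega
    ext i
    refine Fin.cases h10 h9 i
  · intro h
    exfalso
    apply h
    rw [hS, Finset.mem_filter]
    exact ⟨mem_support_iff.mpr hm₀, rfl⟩

/-- the scaling of the variables of a weighted homogeneous polynomial -/
theorem aeval_scaleW {k B σ : Type*} [Field k] [CommRing B] [Algebra k B] [Fintype σ]
    {w : σ → ℕ} {e : ℕ} {f : MvPolynomial σ k} (hf : f.IsWeightedHomogeneous w e) (c : B)
    (v : σ → B) : aeval (fun i => c ^ w i * v i) f = c ^ e * aeval v f := by
  rw [aeval_def, aeval_def, eval₂_eq', eval₂_eq', Finset.mul_sum]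
  refine Finset.sum_congr rfl fun I hI => ?_
  have h1 := hf (mem_support_iff.1 hI)
  rw [Finsupp.weight_apply, Finsupp.sum_fintype _ _ (by simp)] at h1
  simp only [smul_eq_mul] at h1
  simp only [mul_pow, Finset.prod_mul_distrib, ← pow_mul, Finset.prod_pow_eq_pow_sum]
  have h2 : ∑ i, w i * I i = e := by
    rw [← h1]
    exact Finset.sum_congr rfl fun i _ => mul_comm _ _
  rw [h2]
  ring

variable {k : Type*} [Field k] {n p : ℕ}

/-- algebraically independent coordinates of a point of a weighted projective variety, normalised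
by a coordinate of weight `1` -/
theorem card_le_of_dimI_W {M : Type*} [Field M] [Algebra k M] {r : ℕ}
    {d : Fin p → ℕ} {wt : Fin n → ℕ} {ι : Type*} {f : ι → MvPolynomial (Fin p ⊕ Fin n) k}
    {e : ι → ℕ} (hf : ∀ i, (f i).IsWeightedHomogeneous (Sum.elim d wt) (e i))
    (hI : ringKrullDim (MvPolynomial (Fin n) k ⧸ imI f) ≤ ((r + 1 : ℕ) : ℕ))
    {γ : Fin n → M} {η : Fin p → M} (hγ : ∀ i, aeval (Sum.elim η γ : Fin p ⊕ Fin n → M) (f i) = 0)
    {l : Fin n} (hl : γ l = 1) (hwl : wt l = 1) {q : ℕ} {j : Fin q → Fin n}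
    (hj : AlgebraicIndependent k (fun i => γ (j i))) : q ≤ r := by
  have h1 := indep_scaleW hj fun i => wt (j i)
  set γ' : Fin p ⊕ Fin n → RatFunc M := fun a => RatFunc.X ^ (Sum.elim d wt : Fin p ⊕ Fin n → ℕ) a *
    algebraMap M (RatFunc M) ((Sum.elim η γ : Fin p ⊕ Fin n → M) a) with hγ'
  have h2 : (Fin.cons RatFunc.X
      (fun i => RatFunc.X ^ wt (j i) * algebraMap M (RatFunc M) (γ (j i))) :
        Fin (q + 1) → RatFunc M)
      = fun i => aeval (γ' ∘ Sum.inr) ((Fin.cons (X l) (fun i => X (j i)) :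
        Fin (q + 1) → MvPolynomial (Fin n) k) i) := by
    funext i
    refine Fin.cases ?_ (fun i => ?_) i
    · simp only [hγ', Fin.cons_zero, aeval_X, Function.comp, Sum.elim_inr, hl, hwl, pow_one,
        map_one, mul_one]
    · simp only [hγ', Fin.cons_succ, aeval_X, Function.comp, Sum.elim_inr]
  rw [h2] at h1
  have h3 : ∀ g ∈ Ideal.span (Set.range f), aeval γ' g = 0 := by
    intro g hg
    refine Submodule.span_induction (p := fun g _ => aeval γ' g = 0) ?_ (by simp) ?_ ?_ hg
    · rintro _ ⟨i, rfl⟩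
      rw [hγ', aeval_scaleW (hf i)]
      have h6 : aeval (fun a => algebraMap M (RatFunc M)
          ((Sum.elim η γ : Fin p ⊕ Fin n → M) a)) (f i) = 0 := by
        change aeval (algebraMap M (RatFunc M) ∘ (Sum.elim η γ : Fin p ⊕ Fin n → M)) (f i) = 0
        rw [MvPolynomial.aeval_algebraMap_apply, hγ i, map_zero]
      rw [h6, mul_zero]
    · intro a b _ _ ha hb
      rw [map_add, ha, hb, add_zero]
    · intro a b _ hb
      rw [smul_eq_mul, map_mul, hb, mul_zero]
  have h6 := card_le_of_dim_genG hI (γ := γ' ∘ Sum.inr) (fun g hg => by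
    rw [← aeval_rename]
    exact h3 _ (mem_imI.1 hg)) h1
  omega

end Dim

section Lin

variable {L M : Type*} [Field L] [Field M] [Algebra L M] {n : ℕ}

/-- the general linear form in the variables of the set `S` -/
noncomputable def linS (R : Type*) [CommRing R] {n : ℕ} (S : Finset (Fin n)) :
    MvPolynomial (Fin n) (MvPolynomial (Fin n) R) := ∑ l ∈ S, C (X l) * X l

/-- the vector of the coordinates in the set `S` -/
def resS {R : Type*} [Zero R] {n : ℕ} (S : Finset (Fin n)) (x : Fin n → R) : Fin n → R :=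
  fun i => if i ∈ S then x i else 0

theorem valA_linS (x : Fin n → M) (S : Finset (Fin n)) :
    valA x (linS L S) = ∑ l, C (resS S x l) * X l := by
  classical
  have h1 : ∀ l, valA (L := L) x (C (X l) * X l) = C (x l) * X l := by
    intro l
    unfold valA
    rw [map_mul, coe_eval₂Hom, eval₂_C, eval₂_X, map_X]
    ring
  have h2 : ∑ l, C (resS S x l) * X l = ∑ l ∈ S, (C (x l) * X l : MvPolynomial (Fin n) M) := by
    rw [← Finset.sum_subset (Finset.subset_univ S)]
    · refine Finset.sum_congr rfl fun l hl => ?_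
      unfold resS
      rw [if_pos hl]
    · intro l _ hl
      unfold resS
      rw [if_neg hl, C_0, zero_mul]
  rw [h2]
  unfold linS
  rw [map_sum]
  exact Finset.sum_congr rfl fun l _ => h1 l

end Lin

/-- **The identity for the derivatives of a point.** -/
theorem relation_dataW {k₀ L M : Type*} [Field k₀] [CharZero k₀] [Field L] [Field M]
    [CharZero M] [Algebra k₀ L] [Algebra L M] [Algebra k₀ M] [IsScalarTower k₀ L M] {n p : ℕ}
    {ι : Type*} [Fintype ι] {D₀ : ι → Derivation ℤ L L} {D : ι → Derivation ℤ M M}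
    (hD0 : ∀ I y, D I (algebraMap L M y) = algebraMap L M (D₀ I y))
    (hYk : ∀ I, ∀ c : k₀, D I (algebraMap k₀ M c) = 0)
    {r J s : ℕ} {d : Fin p → ℕ} {wt : Fin n → ℕ} {e : Fin s → ℕ} {j₁ : Fin p}
    {f : Fin s → MvPolynomial (Fin p ⊕ Fin n) k₀}
    (hf : ∀ i, (f i).IsWeightedHomogeneous (Sum.elim d wt) (e i))
    (hdim : ringKrullDim (MvPolynomial (Fin n) k₀ ⧸ imI f) ≤ ((r + 1 : ℕ) : ℕ))
    {H : Fin p → MvPolynomial (Fin n) L} (hH : ∀ j, (H j).IsWeightedHomogeneous wt (d j))
    {lam : ι → MvPolynomial (Fin n) L} {S : Finset (Fin n)}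
    {g₀ : MvPolynomial (Fin n) (MvPolynomial (Fin n) L)}
    (hrel : ∀ j m, ∑ I, lam I * C (D₀ I (coeff m (H j))) =
      if j = j₁ then coeff m (linS L S ^ J * g₀) else 0)
    {g : MvPolynomial (Fin p ⊕ Fin n) k₀} {e' : ℕ}
    (hg : g.IsWeightedHomogeneous (Sum.elim d wt) e')
    {α : Fin n →₀ ℕ} {j₀ : Fin n} (hw₀ : wt j₀ = 1) {x : Fin n → M} (hx : x j₀ = 1)
    (hzf : ∀ i, aeval (Sum.elim (fun j => aeval x (H j)) x : Fin p ⊕ Fin n → M) (f i) = 0)
    (hzg : aeval (Sum.elim (fun j => aeval x (H j)) x : Fin p ⊕ Fin n → M) g = 0)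
    (hdg : aeval (Sum.elim (fun j => aeval x (H j)) x : Fin p ⊕ Fin n → M)
      (pderiv (Sum.inl j₁) g) ≠ 0) (hgA : aeval x (coA α g₀) ≠ 0) :
    ∃ (φ : Fin n → M) (g' : MvPolynomial (Fin n) M) (q : ℕ) (jj : Fin q → Fin n)
      (c : Fin n → Fin q → M), ∑ i, φ i * ((wt i : M) * x i) = 0 ∧ g' ≠ 0 ∧ q ≤ r ∧
      ∑ i, C (φ i) * (∑ I, map (algebraMap L M) (lam I) * C (D I (x i))) =
        (∑ l, C (resS S x l) * X l) ^ J * g' ∧
      ∀ I i, D I (x i) = ∑ t, c i t * D I (x (jj t)) := by
  classical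
  obtain ⟨η, hη⟩ : ∃ η : Fin p → M, η = fun j => aeval x (H j) := ⟨_, rfl⟩
  obtain ⟨y, hy⟩ : ∃ y : Fin p ⊕ Fin n → M, y = Sum.elim η x := ⟨_, rfl⟩
  have hz : ∀ i, aeval y (f i) = 0 := by
    intro i
    rw [hy, hη]
    exact hzf i
  have hgz : aeval y g = 0 := by
    rw [hy, hη]
    exact hzg
  have hgd : aeval y (pderiv (Sum.inl j₁) g) ≠ 0 := by
    rw [hy, hη]
    exact hdg
  obtain ⟨φ, hφ⟩ : ∃ φ : Fin n → M, φ = fun i => aeval y (pderiv (Sum.inr i) g) +
    ∑ j, aeval y (pderiv (Sum.inl j) g) * aeval x (pderiv i (H j)) := ⟨_, rfl⟩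
  -- the identity of Euler
  have hφx : ∑ i, φ i * ((wt i : M) * x i) = 0 := by
    have h1 := congrArg (aeval y) hg.sum_weight_X_mul_pderiv
    rw [map_nsmul, hgz, smul_zero, map_sum, Fintype.sum_sum_type] at h1
    have h2 : ∀ j, ∑ i, (wt i : M) * x i * aeval x (pderiv i (H j)) = (d j : M) * η j := by
      intro j
      have h3 := congrArg (aeval x) (hH j).sum_weight_X_mul_pderiv
      rw [map_sum, map_nsmul, nsmul_eq_mul] at h3
      rw [hη, ← h3]
      refine Finset.sum_congr rfl fun i _ => ?_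
      rw [map_nsmul, map_mul, aeval_X, nsmul_eq_mul]
      ring
    have h4 : ∑ i, φ i * ((wt i : M) * x i) =
        ∑ i, aeval y (pderiv (Sum.inr i) g) * ((wt i : M) * x i) +
        ∑ j, aeval y (pderiv (Sum.inl j) g) * ((d j : M) * η j) := by
      rw [hφ]
      simp only [add_mul, Finset.sum_add_distrib]
      congr 1
      simp only [Finset.sum_mul]
      rw [Finset.sum_comm]
      refine Finset.sum_congr rfl fun j _ => ?_
      rw [← h2 j, Finset.mul_sum]
      exact Finset.sum_congr rfl fun i _ => by ring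
    rw [h4, ← h1, add_comm]
    congr 1
    · refine Finset.sum_congr rfl fun j _ => ?_
      rw [map_nsmul, map_mul, aeval_X, hy, nsmul_eq_mul]
      show _ = (d j : M) * (η j * _)
      ring
    · refine Finset.sum_congr rfl fun i _ => ?_
      rw [map_nsmul, map_mul, aeval_X, hy, nsmul_eq_mul]
      show _ = (wt i : M) * (x i * _)
      ring
  -- the derivatives
  have hD : ∀ I, ∑ i, φ i * D I (x i) =
      - ∑ j, aeval y (pderiv (Sum.inl j) g) * evD (D I) x (H j) := by
    intro I
    have h1 := der_aevalG (D I) (hYk I) y g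
    rw [hgz, map_zero, Fintype.sum_sum_type] at h1
    have h2 : ∀ j, D I (y (Sum.inl j)) = evD (D I) x (H j) +
        ∑ i, aeval x (pderiv i (H j)) * D I (x i) := by
      intro j
      rw [hy, hη]
      exact der_aeval_gen (D I) x (H j)
    have h3 : ∀ i, D I (y (Sum.inr i)) = D I (x i) := by
      intro i
      rw [hy]
      rfl
    simp only [h2, h3, mul_add, Finset.sum_add_distrib] at h1
    have h4 : ∑ i, φ i * D I (x i) = ∑ i, aeval y (pderiv (Sum.inr i) g) * D I (x i) +
        ∑ j, aeval y (pderiv (Sum.inl j) g) * ∑ i, aeval x (pderiv i (H j)) * D I (x i) := by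
      rw [hφ]
      simp only [add_mul, Finset.sum_add_distrib]
      congr 1
      simp only [Finset.sum_mul]
      rw [Finset.sum_comm]
      refine Finset.sum_congr rfl fun j _ => ?_
      rw [Finset.mul_sum]
      exact Finset.sum_congr rfl fun i _ => by ring
    rw [h4]
    linear_combination -h1
  have hsum : ∀ j, ∑ I, map (algebraMap L M) (lam I) * C (evD (D I) x (H j)) =
      if j = j₁ then (∑ l, C (resS S x l) * X l) ^ J * valA x g₀ else 0 := by
    intro j
    obtain ⟨T, hT⟩ : ∃ T : Finset (Fin n →₀ ℕ),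
      T = (H j).support ∪ (linS L S ^ J * g₀).support := ⟨_, rfl⟩
    have h1 : ∀ I, evD (D I) x (H j) = ∑ m ∈ T,
        algebraMap L M (D₀ I (coeff m (H j))) * ∏ i, x i ^ m i := by
      intro I
      rw [evD_eq_sum _ x (H j) (S := T) (by rw [hT]; exact Finset.subset_union_left)]
      refine Finset.sum_congr rfl fun m _ => ?_
      rw [hD0]
    have h2 : ∑ I, map (algebraMap L M) (lam I) * C (evD (D I) x (H j)) =
        ∑ m ∈ T, map (algebraMap L M) (∑ I, lam I * C (D₀ I (coeff m (H j)))) *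
          C (∏ i, x i ^ m i) := by
      simp only [h1, map_sum, Finset.mul_sum, Finset.sum_mul]
      rw [Finset.sum_comm]
      refine Finset.sum_congr rfl fun m _ => Finset.sum_congr rfl fun I _ => ?_
      rw [C_mul, map_mul, map_C]
      ring
    rw [h2]
    simp only [hrel]
    split_ifs with hj
    · rw [← valA_eq_sum x (linS L S ^ J * g₀) (S := T) (by rw [hT]; exact Finset.subset_union_right),
        map_mul, map_pow, valA_linS]
    · simp
  have hφy : ∑ i, C (φ i) * (∑ I, map (algebraMap L M) (lam I) * C (D I (x i))) =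
      (∑ l, C (resS S x l) * X l) ^ J *
        (- C (aeval y (pderiv (Sum.inl j₁) g)) * valA x g₀) := by
    have h1 : ∑ i, C (φ i) * (∑ I, map (algebraMap L M) (lam I) * C (D I (x i))) =
        ∑ I, map (algebraMap L M) (lam I) * C (∑ i, φ i * D I (x i)) := by
      simp only [Finset.mul_sum, map_sum]
      rw [Finset.sum_comm]
      refine Finset.sum_congr rfl fun I _ => Finset.sum_congr rfl fun i _ => ?_
      rw [C_mul]
      ring
    have h2 : ∑ I, map (algebraMap L M) (lam I) * C (∑ i, φ i * D I (x i)) =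
        - ∑ j, C (aeval y (pderiv (Sum.inl j) g)) *
          ∑ I, map (algebraMap L M) (lam I) * C (evD (D I) x (H j)) := by
      simp only [hD, C_neg, map_sum, Finset.mul_sum, C_mul, mul_neg, Finset.sum_neg_distrib]
      congr 1
      rw [Finset.sum_comm]
      refine Finset.sum_congr rfl fun j _ => Finset.sum_congr rfl fun I _ => ?_
      ring
    rw [h1, h2]
    simp only [hsum]
    rw [Finset.sum_eq_single j₁]
    · rw [if_pos rfl]
      ring
    · intro j _ hj
      rw [if_neg hj, mul_zero]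
    · intro h
      exact absurd (Finset.mem_univ _) h
  have hg1 : (- C (aeval y (pderiv (Sum.inl j₁) g)) * valA x g₀ : MvPolynomial (Fin n) M) ≠ 0 := by
    refine mul_ne_zero (neg_ne_zero.2 ?_) (valA_ne_zero hgA)
    rw [ne_eq, C_eq_zero]
    exact hgd
  -- the rank
  have hz' : ∀ i, aeval (Sum.elim η x : Fin p ⊕ Fin n → M) (f i) = 0 := by
    intro i
    rw [← hy]
    exact hz i
  obtain ⟨q, jj, c, hq, hc⟩ := exists_der_comb (k := k₀) (γ := x) (r := r)
    fun q j hj => card_le_of_dimI_W hf hdim hz' hx hw₀ hj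
  exact ⟨φ, _, q, jj, c, hφx, hg1, hq, hφy, fun I i => hc (D I) (hYk I) i⟩

end Pool.Agent.Lib.MP_44a246_ntMS
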