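import Mathlib
import Pool.Agent.Lib.MP_44a246_ntMS.MW02

/-!
The relation between the derivatives of the forms, in a larger set of variables.
-/

namespace Pool.Agent.Lib.MP_44a246_ntMS

open Pool.Agent.Lib.MP_44a246_nt
open Pool.Agent.Lib.MP_e52354_ntMR
open WithZero MvPolynomial

section Ren

variable {L : Type*} [Field L] {n s : ℕ}

/-- a polynomial with coefficients in `L[A]` in a larger set of variables, also for `A` -/
noncomputable def ren2 (ι : Fin n → Fin s) :
    MvPolynomial (Fin n) (MvPolynomial (Fin n) L) →+*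
      MvPolynomial (Fin s) (MvPolynomial (Fin s) L) :=
  (rename ι : MvPolynomial (Fin n) (MvPolynomial (Fin s) L) →ₐ[_] _).toRingHom.comp
    (map (rename ι : MvPolynomial (Fin n) L →ₐ[L] MvPolynomial (Fin s) L).toRingHom)

theorem ren2_apply (ι : Fin n → Fin s) (G : MvPolynomial (Fin n) (MvPolynomial (Fin n) L)) :
    ren2 ι G = rename ι (map (rename ι : MvPolynomial (Fin n) L →ₐ[L]
      MvPolynomial (Fin s) L).toRingHom G) := rfl

theorem ren2_lin {ι : Fin n → Fin s} (hι : Function.Injective ι) :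
    ren2 ι (lin L n) = linS L (Finset.univ.image ι) := by
  classical
  unfold lin linS
  rw [map_sum, Finset.sum_image fun a _ b _ h => hι h]
  refine Finset.sum_congr rfl fun l _ => ?_
  rw [ren2_apply, map_mul, map_C, map_X, map_mul, rename_C, rename_X]
  congr 2
  exact rename_X _ _

theorem coeff_ren2 {ι : Fin n → Fin s} (hι : Function.Injective ι)
    (G : MvPolynomial (Fin n) (MvPolynomial (Fin n) L)) (m : Fin n →₀ ℕ) :
    coeff (m.mapDomain ι) (ren2 ι G) = rename ι (coeff m G) := by
  rw [ren2_apply, coeff_rename_mapDomain ι hι, coeff_map]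
  rfl

theorem coeff_ren2_of_notMem {ι : Fin n → Fin s}
    (G : MvPolynomial (Fin n) (MvPolynomial (Fin n) L)) {m : Fin s →₀ ℕ}
    (hm : ∀ m₀ : Fin n →₀ ℕ, m₀.mapDomain ι ≠ m) :
    coeff m (ren2 ι G) = 0 := by
  rw [ren2_apply]
  exact coeff_rename_eq_zero ι _ m fun u hu => absurd hu (hm u)

/-- **The relation in a larger set of variables.** -/
theorem rel_rename {p J : ℕ} {j₁ : Fin p} {T : Type*} [Fintype T] {D₀ : T → Derivation ℤ L L}
    {H : Fin p → MvPolynomial (Fin n) L} {lam : T → MvPolynomial (Fin n) L}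
    {g₀ : MvPolynomial (Fin n) (MvPolynomial (Fin n) L)}
    (hrel : ∀ j m, ∑ I, lam I * C (D₀ I (coeff m (H j))) =
      if j = j₁ then coeff m (lin L n ^ J * g₀) else 0)
    {ι : Fin n → Fin s} (hι : Function.Injective ι) (j : Fin p) (m : Fin s →₀ ℕ) :
    ∑ I, rename ι (lam I) * C (D₀ I (coeff m (rename ι (H j)))) =
      if j = j₁ then coeff m (linS L (Finset.univ.image ι) ^ J * ren2 ι g₀) else 0 := by
  classical
  have h0 : linS L (Finset.univ.image ι) ^ J * ren2 ι g₀ = ren2 ι (lin L n ^ J * g₀) := by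
    rw [map_mul, map_pow, ren2_lin hι]
  rw [h0]
  by_cases hm : ∃ m₀ : Fin n →₀ ℕ, m₀.mapDomain ι = m
  · obtain ⟨m₀, rfl⟩ := hm
    rw [coeff_ren2 hι]
    have h1 := congrArg (rename ι : MvPolynomial (Fin n) L →ₐ[L] MvPolynomial (Fin s) L)
      (hrel j m₀)
    rw [map_sum] at h1
    have h2 : ∀ I, rename ι (lam I) * C (D₀ I (coeff (m₀.mapDomain ι) (rename ι (H j)))) =
        rename ι (lam I * C (D₀ I (coeff m₀ (H j)))) := by
      intro I
      rw [coeff_rename_mapDomain ι hι, map_mul, rename_C]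
    rw [Finset.sum_congr rfl fun I _ => h2 I, h1]
    split_ifs
    · rfl
    · exact map_zero _
  · push Not at hm
    rw [coeff_ren2_of_notMem _ hm]
    have h2 : coeff m (rename ι (H j)) = 0 :=
      coeff_rename_eq_zero ι _ m fun u hu => absurd hu (hm u)
    rw [h2]
    simp

theorem coA_ren2 {ι : Fin n → Fin s} (hι : Function.Injective ι) (α : Fin n →₀ ℕ)
    (G : MvPolynomial (Fin n) (MvPolynomial (Fin n) L)) :
    coA (α.mapDomain ι) (ren2 ι G) = rename ι (coA α G) := by
  classical
  ext m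
  rw [coeff_coA]
  by_cases hm : ∃ m₀ : Fin n →₀ ℕ, m₀.mapDomain ι = m
  · obtain ⟨m₀, rfl⟩ := hm
    rw [coeff_ren2 hι, coeff_rename_mapDomain ι hι, coeff_rename_mapDomain ι hι, coeff_coA]
  · push Not at hm
    rw [coeff_ren2_of_notMem _ hm, coeff_zero]
    exact (coeff_rename_eq_zero ι _ m fun u hu => absurd hu (hm u)).symm

end Ren

section Val

variable {κ L : Type*} [Field κ] [Field L] [Algebra κ L] {n s : ℕ}

theorem vmax_resS (v : Valuation L ℤᵐ⁰) (ι : Fin n → Fin s) (x : Fin s → L) :
    vmax v (resS (Finset.univ.image ι) x) = vmax v fun l => x (ι l) := by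
  classical
  unfold vmax resS
  apply le_antisymm
  · refine Finset.sup_le fun i _ => ?_
    split_ifs with hi
    · obtain ⟨l, -, rfl⟩ := Finset.mem_image.1 hi
      exact Finset.le_sup (f := fun l => v (x (ι l))) (Finset.mem_univ l)
    · rw [map_zero]
      exact zero_le
  · refine Finset.sup_le fun l _ => ?_
    refine le_trans (le_of_eq ?_) (Finset.le_sup (f := fun i => v (if i ∈ Finset.univ.image ι then
      x i else 0)) (Finset.mem_univ (ι l)))
    simp only
    rw [if_pos (Finset.mem_image_of_mem _ (Finset.mem_univ l))]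

theorem height_resS (ι : Fin n → Fin s) (x : Fin s → L) :
    height κ (resS (Finset.univ.image ι) x) = height κ fun l => x (ι l) := by
  unfold height
  exact finsum_congr fun v => by rw [vmax_resS]

end Val

end Pool.Agent.Lib.MP_44a246_ntMS
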