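import Mathlib
import Pool.Agent.Lib.MP_44a246_ntMS.MW03

/-!
The coordinates of larger weight of a point are bounded by the coordinates in the set `S`, if the
variety has no point where the coordinates in `S` are zero.
-/

namespace Pool.Agent.Lib.MP_44a246_ntMS

open Pool.Agent.Lib.MP_44a246_nt
open WithZero MvPolynomial

section Bound

variable {M : Type*} [Field M] {s : ℕ}

/-- the value of a monomial -/
theorem prod_le_exp (v : Valuation M ℤᵐ⁰) {x : Fin s → M} {wt : Fin s → ℕ} {lam : ℚ}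
    (hlam : ∀ i, x i ≠ 0 → ((log (v (x i)) : ℤ) : ℚ) ≤ wt i * lam) (m : Fin s →₀ ℕ) :
    v (∏ i, x i ^ m i) ≤ exp ⌊(Finsupp.weight wt m : ℚ) * lam⌋ := by
  classical
  by_cases h0 : ∃ i, m i ≠ 0 ∧ x i = 0
  · obtain ⟨i, hi, hxi⟩ := h0
    have h1 : ∏ i, x i ^ m i = 0 :=
      Finset.prod_eq_zero (Finset.mem_univ i) (by rw [hxi, zero_pow hi])
    rw [h1, map_zero]
    exact zero_le
  · push Not at h0
    have h1 : ∀ t : Finset (Fin s), v (∏ i ∈ t, x i ^ m i) ≤
        exp (∑ i ∈ t, (m i : ℤ) * log (v (x i))) := by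
      intro t
      induction t using Finset.induction_on with
      | empty =>
        rw [Finset.prod_empty, Finset.sum_empty, map_one, exp_zero]
      | insert i t hi ih =>
        rw [Finset.prod_insert hi, Finset.sum_insert hi, map_mul, exp_add]
        refine mul_le_mul' ?_ ih
        by_cases hmi : m i = 0
        · rw [hmi, pow_zero, map_one, Nat.cast_zero, zero_mul, exp_zero]
        · have hx : v (x i) ≠ 0 := (Valuation.ne_zero_iff _).2 (h0 i hmi)
          rw [map_pow, ← log_le_iff_le_exp (pow_ne_zero _ hx), log_pow, nsmul_eq_mul]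
    refine (h1 Finset.univ).trans ?_
    rw [exp_le_exp, Int.le_floor]
    push_cast
    rw [Finsupp.weight_apply, Finsupp.sum_fintype _ _ (fun _ => by simp)]
    push_cast
    rw [Finset.sum_mul]
    refine Finset.sum_le_sum fun i _ => ?_
    by_cases hmi : m i = 0
    · rw [hmi]
      simp
    · have h2 := hlam i (h0 i hmi)
      have h3 := mul_le_mul_of_nonneg_left h2 (Nat.cast_nonneg (α := ℚ) (m i))
      rw [smul_eq_mul]
      push_cast
      linarith

/-- the value of a weighted homogeneous polynomial -/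
theorem aeval_le_exp (v : Valuation M ℤᵐ⁰) {x : Fin s → M} {wt : Fin s → ℕ} {lam : ℚ}
    (hlam : ∀ i, x i ≠ 0 → ((log (v (x i)) : ℤ) : ℚ) ≤ wt i * lam) {θ : ℕ} {W : ℕ}
    {P : MvPolynomial (Fin s) M} (hP : P.IsWeightedHomogeneous wt W)
    (hPθ : ∀ m, v (coeff m P) ≤ exp (θ : ℤ)) :
    v (aeval x P) ≤ exp ((θ : ℤ) + ⌊(W : ℚ) * lam⌋) := by
  rw [aeval_def, eval₂_eq']
  refine Valuation.map_sum_le _ fun m hm => ?_
  rw [map_mul, exp_add]
  refine mul_le_mul' (hPθ m) ?_
  have h1 := prod_le_exp v hlam m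
  rw [hP (mem_support_iff.1 hm)] at h1
  exact h1

/-- **The bound for the coordinates.** -/
theorem weight_bound (v : Valuation M ℤᵐ⁰) {wt : Fin s → ℕ} (hwt : ∀ i, 1 ≤ wt i)
    {S : Finset (Fin s)} {x : Fin s → M} {j₀ : Fin s} (hj₀ : j₀ ∈ S)
    (hx : x j₀ = 1) {θ : ℕ}
    (hint : ∀ i, ∃ (b : ℕ) (c : Fin s → MvPolynomial (Fin s) M), 1 ≤ b ∧
      (∀ l, (c l).IsWeightedHomogeneous wt (b * wt i - 1)) ∧
      (∀ l m, v (coeff m (c l)) ≤ exp (θ : ℤ)) ∧ x i ^ b = ∑ l ∈ S, x l * aeval x (c l))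
    (i : Fin s) : v (x i) ≤ (vmax v (resS S x) * exp (θ : ℤ)) ^ wt i := by
  classical
  obtain ⟨V, hV⟩ : ∃ V, V = vmax v (resS S x) := ⟨_, rfl⟩
  rw [← hV]
  have hVl : ∀ l ∈ S, v (x l) ≤ V := by
    intro l hl
    have h1 : v (resS S x l) ≤ V := by
      rw [hV]
      exact Finset.le_sup (f := fun j => v (resS S x j)) (Finset.mem_univ l)
    unfold resS at h1
    rwa [if_pos hl] at h1
  have hV1 : 1 ≤ V := by
    have h1 := hVl j₀ hj₀
    rwa [hx, map_one] at h1
  have hV0 : V ≠ 0 := fun h => by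
    rw [h] at hV1
    exact absurd hV1 (by simp)
  have hZ : 0 ≤ log V := by
    have h1 := (log_le_log one_ne_zero hV0).2 hV1
    rwa [log_one] at h1
  -- the maximum of the weighted values
  obtain ⟨i₁, hi₁, hmax⟩ := Finset.exists_max_image (Finset.univ.filter fun i => x i ≠ 0)
    (fun i => ((log (v (x i)) : ℤ) : ℚ) / wt i) ⟨j₀, by
      rw [Finset.mem_filter]
      refine ⟨Finset.mem_univ _, ?_⟩
      rw [hx]
      exact one_ne_zero⟩
  rw [Finset.mem_filter] at hi₁
  have hwt' : ∀ i, (0 : ℚ) < wt i := fun i => by exact_mod_cast hwt i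
  obtain ⟨lam, hlamdef⟩ : ∃ lam : ℚ, lam = ((log (v (x i₁)) : ℤ) : ℚ) / wt i₁ := ⟨_, rfl⟩
  have hlam : ∀ i, x i ≠ 0 → ((log (v (x i)) : ℤ) : ℚ) ≤ wt i * lam := by
    intro i hi
    have h1 := hmax i (Finset.mem_filter.2 ⟨Finset.mem_univ _, hi⟩)
    rw [← hlamdef, div_le_iff₀ (hwt' i)] at h1
    linarith
  have hlam₁ : ((log (v (x i₁)) : ℤ) : ℚ) = wt i₁ * lam := by
    rw [hlamdef, mul_div_cancel₀ _ (hwt' i₁).ne']
  have key : lam ≤ ((log V : ℤ) : ℚ) + θ := by
    by_contra hcon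
    push Not at hcon
    obtain ⟨b, c, hb, hcW, hcθ, hrel⟩ := hint i₁
    have h1 : v (x i₁ ^ b) ≤ exp (log V + ((θ : ℤ) + ⌊((b * wt i₁ - 1 : ℕ) : ℚ) * lam⌋)) := by
      rw [hrel]
      refine Valuation.map_sum_le _ fun l hl => ?_
      rw [map_mul, exp_add]
      refine mul_le_mul' ?_ (aeval_le_exp v hlam (hcW l) (hcθ l))
      rw [exp_log hV0]
      exact hVl l hl
    have hxi : v (x i₁) ≠ 0 := (Valuation.ne_zero_iff _).2 hi₁.2
    rw [map_pow, ← log_le_iff_le_exp (pow_ne_zero _ hxi), log_pow, nsmul_eq_mul] at h1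
    have h2 : ((b : ℚ) * ((log (v (x i₁)) : ℤ) : ℚ)) ≤ ((log V : ℤ) : ℚ) + (θ + ((b * wt i₁ - 1 : ℕ) : ℚ) * lam) := by
      have h3 : (((b : ℤ) * log (v (x i₁)) : ℤ) : ℚ) ≤
          ((log V + ((θ : ℤ) + ⌊((b * wt i₁ - 1 : ℕ) : ℚ) * lam⌋) : ℤ) : ℚ) := by
        exact_mod_cast h1
      push_cast at h3
      have h4 := Int.floor_le (((b * wt i₁ - 1 : ℕ) : ℚ) * lam)
      linarith
    rw [hlam₁] at h2
    have h3 : 1 ≤ b * wt i₁ := Nat.one_le_iff_ne_zero.2
      (mul_ne_zero (by omega) (by have := hwt i₁; omega))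
    have h4 : ((b * wt i₁ - 1 : ℕ) : ℚ) = b * wt i₁ - 1 := by
      rw [Nat.cast_sub h3]
      push_cast
      ring
    rw [h4] at h2
    linarith
  by_cases hi0 : x i = 0
  · rw [hi0, map_zero]
    exact zero_le
  · have hxi : v (x i) ≠ 0 := (Valuation.ne_zero_iff _).2 hi0
    have hne : V * exp (θ : ℤ) ≠ 0 := mul_ne_zero hV0 exp_ne_zero
    rw [← log_le_log hxi (pow_ne_zero _ hne), log_pow, log_mul hV0 exp_ne_zero, log_exp,
      nsmul_eq_mul]
    have h1 := hlam i hi0
    have h2 := mul_le_mul_of_nonneg_left key (hwt' i).le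
    have h3 : ((log (v (x i)) : ℤ) : ℚ) ≤ ((wt i : ℤ) * (log V + θ) : ℤ) := by
      push_cast
      linarith
    exact_mod_cast h3

end Bound

section Null

/-- the components of the product with a weighted homogeneous polynomial -/
theorem whc_mul {F σ : Type*} [Field F] {w : σ → ℕ} {P : MvPolynomial σ F} {e : ℕ}
    (hP : P.IsWeightedHomogeneous w e) (A : MvPolynomial σ F) (n : ℕ) :
    ∃ A' : MvPolynomial σ F, weightedHomogeneousComponent w n (A * P) = A' * P ∧
      (e ≤ n → A'.IsWeightedHomogeneous w (n - e)) := by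
  classical
  induction A using MvPolynomial.induction_on' with
  | monomial u a =>
    have h1 : (monomial u a : MvPolynomial σ F).IsWeightedHomogeneous w (Finsupp.weight w u) :=
      isWeightedHomogeneous_monomial w u a rfl
    have h2 := h1.mul hP
    by_cases h : Finsupp.weight w u + e = n
    · refine ⟨monomial u a, ?_, fun _ => ?_⟩
      · rw [← h]
        exact h2.weightedHomogeneousComponent_same
      · have h3 : n - e = Finsupp.weight w u := by omega
        rw [h3]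
        exact h1
    · refine ⟨0, ?_, fun _ => isWeightedHomogeneous_zero _ _ _⟩
      rw [zero_mul]
      exact h2.weightedHomogeneousComponent_ne n (Ne.symm h)
  | add p q hp hq =>
    obtain ⟨A, hA, hA'⟩ := hp
    obtain ⟨B, hB, hB'⟩ := hq
    refine ⟨A + B, ?_, fun h => (hA' h).add (hB' h)⟩
    rw [add_mul, map_add, hA, hB, add_mul]

/-- **The integral equations.** -/
theorem exists_integral_data {F : Type*} [Field F] {s s' : ℕ} {wt : Fin s → ℕ}
    (hwt : ∀ i, 1 ≤ wt i) {S : Finset (Fin s)} (hS : ∀ l ∈ S, wt l = 1)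
    {P : Fin s' → MvPolynomial (Fin s) F} {e : Fin s' → ℕ}
    (hP : ∀ t, (P t).IsWeightedHomogeneous wt (e t))
    (hX : ∀ y : Fin s → AlgebraicClosure F, (∀ l ∈ S, y l = 0) → (∀ t, aeval y (P t) = 0) →
      y = 0) (i : Fin s) :
    ∃ (b : ℕ) (A : Fin s' → MvPolynomial (Fin s) F) (c : Fin s → MvPolynomial (Fin s) F), 1 ≤ b ∧
      (∀ l, (c l).IsWeightedHomogeneous wt (b * wt i - 1)) ∧
      X i ^ b = ∑ t, A t * P t + ∑ l ∈ S, X l * c l := by
  classical
  obtain ⟨u, hu⟩ : ∃ u : Fin s' ⊕ Fin s → MvPolynomial (Fin s) F,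
    u = Sum.elim P fun l => if l ∈ S then X l else 0 := ⟨_, rfl⟩
  obtain ⟨I, hI⟩ : ∃ I : Ideal (MvPolynomial (Fin s) F), I = Ideal.span (Set.range u) := ⟨_, rfl⟩
  have huI : ∀ a, u a ∈ I := by
    intro a
    rw [hI]
    exact Ideal.subset_span ⟨a, rfl⟩
  have h1 : (X i : MvPolynomial (Fin s) F) ∈ I.radical := by
    rw [← vanishingIdeal_zeroLocus_eq_radical (K := AlgebraicClosure F) I,
      mem_vanishingIdeal_iff]
    intro y hy
    rw [mem_zeroLocus_iff] at hy
    have h2 : y = 0 := by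
      refine hX y (fun l hl => ?_) fun t => ?_
      · have h3 := hy _ (huI (Sum.inr l))
        rw [hu, Sum.elim_inr, if_pos hl, aeval_X] at h3
        exact h3
      · have h3 := hy _ (huI (Sum.inl t))
        rw [hu, Sum.elim_inl] at h3
        exact h3
    rw [aeval_X, h2]
    rfl
  obtain ⟨b', hb'⟩ := h1
  have h2 : (X i : MvPolynomial (Fin s) F) ^ (b' + 1) ∈ I := by
    rw [pow_succ]
    exact I.mul_mem_right _ hb'
  obtain ⟨b, hb⟩ : ∃ b, b = b' + 1 := ⟨_, rfl⟩
  rw [← hb] at h2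
  rw [hI, Ideal.mem_span_range_iff_exists_fun] at h2
  obtain ⟨C', hC'⟩ := h2
  have hb1 : 1 ≤ b := by omega
  have hbw : 1 ≤ b * wt i := Nat.one_le_iff_ne_zero.2
    (mul_ne_zero (by omega) (by have := hwt i; omega))
  choose A hA _ using fun t => whc_mul (hP t) (C' (Sum.inl t)) (b * wt i)
  have hXl : ∀ l, l ∈ S → (X l : MvPolynomial (Fin s) F).IsWeightedHomogeneous wt 1 := by
    intro l hl
    have h3 := isWeightedHomogeneous_X F wt l
    rwa [hS l hl] at h3
  have hB : ∀ l, ∃ B : MvPolynomial (Fin s) F, B.IsWeightedHomogeneous wt (b * wt i - 1) ∧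
      (l ∈ S → weightedHomogeneousComponent wt (b * wt i) (C' (Sum.inr l) * X l) = B * X l) := by
    intro l
    by_cases hl : l ∈ S
    · obtain ⟨B, hB, hB'⟩ := whc_mul (hXl l hl) (C' (Sum.inr l)) (b * wt i)
      exact ⟨B, hB' hbw, fun _ => hB⟩
    · exact ⟨0, isWeightedHomogeneous_zero _ _ _, fun h => absurd h hl⟩
  choose B hB hB' using hB
  refine ⟨b, A, B, hb1, hB, ?_⟩
  have h3 : weightedHomogeneousComponent wt (b * wt i) ((X i : MvPolynomial (Fin s) F) ^ b) =
      X i ^ b := by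
    have h4 := (isWeightedHomogeneous_X F wt i).pow b
    rw [smul_eq_mul] at h4
    exact h4.weightedHomogeneousComponent_same
  rw [← h3, ← hC', map_sum, Fintype.sum_sum_type]
  congr 1
  · refine Finset.sum_congr rfl fun t _ => ?_
    rw [hu]
    exact hA t
  · rw [← Finset.sum_subset (Finset.subset_univ S)]
    · refine Finset.sum_congr rfl fun l hl => ?_
      rw [hu, Sum.elim_inr, if_pos hl, hB' l hl, mul_comm]
    · intro l _ hl
      rw [hu, Sum.elim_inr, if_neg hl, mul_zero, map_zero]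

end Null

end Pool.Agent.Lib.MP_44a246_ntMS
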