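import Mathlib
import Pool.Agent.Lib.MP_44a246_ntMS.MS04
import Pool.Agent.Lib.MP_44a246_ntMS.MW01
import Pool.Agent.Lib.MP_44a246_ntMS.MW04

/-!
The height inequality for the points with weighted coordinates over finite extensions of a function
field.
-/

namespace Pool.Agent.Lib.MP_44a246_ntMS

open Pool.Agent.Lib.MP_44a246_nt
open Pool.Agent.Lib.MP_44a246_ntL
open Pool.Agent.Lib.MP_44a246_ntX
open Pool.Agent.Lib.MP_e52354_ntMR
open Pool.Agent.Lib.MP_44a246_ntR (imI)
open WithZero MvPolynomial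

/-- the support of a function with natural values -/
theorem supp_cast {τ : Type*} {A : τ → ℕ} (hA : (Function.support A).Finite) :
    (Function.support fun v : τ => (A v : ℤ)).Finite := by
  refine hA.subset fun w hw h1 => hw ?_
  simp only at h1 ⊢
  rw [h1, Nat.cast_zero]

/-- **The height inequality** for the points over a finite extension. -/
theorem height_overW {κ K L : Type*} [Field κ] [IsAlgClosed κ] [CharZero κ] [Field K] [CharZero K]
    [Algebra κ K] (hK : IsFF κ K) [Field L] [CharZero L] [Algebra K L] [FiniteDimensional K L]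
    [Algebra κ L] [IsScalarTower κ K L] {k₀ : Type*} [Field k₀] [CharZero k₀] [Algebra k₀ K]
    [Algebra k₀ L] [IsScalarTower k₀ K L] {T : Type*} [Fintype T] {DK : T → Derivation ℤ K K}
    {B A Θ : Place κ K → ℕ} (hB : (Function.support B).Finite) (hA : (Function.support A).Finite)
    (hΘ : (Function.support Θ).Finite)
    (hPB : ∀ I, PoleBound κ (DK I) B) (hDk : ∀ I, ∀ c : k₀, DK I (algebraMap k₀ K c) = 0)
    {n q p r J s : ℕ} {d : Fin p → ℕ} {wt : Fin q → ℕ} (hwt : ∀ i, 1 ≤ wt i) {e : Fin s → ℕ}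
    {j₁ : Fin p} {ι : Fin n → Fin q} (hι : Function.Injective ι) (hwι : ∀ l, wt (ι l) = 1)
    {f : Fin s → MvPolynomial (Fin p ⊕ Fin q) k₀}
    (hf : ∀ i, (f i).IsWeightedHomogeneous (Sum.elim d wt) (e i))
    (hdim : ringKrullDim (MvPolynomial (Fin q) k₀ ⧸ imI f) ≤ ((r + 1 : ℕ) : ℕ))
    {H : Fin p → MvPolynomial (Fin n) K} (hH : ∀ j, (H j).IsHomogeneous (d j))
    {lam : T → MvPolynomial (Fin n) K}
    (hlam : ∀ I α (v : Place κ K), v.1 (coeff α (lam I)) ≤ exp (A v : ℤ))
    {g₀ : MvPolynomial (Fin n) (MvPolynomial (Fin n) K)}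
    (hrel : ∀ j m, ∑ I, lam I * C (DK I (coeff m (H j))) =
      if j = j₁ then coeff m (lin K n ^ J * g₀) else 0)
    {b : Fin q → ℕ} (hb : ∀ i, 1 ≤ b i) {R : Fin q → Fin s → MvPolynomial (Fin q) K}
    {cc : Fin q → Fin q → MvPolynomial (Fin q) K}
    (hcw : ∀ i l, (cc i l).IsWeightedHomogeneous wt (b i * wt i - 1))
    (hcΘ : ∀ i l α (v : Place κ K), v.1 (coeff α (cc i l)) ≤ exp (Θ v : ℤ))
    (hint : ∀ i, (X i : MvPolynomial (Fin q) K) ^ b i =
      ∑ t, R i t * aeval (Sum.elim (fun j => rename ι (H j)) X :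
        Fin p ⊕ Fin q → MvPolynomial (Fin q) K) (f t) +
        ∑ l ∈ Finset.univ.image ι, X l * cc i l)
    {g : MvPolynomial (Fin p ⊕ Fin q) k₀} {e' : ℕ}
    (hg : g.IsWeightedHomogeneous (Sum.elim d wt) e')
    {α : Fin n →₀ ℕ} {j₀ : Fin n} {x : Fin q → L} (hx : x (ι j₀) = 1)
    (hzf : ∀ i, aeval (Sum.elim (fun j => aeval (fun l => x (ι l)) (H j)) x :
      Fin p ⊕ Fin q → L) (f i) = 0)
    (hzg : aeval (Sum.elim (fun j => aeval (fun l => x (ι l)) (H j)) x : Fin p ⊕ Fin q → L) g = 0)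
    (hdg : aeval (Sum.elim (fun j => aeval (fun l => x (ι l)) (H j)) x : Fin p ⊕ Fin q → L)
      (pderiv (Sum.inl j₁) g) ≠ 0) (hgA : aeval (fun l => x (ι l)) (coA α g₀) ≠ 0) :
    (∀ i (w : Place κ L), w.1 (x i) ≤ (vmax w.1 (fun l => x (ι l)) *
      exp ((ramIdx K w.1 * Θ (below K w) : ℕ) : ℤ)) ^ wt i) ∧
    ((J : ℤ) - 2 * r - ∑ i, ((wt i - 1 : ℕ) : ℤ)) * height κ (fun l => x (ι l)) ≤
      ramDeg κ L K + r * (Module.finrank K L * (∑ᶠ v, (B v : ℤ) + ∑ᶠ v, (A v : ℤ))) +
      (r + 1 + ∑ i, ((wt i - 1 : ℕ) : ℤ)) * (Module.finrank K L * ∑ᶠ v, (Θ v : ℤ)) := by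
  classical
  have hL : IsFF κ L := hK.of_finite
  choose D' hD' using fun I => exists_extension (L := L) (DK I)
  have hYk : ∀ I, ∀ c : k₀, D' I (algebraMap k₀ L c) = 0 := by
    intro I c
    rw [IsScalarTower.algebraMap_apply k₀ K L, hD', hDk, map_zero]
  obtain ⟨S, hS⟩ : ∃ S : Finset (Fin q), S = Finset.univ.image ι := ⟨_, rfl⟩
  -- the forms in the larger set of variables
  have hHx : ∀ j, aeval x (rename ι (H j)) = aeval (fun l => x (ι l)) (H j) := by
    intro j
    rw [aeval_rename]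
    rfl
  have hHx' : (fun j => aeval x (rename ι (H j))) = fun j => aeval (fun l => x (ι l)) (H j) :=
    funext hHx
  have hHw : ∀ j, (rename ι (H j)).IsWeightedHomogeneous wt (d j) := by
    intro j m hm
    obtain ⟨m₀, rfl, hm₀⟩ := coeff_rename_ne_zero ι (H j) m hm
    have h1 := hH j hm₀
    rw [Finsupp.weight_apply, Finsupp.sum_fintype _ _ (fun _ => by simp)] at h1
    rw [Finsupp.weight_apply, Finsupp.sum_mapDomain_index (fun _ => by simp)
      (fun _ _ _ => by rw [add_smul]), Finsupp.sum_fintype _ _ (fun _ => by simp), ← h1]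
    refine Finset.sum_congr rfl fun l _ => ?_
    rw [hwι]
    rfl
  have hrel' := rel_rename hrel hι
  rw [← hS] at hrel'
  -- the equations
  have hzf' : ∀ i, aeval (Sum.elim (fun j => aeval x (rename ι (H j))) x : Fin p ⊕ Fin q → L)
      (f i) = 0 := by
    intro i
    rw [hHx']
    exact hzf i
  have hval : ∀ t, aeval x (aeval (Sum.elim (fun j => rename ι (H j)) X :
      Fin p ⊕ Fin q → MvPolynomial (Fin q) K) (f t)) = 0 := by
    intro t
    rw [← hzf' t]
    have h1 := aeval_subH (k₀ := k₀) (L := K) (M := L) (fun j => rename ι (H j)) (f t) x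
    exact h1
  -- the bound of the coordinates
  have hcoef : ∀ i l α (w : Place κ L), w.1 (coeff α (map (algebraMap K L) (cc i l))) ≤
      exp ((ramIdx K w.1 * Θ (below K w) : ℕ) : ℤ) := by
    intro i l β w
    rw [coeff_map, below_pow]
    have h1 := pow_le_pow_left' (hcΘ i l β (below K w)) (ramIdx K w.1)
    refine h1.trans (le_of_eq ?_)
    rw [← exp_nsmul, nsmul_eq_mul]
    push_cast
    rfl
  have hbound : ∀ i (w : Place κ L), w.1 (x i) ≤ (vmax w.1 (resS S x) *
      exp ((ramIdx K w.1 * Θ (below K w) : ℕ) : ℤ)) ^ wt i := by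
    intro i w
    refine weight_bound w.1 hwt (S := S) (j₀ := ι j₀) (by
      rw [hS]
      exact Finset.mem_image_of_mem _ (Finset.mem_univ _)) hx (fun i' => ?_) i
    refine ⟨b i', fun l => map (algebraMap K L) (cc i' l), hb i', fun l m hm => ?_,
      fun l m => hcoef i' l m w, ?_⟩
    · refine hcw i' l ?_
      intro h0
      apply hm
      rw [coeff_map, h0, map_zero]
    · have h1 := congrArg (aeval x) (hint i')
      rw [map_pow, aeval_X, map_add, map_sum, map_sum] at h1
      rw [h1]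
      have h2 : ∑ t, aeval x (R i' t * aeval (Sum.elim (fun j => rename ι (H j)) X :
          Fin p ⊕ Fin q → MvPolynomial (Fin q) K) (f t)) = 0 :=
        Finset.sum_eq_zero fun t _ => by rw [map_mul, hval, mul_zero]
      rw [h2, zero_add, ← hS]
      refine Finset.sum_congr rfl fun l _ => ?_
      rw [map_mul, aeval_X, aeval_map_algebraMap]
  refine ⟨fun i w => ?_, ?_⟩
  · have h1 := hbound i w
    rwa [hS, vmax_resS] at h1
  obtain ⟨φ, g', q', jj, c, hφx, hg', hq, hφy, hc⟩ := relation_dataW (S := S) hD' hYk hf hdim hHw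
    hrel' hg (hwι j₀) hx hzf' (by rw [hHx']; exact hzg) (by rw [hHx']; exact hdg)
    (α := α.mapDomain ι) (by
      rw [coA_ren2 hι, aeval_rename]
      exact hgA)
  have hfs : ∀ {A : Place κ K → ℕ}, (Function.support A).Finite →
      (Function.support fun w : Place κ L => ramIdx K w.1 * A (below K w)).Finite := by
    intro A hA
    refine (mason_sum_over (L := L) hL hA).1.subset ?_
    intro w hw
    rw [Function.mem_support] at hw ⊢
    exact_mod_cast hw
  have hfs2 : (Function.support fun w : Place κ L => ramIdx K w.1 - 1).Finite := by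
    refine (mason_sum_ram (K := K) hL).1.subset ?_
    intro w hw
    rw [Function.mem_support] at hw ⊢
    exact_mod_cast hw
  have hz : resS S x (ι j₀) = 1 := by
    unfold resS
    rw [if_pos (by rw [hS]; exact Finset.mem_image_of_mem _ (Finset.mem_univ _)), hx]
  have hmain := height_ineqW (κ := κ) hL (D := D') (hfs hB) hfs2 (hfs hA) (hfs hΘ)
    (minor_over hK (s := Set.univ) (fun I _ => hPB I) hD')
    (lam := fun I => map (algebraMap K L) (rename ι (lam I))) (fun I β w => by
      rw [coeff_map, below_pow]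
      have h0 : (below K w).1 (coeff β (rename ι (lam I))) ≤ exp (A (below K w) : ℤ) := by
        by_cases hβ : ∃ β₀ : Fin n →₀ ℕ, β₀.mapDomain ι = β
        · obtain ⟨β₀, rfl⟩ := hβ
          rw [coeff_rename_mapDomain ι hι]
          exact hlam I β₀ (below K w)
        · push Not at hβ
          rw [coeff_rename_eq_zero ι _ β fun u hu => absurd hu (hβ u), map_zero]
          exact zero_le
      have h1 := pow_le_pow_left' h0 (ramIdx K w.1)
      refine h1.trans (le_of_eq ?_)
      rw [← exp_nsmul, nsmul_eq_mul]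
      push_cast
      rfl) hwt hx hz hbound hφx hg' hφy hq c jj hc
  have e1 : ∀ {A : Place κ K → ℕ}, (Function.support A).Finite →
      ∑ᶠ w : Place κ L, ((ramIdx K w.1 * A (below K w) : ℕ) : ℤ) =
      Module.finrank K L * ∑ᶠ v, (A v : ℤ) := by
    intro A hA
    rw [← finsum_ramIdx_mul hL (supp_cast hA)]
    simp only [Nat.cast_mul]
  rw [e1 hB, e1 hA, e1 hΘ, ← ramDeg_eq hL, ← mul_add, hS, height_resS] at hmain
  exact hmain

end Pool.Agent.Lib.MP_44a246_ntMS
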