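import Mathlib
import Pool.Agent.Lib.MP_44a246_ntMS.MS05
import Pool.Agent.Lib.MP_44a246_ntMS.MW05

/-!
The height inequality for the points with weighted coordinates outside the common zeros of the
forms `G`.
-/

namespace Pool.Agent.Lib.MP_44a246_ntMS

open Pool.Agent.Lib.MP_44a246_nt
open Pool.Agent.Lib.MP_44a246_ntL
open Pool.Agent.Lib.MP_44a246_ntX
open Pool.Agent.Lib.MP_e52354_ntMR
open Pool.Agent.Lib.MP_44a246_ntR (imI)
open Pool.Agent.Lib.MP_e52354_ntSD (GenK dim_le_of_few)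
open WithZero MvPolynomial

universe u v w x

/-- the height of the vector of all coordinates of a normalised point -/
theorem height_le_affine {κ L : Type*} [Field κ] [IsAlgClosed κ] [CharZero κ] [Field L]
    [Algebra κ L] (hL : IsFF κ L) {q n : ℕ} {wt : Fin q → ℕ} {ω : ℕ} (hω : ∀ i, wt i ≤ ω)
    {ι : Fin n → Fin q} {x : Fin q → L} {j₀ : Fin n} (hx : x (ι j₀) = 1) {θ : Place κ L → ℕ}
    (hθ : (Function.support θ).Finite)
    (hb : ∀ i (w : Place κ L), w.1 (x i) ≤ (vmax w.1 (fun l => x (ι l)) * exp (θ w : ℤ)) ^ wt i) :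
    height κ x ≤ ω * (height κ (fun l => x (ι l)) + ∑ᶠ w, (θ w : ℤ)) := by
  classical
  have hx0 : x ≠ 0 := by
    intro h0
    rw [h0] at hx
    exact zero_ne_one hx
  have hz0 : (fun l => x (ι l)) ≠ 0 := by
    intro h0
    have h1 := congrFun h0 j₀
    simp only [hx] at h1
    exact one_ne_zero h1
  have hloc : ∀ w : Place κ L, log (vmax w.1 x) ≤
      ω * (log (vmax w.1 fun l => x (ι l)) + (θ w : ℤ)) := by
    intro w
    obtain ⟨i, hi, hmax, -⟩ := exists_vmax w.1 hx0
    obtain ⟨V, hV⟩ : ∃ V, V = vmax w.1 fun l => x (ι l) := ⟨_, rfl⟩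
    have hV1 : 1 ≤ V := by
      rw [hV]
      have h1 := Finset.le_sup (f := fun l => w.1 (x (ι l))) (Finset.mem_univ j₀)
      simp only [hx, map_one] at h1
      exact h1
    have hV0 : V ≠ 0 := fun h => by
      rw [h] at hV1
      exact absurd hV1 (by simp)
    have hZ : 0 ≤ log V := by
      have h1 := (log_le_log one_ne_zero hV0).2 hV1
      rwa [log_one] at h1
    have h1 := hb i w
    rw [← hV] at h1 ⊢
    have hxi : w.1 (x i) ≠ 0 := (Valuation.ne_zero_iff _).2 hi
    have hne : V * exp (θ w : ℤ) ≠ 0 := mul_ne_zero hV0 exp_ne_zero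
    rw [← log_le_log hxi (pow_ne_zero _ hne), log_pow, log_mul hV0 exp_ne_zero, log_exp,
      nsmul_eq_mul] at h1
    rw [hmax]
    refine h1.trans ?_
    have h2 : (0 : ℤ) ≤ log V + (θ w : ℤ) := by positivity
    have h3 : (wt i : ℤ) ≤ ω := by exact_mod_cast hω i
    exact mul_le_mul_of_nonneg_right h3 h2
  have s1 := hL.vmax_support hx0
  have s2 := hL.vmax_support hz0
  have s3 := supp_cast hθ
  have s23 : (Function.support fun w : Place κ L =>
      log (vmax w.1 fun l => x (ι l)) + (θ w : ℤ)).Finite :=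
    (s2.union s3).subset (Function.support_add _ _)
  have s23' : (Function.support fun w : Place κ L =>
      (ω : ℤ) * (log (vmax w.1 fun l => x (ι l)) + (θ w : ℤ))).Finite := by
    refine s23.subset fun w hw h1 => hw ?_
    simp only at h1 ⊢
    rw [h1, mul_zero]
  have h1 := finsum_mono s1 s23' hloc
  rw [← mul_finsum _ _, finsum_add_distrib s2 s3] at h1
  exact h1

/-- substitution of weighted homogeneous polynomials -/
theorem wh_aeval {k₀ K σ τ : Type*} [Field k₀] [Field K] [Algebra k₀ K] [Fintype σ] {w : σ → ℕ}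
    {w' : τ → ℕ} {f : MvPolynomial σ k₀} {e : ℕ} (hf : f.IsWeightedHomogeneous w e)
    {y : σ → MvPolynomial τ K} (hy : ∀ i, (y i).IsWeightedHomogeneous w' (w i)) :
    (aeval y f).IsWeightedHomogeneous w' e := by
  classical
  rw [aeval_def, eval₂_eq']
  refine IsWeightedHomogeneous.sum _ _ _ fun m hm => ?_
  have h1 : (algebraMap k₀ (MvPolynomial τ K) (coeff m f)).IsWeightedHomogeneous w' 0 := by
    rw [IsScalarTower.algebraMap_apply k₀ K (MvPolynomial τ K)]
    exact isWeightedHomogeneous_C _ _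
  have h2 : (∏ i, y i ^ m i).IsWeightedHomogeneous w' (∑ i, m i • w i) :=
    IsWeightedHomogeneous.prod _ _ _ fun i _ => (hy i).pow (m i)
  have h3 := h1.mul h2
  rw [zero_add] at h3
  have h4 : ∑ i, m i • w i = e := by
    rw [← hf (mem_support_iff.1 hm), Finsupp.weight_apply,
      Finsupp.sum_fintype _ _ (fun _ => by simp)]
  rw [← h4]
  exact h3

theorem rename_wh {K : Type*} [Field K] {n q : ℕ} {wt : Fin q → ℕ} {ι : Fin n → Fin q}
    (hwι : ∀ l, wt (ι l) = 1) {P : MvPolynomial (Fin n) K} {d : ℕ} (hP : P.IsHomogeneous d) :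
    (rename ι P).IsWeightedHomogeneous wt d := by
  intro m hm
  obtain ⟨m₀, rfl, hm₀⟩ := coeff_rename_ne_zero ι P m hm
  have h1 := hP hm₀
  rw [Finsupp.weight_apply, Finsupp.sum_fintype _ _ (fun _ => by simp)] at h1
  rw [Finsupp.weight_apply, Finsupp.sum_mapDomain_index (fun _ => by simp)
    (fun _ _ _ => by rw [add_smul]), Finsupp.sum_fintype _ _ (fun _ => by simp), ← h1]
  refine Finset.sum_congr rfl fun l _ => ?_
  rw [hwι]
  rfl

/-- normalisation of a point, and the order of vanishing -/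
theorem normalise_pointW {k₀ K L : Type*} [Field k₀] [Field K] [Field L] [CharZero L]
    [Algebra k₀ L] [Algebra K L] {n q p s a t : ℕ} {d : Fin p → ℕ} {wt : Fin q → ℕ}
    {e : Fin s → ℕ} {j₁ : Fin p} {f : Fin s → MvPolynomial (Fin p ⊕ Fin q) k₀}
    (hf : ∀ i, (f i).IsWeightedHomogeneous (Sum.elim d wt) (e i))
    {H : Fin p → MvPolynomial (Fin n) K} (hH : ∀ j, (H j).IsHomogeneous (d j))
    {G : Fin t → MvPolynomial (Fin n) K} (hG : ∀ l, (G l).IsHomogeneous a)
    {ι : Fin n → Fin q} (hwι : ∀ l, wt (ι l) = 1)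
    {v : Fin q → L} (hv : (fun l => v (ι l)) ≠ 0)
    (hvf : ∀ i, aeval (Sum.elim (fun j => aeval (fun l => v (ι l)) (H j)) v :
      Fin p ⊕ Fin q → L) (f i) = 0) {i : Fin s} {τ : L}
    (hτ : aeval (Sum.elim (Function.update (fun j => aeval (fun l => v (ι l)) (H j)) j₁ τ) v :
      Fin p ⊕ Fin q → L) (f i) ≠ 0) {l : Fin t} (hl : aeval (fun l => v (ι l)) (G l) ≠ 0) :
    ∃ (c : L) (j₀ : Fin n) (b : ℕ) (x : Fin q → L), c ≠ 0 ∧
      (x = fun j => c ^ wt j * v j) ∧ x (ι j₀) = 1 ∧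
      (∀ i', aeval (Sum.elim (fun j => aeval (fun l => x (ι l)) (H j)) x : Fin p ⊕ Fin q → L)
        (f i') = 0) ∧
      aeval (Sum.elim (fun j => aeval (fun l => x (ι l)) (H j)) x : Fin p ⊕ Fin q → L)
        ((fun g => pderiv (Sum.inl j₁) g)^[b] (f i)) = 0 ∧
      aeval (Sum.elim (fun j => aeval (fun l => x (ι l)) (H j)) x : Fin p ⊕ Fin q → L)
        (pderiv (Sum.inl j₁) ((fun g => pderiv (Sum.inl j₁) g)^[b] (f i))) ≠ 0 ∧
      aeval (fun l => x (ι l)) (G l) ≠ 0 := by
  classical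
  obtain ⟨j₀, hj₀⟩ : ∃ j₀, v (ι j₀) ≠ 0 := by
    by_contra hcon
    push Not at hcon
    exact hv (funext hcon)
  obtain ⟨c, hc⟩ : ∃ c, c = (v (ι j₀))⁻¹ := ⟨_, rfl⟩
  have hc0 : c ≠ 0 := by rw [hc]; exact inv_ne_zero hj₀
  obtain ⟨x, hx⟩ : ∃ x : Fin q → L, x = fun i => c ^ wt i * v i := ⟨_, rfl⟩
  have hxι : (fun l => x (ι l)) = fun l => c * v (ι l) := by
    funext l
    rw [hx]
    show c ^ wt (ι l) * v (ι l) = c * v (ι l)
    rw [hwι, pow_one]
  have hhom : ∀ {Q : MvPolynomial (Fin n) K} {E : ℕ}, Q.IsHomogeneous E →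
      aeval (fun l => x (ι l)) Q = c ^ E * aeval (fun l => v (ι l)) Q := by
    intro Q E hQ
    have h1 := aeval_smul_weighted (k₀ := K) (k := L) (w := 1) (n := E) hQ c fun l => v (ι l)
    simp only [Pi.one_apply, pow_one] at h1
    rw [hxι]
    exact h1
  have hHx : ∀ j, aeval (fun l => x (ι l)) (H j) = c ^ d j * aeval (fun l => v (ι l)) (H j) :=
    fun j => hhom (hH j)
  have hfx : ∀ (i : Fin s) (h : Fin p → L),
      aeval (Sum.elim (fun j => c ^ d j * h j) x : Fin p ⊕ Fin q → L) (f i) =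
        c ^ e i * aeval (Sum.elim h v : Fin p ⊕ Fin q → L) (f i) := by
    intro i h
    rw [← aeval_smul_weighted (hf i) c (Sum.elim h v)]
    congr 2
    funext j
    rcases j with j | j
    · rfl
    · show x j = c ^ wt j * v j
      rw [hx]
  have hHx' : (fun j => aeval (fun l => x (ι l)) (H j)) =
      fun j => c ^ d j * aeval (fun l => v (ι l)) (H j) := funext hHx
  have hxj : x (ι j₀) = 1 := by
    rw [hx, hc]
    show ((v (ι j₀))⁻¹) ^ wt (ι j₀) * v (ι j₀) = 1
    rw [hwι, pow_one]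
    exact inv_mul_cancel₀ hj₀
  have hz : ∀ i', aeval (Sum.elim (fun j => aeval (fun l => x (ι l)) (H j)) x :
      Fin p ⊕ Fin q → L) (f i') = 0 := by
    intro i'
    rw [hHx', hfx, hvf, mul_zero]
  have hup : aeval (Function.update (Sum.elim (fun j => aeval (fun l => x (ι l)) (H j)) x :
      Fin p ⊕ Fin q → L) (Sum.inl j₁) (c ^ d j₁ * τ)) (f i) ≠ 0 := by
    have h1 : Function.update (Sum.elim (fun j => aeval (fun l => x (ι l)) (H j)) x :
        Fin p ⊕ Fin q → L) (Sum.inl j₁) (c ^ d j₁ * τ) =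
        Sum.elim (fun j => c ^ d j *
          Function.update (fun j => aeval (fun l => v (ι l)) (H j)) j₁ τ j) x := by
      funext j
      rcases j with j | j
      · by_cases hj : j = j₁
        · subst hj
          rw [Function.update_self, Sum.elim_inl, Function.update_self]
        · rw [Function.update_of_ne (by simpa using hj), Sum.elim_inl, Sum.elim_inl,
            Function.update_of_ne hj, hHx]
      · rw [Function.update_of_ne (by simp)]
        rfl
    rw [h1, hfx]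
    exact mul_ne_zero (pow_ne_zero _ hc0) hτ
  obtain ⟨b, -, hb1, hb2⟩ := exists_deriv (f i) (Sum.inl j₁) _ (hz i) hup
  rw [Function.iterate_succ_apply'] at hb2
  refine ⟨c, j₀, b, x, hc0, hx, hxj, hz, hb1, hb2, ?_⟩
  rw [hhom (hG l)]
  exact mul_ne_zero (pow_ne_zero _ hc0) hl

/-- the theorem for a field of definition of finite transcendence degree -/
theorem many_relations_coreW {κ : Type u} {K : Type v} [Field κ] [IsAlgClosed κ] [CharZero κ]
    [Field K] [CharZero K] [Algebra κ K] (hK : IsFF κ K) {k₀ : Type x} [Field k₀] [CharZero k₀]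
    [Algebra k₀ K] (htk : Algebra.trdeg ℚ k₀ < Cardinal.aleph0) {N n q p a c m J s ω : ℕ}
    {d : Fin p → ℕ} {wt : Fin q → ℕ} (hwt : ∀ i, 1 ≤ wt i) (hω : ∀ i, wt i ≤ ω)
    {e : Fin s → ℕ} {j₁ : Fin p} (hJ : d j₁ = J + a)
    (hc : c < (m + a).choose m) {ι : Fin (N + 1) → Fin q} (hι : Function.Injective ι)
    (hwι : ∀ l, wt (ι l) = 1) (f : Fin s → MvPolynomial (Fin p ⊕ Fin q) k₀)
    (hf : ∀ i, (f i).IsWeightedHomogeneous (Sum.elim d wt) (e i))
    (hdim : ringKrullDim (MvPolynomial (Fin q) k₀ ⧸ imI f) ≤ ((n + 1 : ℕ) : ℕ))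
    (H : Fin p → MvPolynomial (Fin (N + 1)) K) (hH : ∀ j, (H j).IsHomogeneous (d j))
    (hgen : GenK k₀ d H c)
    (hX : ∀ y : Fin q → AlgebraicClosure K, (∀ l, y (ι l) = 0) →
      (∀ i, aeval (Sum.elim (fun j => aeval (fun l => y (ι l)) (H j)) y :
        Fin p ⊕ Fin q → AlgebraicClosure K) (f i) = 0) → y = 0) :
    ∃ (t : ℕ) (G : Fin t → MvPolynomial (Fin (N + 1)) K), (∀ i, (G i).IsHomogeneous a) ∧
      ringKrullDim (MvPolynomial (Fin (N + 1)) K ⧸ Ideal.span (Set.range G)) ≤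
        (m : WithBot ℕ∞) ∧
      ∃ B : ℕ, ∀ (L : Type w) [Field L] [Algebra K L] [FiniteDimensional K L] [Algebra κ L]
        [IsScalarTower κ K L] [Algebra k₀ L] [IsScalarTower k₀ K L] (x : Fin q → L),
        (fun l => x (ι l)) ≠ 0 →
        (∀ i, aeval (Sum.elim (fun j => aeval (fun l => x (ι l)) (H j)) x : Fin p ⊕ Fin q → L)
          (f i) = 0) →
        (∃ (i : Fin s) (τ : L), aeval (Sum.elim (Function.update
          (fun j => aeval (fun l => x (ι l)) (H j)) j₁ τ) x : Fin p ⊕ Fin q → L) (f i) ≠ 0) →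
        (∃ l, aeval (fun l => x (ι l)) (G l) ≠ 0) →
        ((J : ℤ) - 2 * n - ∑ i, ((wt i - 1 : ℕ) : ℤ)) * height κ (fun l => x (ι l)) ≤
          ramDeg κ L K + B * Module.finrank K L ∧
        ∃ (c : L) (j₀ : Fin (N + 1)), c * x (ι j₀) = 1 ∧
          height κ (fun i => c ^ wt i * x i) ≤
            ω * (height κ (fun l => x (ι l)) + B * Module.finrank K L) := by
  classical
  by_cases hm : N + 1 ≤ m
  · refine ⟨0, Fin.elim0, fun i => i.elim0, ?_, 0, ?_⟩
    · refine dim_le_of_few fun σ => ?_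
      obtain ⟨i, j, hij, hσ⟩ := Fintype.exists_ne_map_eq_of_card_lt σ (by
        rw [Fintype.card_fin, Fintype.card_fin]
        omega)
      refine ⟨X i - X j, ?_, ?_⟩
      · rw [sub_ne_zero]
        exact fun h => hij (X_injective h)
      · rw [map_sub, rename_X, rename_X, hσ, sub_self]
        exact Ideal.zero_mem _
    · rintro L _ _ _ _ _ _ _ x - - - ⟨l, -⟩
      exact l.elim0
  -- the field of the coefficients
  have hE : Finite {I : Fin p × (Fin (N + 1) →₀ ℕ) // I.2.degree = d I.1} := finite_idx d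
  obtain ⟨z, hz⟩ : ∃ z : {I : Fin p × (Fin (N + 1) →₀ ℕ) // I.2.degree = d I.1} → K,
    z = fun I => (H I.1.1).coeff I.1.2 := ⟨_, rfl⟩
  obtain ⟨F, hF⟩ : ∃ F : IntermediateField k₀ K, F = IntermediateField.adjoin k₀ (Set.range z) :=
    ⟨_, rfl⟩
  unfold GenK at hgen
  rw [← hz, ← hF] at hgen
  obtain ⟨zF, hzF⟩ : ∃ zF : {I : Fin p × (Fin (N + 1) →₀ ℕ) // I.2.degree = d I.1} → F,
      ∀ I, (zF I : K) = z I := ⟨fun I => ⟨z I, by
        rw [hF]
        exact IntermediateField.subset_adjoin k₀ _ ⟨I, rfl⟩⟩, fun _ => rfl⟩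
  obtain ⟨T, hTc, hind, -⟩ := exists_trbasis zF (adjoin_range_top z hF zF hzF) hgen
  have hindK : AlgebraicIndependent k₀ (fun I : T => z I) := by
    have h1 := hind.map' (f := F.val) F.val.injective
    have h2 : (F.val ∘ fun I : T => zF I) = fun I : T => z I := funext fun I => hzF I
    rw [h2] at h1
    exact h1
  obtain ⟨DK, B, hB, hPB, hD, hDk⟩ := exists_ders hK htk hindK
  have hex := fun σ : Fin (m + 1) → Fin (N + 1) =>
    exists_relation (R := K) hJ hc σ T hTc (fun I I' => DK I (z I')) hD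
  choose g hg0 hgh hgr using hex
  have hα := fun σ : Fin (m + 1) → Fin (N + 1) => exists_coA_ne (hg0 σ)
  choose α hα using hα
  have hlinh : ∀ σ : Fin (m + 1) → Fin (N + 1),
      (lin K (N + 1) ^ J * rename σ (g σ)).IsHomogeneous (J + a) := by
    intro σ
    have h1 := ((lin_isHomogeneous (K := K) (N + 1)).pow J).mul
      ((hgh σ).rename_isHomogeneous (f := σ))
    rw [one_mul] at h1
    exact h1
  obtain ⟨lam, hlam⟩ : ∃ lam : (Fin (m + 1) → Fin (N + 1)) → T → MvPolynomial (Fin (N + 1)) K,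
    lam = fun σ I => if I.1.1.1 = j₁ then
      coeff I.1.1.2 (lin K (N + 1) ^ J * rename σ (g σ)) else 0 := ⟨_, rfl⟩
  have hrel : ∀ (σ : Fin (m + 1) → Fin (N + 1)) (j : Fin p) (m' : Fin (N + 1) →₀ ℕ),
      ∑ I : T, lam σ I * C (DK I (coeff m' (H j))) =
      if j = j₁ then coeff m' (lin K (N + 1) ^ J * rename σ (g σ)) else 0 := by
    intro σ j m'
    rw [hlam]
    by_cases h : m'.degree = d j
    · have h1 := hgr σ ⟨(j, m'), h⟩
      rw [hz] at h1
      exact h1
    · rw [(hH j).coeff_eq_zero h]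
      simp only [map_zero, mul_zero, Finset.sum_const_zero]
      split_ifs with hj
      · rw [(hlinh σ).coeff_eq_zero]
        rw [← hJ, ← hj]
        exact h
      · rfl
  choose A hA hAb using fun σ => exists_poly_bound hK (lam σ)
  -- the integral equations
  have hHx : ∀ (j : Fin p) (y : Fin q → AlgebraicClosure K), aeval y (rename ι (H j)) =
      aeval (fun l => y (ι l)) (H j) := by
    intro j y
    rw [aeval_rename]
    rfl
  have hPw : ∀ t, (aeval (Sum.elim (fun j => rename ι (H j)) X :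
      Fin p ⊕ Fin q → MvPolynomial (Fin q) K) (f t)).IsWeightedHomogeneous wt (e t) := by
    intro t
    refine wh_aeval (hf t) fun i => ?_
    rcases i with j | i
    · exact rename_wh hwι (hH j)
    · exact isWeightedHomogeneous_X K wt i
  have hint := exists_integral_data (F := K) hwt (S := Finset.univ.image ι) (by
      intro l hl
      obtain ⟨l', -, rfl⟩ := Finset.mem_image.1 hl
      exact hwι l') hPw (fun y hyl hyP => by
        refine hX y (fun l => hyl _ (Finset.mem_image_of_mem _ (Finset.mem_univ l))) fun i => ?_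
        rw [← hyP i]
        have h1 := aeval_subH (k₀ := k₀) (L := K) (M := AlgebraicClosure K)
          (fun j => rename ι (H j)) (f i) y
        have h2 : (fun j => aeval y (rename ι (H j))) = fun j => aeval (fun l => y (ι l)) (H j) :=
          funext fun j => hHx j y
        rw [h2] at h1
        exact h1.symm)
  choose b R cc hb hcw hint using hint
  obtain ⟨Θ, hΘ, hΘb⟩ := exists_poly_bound hK (fun il : Fin q × Fin q => cc il.1 il.2)
  -- the forms `G`
  let eq := Fintype.equivFin (Fin (m + 1) → Fin (N + 1))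
  obtain ⟨G, hG⟩ : ∃ G : Fin (Fintype.card (Fin (m + 1) → Fin (N + 1))) →
      MvPolynomial (Fin (N + 1)) K,
      G = fun i => coA (α (eq.symm i)) (rename (eq.symm i) (g (eq.symm i))) := ⟨_, rfl⟩
  have hGh : ∀ i, (G i).IsHomogeneous a := by
    intro i
    rw [hG]
    exact coA_isHomogeneous _ (hgh _).rename_isHomogeneous
  obtain ⟨W, hW⟩ : ∃ W : (Fin (m + 1) → Fin (N + 1)) → ℤ,
    W = fun σ => n * (∑ᶠ v, (B v : ℤ) + ∑ᶠ v, (A σ v : ℤ)) +
      (n + 1 + ∑ i, ((wt i - 1 : ℕ) : ℤ)) * ∑ᶠ v, (Θ v : ℤ) := ⟨_, rfl⟩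
  refine ⟨_, G, hGh, ?_, ∑ σ, (W σ).toNat + (∑ᶠ v, (Θ v : ℤ)).toNat, ?_⟩
  · refine dim_le_of_few fun σ => ⟨coA (α σ) (g σ), hα σ, ?_⟩
    refine Ideal.subset_span ⟨eq σ, ?_⟩
    rw [hG]
    simp only [Equiv.symm_apply_apply]
    rw [coA_rename]
  · intro L _ _ _ _ _ _ _ v hv hvf ⟨i, τ, hτ⟩ ⟨l, hl⟩
    have hLc : CharZero L := charZero_of_injective_algebraMap (algebraMap K L).injective
    have hL : IsFF κ L := hK.of_finite
    obtain ⟨c', j₀, b', x, hc0, hx, hx1, hxf, hxg, hxd, hxG⟩ :=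
      normalise_pointW (j₁ := j₁) hf hH hGh hwι hv hvf hτ hl
    obtain ⟨e', he'⟩ := exists_wh_iterate (w := (Sum.elim d wt : Fin p ⊕ Fin q → ℕ))
      (Sum.inl j₁) b' (hf i)
    obtain ⟨hbd, hmain⟩ := height_overW (κ := κ) (L := L) hK hB (hA (eq.symm l)) hΘ hPB hDk hwt
      hι hwι hf hdim hH (hAb (eq.symm l)) (hrel (eq.symm l)) hb hcw
      (fun i l α v => hΘb (i, l) α v) hint he' hx1 hxf hxg hxd (α := α (eq.symm l)) (by
        rw [hG] at hxG
        exact hxG)
    have hxι : (fun l => x (ι l)) = fun l => c' * v (ι l) := by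
      funext l
      rw [hx]
      show c' ^ wt (ι l) * v (ι l) = c' * v (ι l)
      rw [hwι, pow_one]
    have h1 : height κ (fun l => x (ι l)) = height κ fun l => v (ι l) := by
      rw [hxι]
      exact hL.height_smul hc0
    have h2 : W (eq.symm l) ≤ ((∑ σ, (W σ).toNat : ℕ) : ℤ) := by
      refine (Int.self_le_toNat _).trans ?_
      exact_mod_cast Finset.single_le_sum (f := fun σ => (W σ).toNat)
        (fun _ _ => Nat.zero_le _) (Finset.mem_univ (eq.symm l))
    have hfr := Int.natCast_nonneg (Module.finrank K L)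
    have h4 := mul_le_mul_of_nonneg_right h2 hfr
    have h5 : (0 : ℤ) ≤ ((∑ᶠ v, (Θ v : ℤ)).toNat : ℤ) * Module.finrank K L := by positivity
    refine ⟨?_, c', j₀, ?_, ?_⟩
    · rw [h1] at hmain
      refine hmain.trans ?_
      have h3 : (n : ℤ) * (Module.finrank K L * (∑ᶠ v, (B v : ℤ) +
          ∑ᶠ v, (A (eq.symm l) v : ℤ))) + (n + 1 + ∑ i, ((wt i - 1 : ℕ) : ℤ)) *
            (Module.finrank K L * ∑ᶠ v, (Θ v : ℤ)) = W (eq.symm l) * Module.finrank K L := by
        rw [hW]
        ring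
      rw [add_assoc, h3]
      push_cast at h4 h5 ⊢
      linarith
    · rw [← hx1]
      exact (congrFun hxι j₀).symm
    · rw [← hx, ← h1]
      have hθs : (Function.support fun w : Place κ L => ramIdx K w.1 * Θ (below K w)).Finite := by
        refine (mason_sum_over (L := L) hL hΘ).1.subset ?_
        intro w hw
        rw [Function.mem_support] at hw ⊢
        exact_mod_cast hw
      have h6 := height_le_affine hL hω hx1 hθs hbd
      refine h6.trans ?_
      have h7 : ∑ᶠ w : Place κ L, ((ramIdx K w.1 * Θ (below K w) : ℕ) : ℤ) =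
          Module.finrank K L * ∑ᶠ v, (Θ v : ℤ) := by
        rw [← finsum_ramIdx_mul hL (supp_cast hΘ)]
        simp only [Nat.cast_mul]
      rw [h7]
      refine mul_le_mul_of_nonneg_left ?_ (Int.natCast_nonneg ω)
      have h8 := mul_le_mul_of_nonneg_left (Int.self_le_toNat (∑ᶠ v, (Θ v : ℤ))) hfr
      have h9 : (0 : ℤ) ≤ ((∑ σ, (W σ).toNat : ℕ) : ℤ) * Module.finrank K L := by positivity
      push_cast at h9 ⊢
      linarith

end Pool.Agent.Lib.MP_44a246_ntMS
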