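import Mathlib
import Pool.Agent.Lib.MP_44a246_ntMS.MS06
import Pool.Agent.Lib.MP_44a246_ntMS.MW06

/-!
The height inequality for the points with weighted coordinates, for all fields of definition.
-/

namespace Pool.Agent.Lib.MP_44a246_ntMS

open Pool.Agent.Lib.MP_44a246_nt
open Pool.Agent.Lib.MP_44a246_ntL
open Pool.Agent.Lib.MP_44a246_ntTV
open Pool.Agent.Lib.MP_e52354_ntMR
open Pool.Agent.Lib.MP_44a246_ntR (imI)
open Pool.Agent.Lib.MP_e52354_ntSD (GenK)
open WithZero MvPolynomial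

universe u v w x

/-- **The height inequality with weights.** -/
theorem many_relationsW {κ : Type u} {K : Type v} [Field κ] [IsAlgClosed κ] [CharZero κ]
    [Field K] [CharZero K] [Algebra κ K] (hK : IsFF κ K) {k : Type x} [Field k] [CharZero k]
    [Algebra k K] {N n q p a c m J s ω : ℕ} {d : Fin p → ℕ} {wt : Fin q → ℕ}
    (hwt : ∀ i, 1 ≤ wt i) (hω : ∀ i, wt i ≤ ω) {e : Fin s → ℕ} {j₁ : Fin p}
    (hJ : d j₁ = J + a) (hc : c < (m + a).choose m) {ι : Fin (N + 1) → Fin q}
    (hι : Function.Injective ι) (hwι : ∀ l, wt (ι l) = 1)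
    (f : Fin s → MvPolynomial (Fin p ⊕ Fin q) k)
    (hf : ∀ i, (f i).IsWeightedHomogeneous (Sum.elim d wt) (e i))
    (hdim : ringKrullDim (MvPolynomial (Fin q) k ⧸ (Ideal.span (Set.range f)).comap
      (rename (Sum.inr : Fin q → Fin p ⊕ Fin q))) ≤ ((n + 1 : ℕ) : WithBot ℕ∞))
    (H : Fin p → MvPolynomial (Fin (N + 1)) K) (hH : ∀ j, (H j).IsHomogeneous (d j))
    (hgen : GenK k d H c)
    (hX : ∀ y : Fin q → AlgebraicClosure K, (∀ l, y (ι l) = 0) →
      (∀ i, aeval (Sum.elim (fun j => aeval (fun l => y (ι l)) (H j)) y :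
        Fin p ⊕ Fin q → AlgebraicClosure K) (f i) = 0) → y = 0) :
    ∃ (t : ℕ) (G : Fin t → MvPolynomial (Fin (N + 1)) K), (∀ i, (G i).IsHomogeneous a) ∧
      ringKrullDim (MvPolynomial (Fin (N + 1)) K ⧸ Ideal.span (Set.range G)) ≤
        (m : WithBot ℕ∞) ∧
      ∃ B : ℕ, ∀ (L : Type w) [Field L] [Algebra K L] [FiniteDimensional K L] [Algebra κ L]
        [IsScalarTower κ K L] [Algebra k L] [IsScalarTower k K L] (x : Fin q → L),
        (fun l => x (ι l)) ≠ 0 →
        (∀ i, aeval (Sum.elim (fun j => aeval (fun l => x (ι l)) (H j)) x : Fin p ⊕ Fin q → L)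
          (f i) = 0) →
        (∃ (i : Fin s) (τ : L), aeval (Sum.elim (Function.update
          (fun j => aeval (fun l => x (ι l)) (H j)) j₁ τ) x : Fin p ⊕ Fin q → L) (f i) ≠ 0) →
        (∃ l, aeval (fun l => x (ι l)) (G l) ≠ 0) →
        ((J : ℤ) - 2 * n - ∑ i, ((wt i - 1 : ℕ) : ℤ)) * height κ (fun l => x (ι l)) ≤
          ramDeg κ L K + B * Module.finrank K L ∧
        ∃ (c : L) (j₀ : Fin (N + 1)), c * x (ι j₀) = 1 ∧
          height κ (fun i => c ^ wt i * x i) ≤
            ω * (height κ (fun l => x (ι l)) + B * Module.finrank K L) := by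
  obtain ⟨k₀, _, _, _, htk, f₀, hf₀⟩ := exists_base_fld f
  let _ : Algebra k₀ K := ((algebraMap k K).comp (algebraMap k₀ k)).toAlgebra
  have s0 : IsScalarTower k₀ k K := IsScalarTower.of_algebraMap_eq fun _ => rfl
  obtain rfl : (fun i => map (algebraMap k₀ k) (f₀ i)) = f := funext hf₀
  have hf' : ∀ i, (f₀ i).IsWeightedHomogeneous (Sum.elim d wt) (e i) := by
    intro i m hm
    refine hf i ?_
    rw [coeff_map]
    exact fun h0 => hm ((map_eq_zero _).1 h0)
  have hdim' := (imDim_le (k₀ := k₀) (k := k)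
    (e := (Sum.inr : Fin q → Fin p ⊕ Fin q)) Sum.inr_injective f₀).trans hdim
  have hfin : Finite {I : Fin p × (Fin (N + 1) →₀ ℕ) // I.2.degree = d I.1} := finite_idx d
  have hgen' : GenK k₀ d H c := by
    unfold GenK at hgen ⊢
    refine hgen.trans ?_
    gcongr
    exact trdeg_adjoin_le (k₀ := k₀) (k := k) _
  have hX' : ∀ y : Fin q → AlgebraicClosure K, (∀ l, y (ι l) = 0) →
      (∀ i, aeval (Sum.elim (fun j => aeval (fun l => y (ι l)) (H j)) y :
        Fin p ⊕ Fin q → AlgebraicClosure K) (f₀ i) = 0) → y = 0 := by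
    intro y hy hyf
    refine hX y hy fun i => ?_
    have s3 : IsScalarTower k₀ k (AlgebraicClosure K) := IsScalarTower.of_algebraMap_eq fun c => by
      rw [IsScalarTower.algebraMap_apply k₀ K (AlgebraicClosure K),
        IsScalarTower.algebraMap_apply k K (AlgebraicClosure K),
        IsScalarTower.algebraMap_apply k₀ k K]
    rw [aeval_map_algebraMap]
    exact hyf i
  obtain ⟨t, G, hG, hGd, B, hB⟩ := many_relations_coreW.{u, v, w, x} hK htk hwt hω hJ hc hι hwι f₀
    hf' hdim' H hH hgen' hX'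
  refine ⟨t, G, hG, hGd, B, ?_⟩
  intro L _ _ _ _ _ _ _ x hx hxf hxt hxG
  let _ : Algebra k₀ L := ((algebraMap k L).comp (algebraMap k₀ k)).toAlgebra
  have s1 : IsScalarTower k₀ k L := IsScalarTower.of_algebraMap_eq fun _ => rfl
  have s2 : IsScalarTower k₀ K L := IsScalarTower.of_algebraMap_eq fun c => by
    rw [IsScalarTower.algebraMap_apply k₀ k L, IsScalarTower.algebraMap_apply k K L,
      IsScalarTower.algebraMap_apply k₀ k K]
  refine hB L x hx (fun i => ?_) ?_ hxG
  · rw [← hxf i, aeval_map_algebraMap]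
  · obtain ⟨i, τ, hi⟩ := hxt
    refine ⟨i, τ, fun h0 => hi ?_⟩
    rw [aeval_map_algebraMap]
    exact h0

end Pool.Agent.Lib.MP_44a246_ntMS
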