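import Mathlib

/-!
Renaming of the variables of the equations by an equivalence.
-/

namespace Pool.Agent.Lib.MP_44a246_ntMS

open MvPolynomial

section Equiv

variable {k : Type*} [Field k] {σ τ τ' : Type*}

/-- the weights after the renaming of the variables -/
theorem wh_rename_equiv (e : τ ≃ τ') {w : σ → ℕ} {u : τ → ℕ} {f : MvPolynomial (σ ⊕ τ) k} {n : ℕ}
    (hf : f.IsWeightedHomogeneous (Sum.elim w u) n) :
    (rename (Sum.map id e) f).IsWeightedHomogeneous (Sum.elim w (u ∘ e.symm)) n := by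
  classical
  intro m hm
  obtain ⟨m₀, rfl, hm₀⟩ := coeff_rename_ne_zero _ f m hm
  rw [← hf hm₀, Finsupp.weight_apply, Finsupp.weight_apply,
    Finsupp.sum_mapDomain_index (fun _ => by simp) (fun _ _ _ => by rw [add_smul])]
  refine Finsupp.sum_congr fun i _ => ?_
  rcases i with i | i
  · rfl
  · show m₀ (Sum.inr i) • (u ∘ e.symm) (e i) = _
    rw [Function.comp, Equiv.symm_apply_apply]
    rfl

/-- the dimension of the closure of the image after the renaming of the variables -/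
theorem imDim_equiv (e : τ ≃ τ') {ι : Type*} (f : ι → MvPolynomial (σ ⊕ τ) k) :
    ringKrullDim (MvPolynomial τ' k ⧸ (Ideal.span (Set.range fun i =>
      rename (Sum.map id e) (f i))).comap (rename (Sum.inr : τ' → σ ⊕ τ'))) =
    ringKrullDim (MvPolynomial τ k ⧸ (Ideal.span (Set.range f)).comap
      (rename (Sum.inr : τ → σ ⊕ τ))) := by
  classical
  obtain ⟨Φ, hΦ⟩ : ∃ Φ : MvPolynomial (σ ⊕ τ) k ≃ₐ[k] MvPolynomial (σ ⊕ τ') k,
    ∀ g, Φ g = rename (Sum.map id e) g :=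
    ⟨renameEquiv k (Equiv.sumCongr (Equiv.refl σ) e), fun g => by
      rw [renameEquiv_apply]
      rfl⟩
  obtain ⟨φ, hφ⟩ : ∃ φ : MvPolynomial τ k ≃ₐ[k] MvPolynomial τ' k, ∀ g, φ g = rename e g :=
    ⟨renameEquiv k e, fun g => by
      rw [renameEquiv_apply]⟩
  obtain ⟨I, hI⟩ : ∃ I : Ideal (MvPolynomial (σ ⊕ τ) k), I = Ideal.span (Set.range f) := ⟨_, rfl⟩
  obtain ⟨I', hI'⟩ : ∃ I' : Ideal (MvPolynomial (σ ⊕ τ') k),
    I' = Ideal.span (Set.range fun i => rename (Sum.map id e) (f i)) := ⟨_, rfl⟩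
  have h1 : I' = I.map (Φ : MvPolynomial (σ ⊕ τ) k →+* MvPolynomial (σ ⊕ τ') k) := by
    rw [hI, hI', Ideal.map_span]
    congr 1
    ext g
    constructor
    · rintro ⟨i, rfl⟩
      exact ⟨f i, ⟨i, rfl⟩, hΦ _⟩
    · rintro ⟨_, ⟨i, rfl⟩, rfl⟩
      exact ⟨i, (hΦ _).symm⟩
  have h2 : ∀ g, Φ g ∈ I' ↔ g ∈ I := by
    intro g
    rw [h1]
    constructor
    · intro h
      have h3 := Ideal.mem_map_of_mem
        (Φ.symm : MvPolynomial (σ ⊕ τ') k →+* MvPolynomial (σ ⊕ τ) k) h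
      rw [Ideal.map_map] at h3
      have h4 : ((Φ.symm : MvPolynomial (σ ⊕ τ') k →+* MvPolynomial (σ ⊕ τ) k)).comp
          (Φ : MvPolynomial (σ ⊕ τ) k →+* MvPolynomial (σ ⊕ τ') k) = RingHom.id _ := by
        refine RingHom.ext fun x => ?_
        exact Φ.symm_apply_apply x
      rw [h4, Ideal.map_id] at h3
      have h5 : (Φ.symm : MvPolynomial (σ ⊕ τ') k →+* MvPolynomial (σ ⊕ τ) k) (Φ g) = g :=
        Φ.symm_apply_apply g
      rwa [h5] at h3
    · intro h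
      exact Ideal.mem_map_of_mem (Φ : MvPolynomial (σ ⊕ τ) k →+* MvPolynomial (σ ⊕ τ') k) h
  obtain ⟨J, hJ⟩ : ∃ J : Ideal (MvPolynomial τ k), J = I.comap (rename (Sum.inr : τ → σ ⊕ τ)) :=
    ⟨_, rfl⟩
  obtain ⟨J', hJ'⟩ : ∃ J' : Ideal (MvPolynomial τ' k),
    J' = I'.comap (rename (Sum.inr : τ' → σ ⊕ τ')) := ⟨_, rfl⟩
  have h3 : ∀ g, φ g ∈ J' ↔ g ∈ J := by
    intro g
    rw [hJ, hJ', Ideal.mem_comap, Ideal.mem_comap, ← h2, hφ, hΦ, rename_rename, rename_rename]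
    rfl
  rw [← hI, ← hI', ← hJ, ← hJ']
  have h4 : J' = J.map (φ : MvPolynomial τ k ≃+* MvPolynomial τ' k) := by
    ext g
    obtain ⟨g, rfl⟩ := φ.surjective g
    rw [h3]
    constructor
    · intro h
      exact Ideal.mem_map_of_mem _ h
    · intro h
      have h5 := (Ideal.mem_map_iff_of_surjective _
        (φ : MvPolynomial τ k ≃+* MvPolynomial τ' k).surjective).1 h
      obtain ⟨g', hg', h6⟩ := h5
      have h7 : g' = g := φ.injective h6
      rwa [← h7]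
  exact (ringKrullDim_eq_of_ringEquiv (Ideal.quotientEquiv J J'
    (φ : MvPolynomial τ k ≃+* MvPolynomial τ' k) h4)).symm

end Equiv

end Pool.Agent.Lib.MP_44a246_ntMS
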